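import Pool.Agent.H51.EP.Num0

/-!
# Interface of the project EP

Each part `XY` proves the proposition `S_XY` (as `theorem XY : S_XY` in a file
`Pool/Agent/<Seat>/EP/XY.lean`). A part which uses another one takes it as a hypothesis
`(h : S_ZT)`, as indicated in the table `ep_parts`.
-/

set_option autoImplicit false

namespace Pool.Agent.H51.EP

open Pool.Agent.Helper687.Arith
open Pool.Agent.H872R3.KH (Tm Fm Str Ax ModelsPA KModel HAProves Prv Sat closure)

/-! ## Top level targets of the arithmetical part -/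

/-- exponentiation is existentially definable in models of PA -/
def S_POW : Prop := Dio (fun _ _ v => v 0 = pw (v 1) (v 2))

/-- bounded quantifiers -/
def S_BALL : Prop := ∀ (S : ∀ (M : Type) [PAModel M], (ℕ → M) → M → Prop)
    (f : ∀ (M : Type) [PAModel M], (ℕ → M) → M),
    Dio (fun M _ v => S M (fun n => v (n + 1)) (v 0)) → DioF f →
      Dio (fun M _ v => ∀ i, i < f M v → S M v i)

/-! ## Normal forms and translation to formulas of arithmetic -/

/-- `0, S, +, ·` of a model of PA -/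
def strOf (M : Type) [PAModel M] : Str M := ⟨0, fun a => a + 1, fun a b => a + b, fun a b => a * b⟩

/-- existential closure over the first `j` variables -/
def exs {n : ℕ} : (j : ℕ) → Fm (n + j) → Fm n
  | 0, φ => φ
  | j + 1, φ => exs j (.ex φ)

/-- extension of an assignment by zeros -/
def ext0 {M : Type} [PAModel M] {n : ℕ} (v : Fin n → M) : ℕ → M :=
  fun i => if h : i < n then v ⟨i, h⟩ else 0

/-- terms with substituted variables -/
def PT.toTm {n : ℕ} (σ : ℕ → Tm n) : PT → Tm n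
  | .var i => σ i
  | .zero => .zero
  | .succ t => .succ (t.toTm σ)
  | .add t s => .add (t.toTm σ) (s.toTm σ)
  | .mul t s => .mul (t.toTm σ) (s.toTm σ)

/-- the substitution in the scope of a quantifier -/
def upσ {n : ℕ} (σ : ℕ → Tm n) : ℕ → Tm (n + 1)
  | 0 => .var 0
  | i + 1 => (σ i).subst (fun l => .var l.succ)

/-- positive existential formulas as formulas of arithmetic -/
def EF.toFm : {n : ℕ} → (ℕ → Tm n) → EF → Fm n
  | _, σ, .eq t s => .eq (t.toTm σ) (s.toTm σ)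
  | _, σ, .and φ ψ => .and (φ.toFm σ) (ψ.toFm σ)
  | _, σ, .or φ ψ => .or (φ.toFm σ) (ψ.toFm σ)
  | _, σ, .ex φ => .ex (φ.toFm (upσ σ))

/-- part NF: normal form `∃ w, t = s` -/
def S_NF : Prop := ∀ (R : ∀ (M : Type) [PAModel M], (ℕ → M) → Prop), Dio R → ∀ n : ℕ,
    ∃ (j : ℕ) (t s : Tm (n + j)), ∀ (M : Type) [PAModel M] (v : Fin n → M),
      Sat (strOf M) (exs j (.eq t s)) v ↔ R M (ext0 v)

/-! ## Bridge from `ModelsPA` -/

/-- part BR -/
def S_BR : Prop := ∀ (M : Type) (A : Str M), ModelsPA A → ∃ I : PAModel M, @strOf M I = A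

/-- a Kripke model of HA all of whose nodes are models of PA -/
structure LW where
  W : KModel
  ha : W.ForcesHA
  pa : ∀ k : W.K, PAModel (W.dom k)
  str_eq : ∀ k : W.K, @strOf (W.dom k) (pa k) = W.str k

attribute [instance] LW.pa

namespace LW

/-- the map from the domain of a node to the domain of a later node -/
def inc (W : LW) {k l : W.W.K} (h : k ≤ l) : W.W.dom k → W.W.dom l :=
  Set.inclusion (W.W.dom_mono h)

/-- forcing -/
def F (W : LW) {n : ℕ} (φ : Fm n) (k : W.W.K) (v : Fin n → W.W.dom k) : Prop := W.W.Forces φ k v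

end LW

/-- part UNI: the universal model -/
def S_UNI : Prop := ∃ W : LW, ∀ φ : Fm 0, (∀ k, W.F φ k (fun i => i.elim0)) ↔ HAProves φ

/-- part INC: the inclusions are embeddings -/
def S_INC : Prop := ∀ (W : LW) (k l : W.W.K) (h : k ≤ l),
    Function.Injective (W.inc h) ∧ W.inc h 0 = 0 ∧ (∀ a, W.inc h (a + 1) = W.inc h a + 1) ∧
    (∀ a b, W.inc h (a + b) = W.inc h a + W.inc h b) ∧
    (∀ a b, W.inc h (a * b) = W.inc h a * W.inc h b)

/-- part UP: existentially definable relations are persistent -/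
def S_UP : Prop := ∀ (R : ∀ (M : Type) [PAModel M], (ℕ → M) → Prop), Dio R →
    ∀ (W : LW) (k l : W.W.K) (h : k ≤ l) (v : ℕ → W.W.dom k), R (W.W.dom k) v →
      R (W.W.dom l) (fun n => W.inc h (v n))

/-- part TOF: satisfaction and forcing of the translated formulas -/
def S_TOF : Prop := (∀ (φ : EF) (n : ℕ) (σ : ℕ → Tm n) (M : Type) [PAModel M] (v : Fin n → M),
    Sat (strOf M) (φ.toFm σ) v ↔ φ.ev (fun i => (σ i).ev (strOf M) v)) ∧
  (∀ (φ : EF) (n : ℕ) (σ : ℕ → Tm n) (W : LW) (k : W.W.K) (v : Fin n → W.W.dom k),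
    W.F (φ.toFm σ) k v ↔ φ.ev (fun i => (σ i).ev (W.W.str k) v)) ∧
  (∀ (n j : ℕ) (t s : Tm (n + j)) (W : LW) (k : W.W.K) (v : Fin n → W.W.dom k),
    W.F (exs j (.eq t s)) k v ↔ Sat (strOf (W.W.dom k)) (exs j (.eq t s)) v)

/-! ## The automation combinatory algebra -/

section pca

variable {M : Type} [PAModel M]

/-- codes of triples -/
def tr (f x y : M) : M := pr f (pr x y)

def cI : M := pr 0 0
def cK (a : M) : M := pr 1 a
def cF : M := pr ((2 : ℕ) : M) 0
def cS : M := pr ((3 : ℕ) : M) 0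
def cP (f g : M) : M := pr ((4 : ℕ) : M) (pr f g)
def cC (f g : M) : M := pr ((5 : ℕ) : M) (pr f g)
def cA : M := pr ((6 : ℕ) : M) 0
def cL (f : M) : M := pr ((7 : ℕ) : M) f
def cM (f x : M) : M := pr ((8 : ℕ) : M) (pr f x)
def cD (f g : M) : M := pr ((9 : ℕ) : M) (pr f g)
def cR (f g : M) : M := pr ((10 : ℕ) : M) (pr f g)
def cU : M := pr ((11 : ℕ) : M) 0
def cAdd : M := pr ((12 : ℕ) : M) 0
def cMul : M := pr ((13 : ℕ) : M) 0

/-- One step of the evaluation of codes: `Rule S f x y` says that the code `f` applied to `x` gives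
`y`, provided that the relation `S` holds of the shorter evaluations. -/
inductive Rule (S : M → M → M → Prop) : M → M → M → Prop
  | id (x : M) : Rule S cI x x
  | const (a x : M) : Rule S (cK a) x a
  | fst (x y : M) : Rule S cF (pr x y) x
  | snd (x y : M) : Rule S cS (pr x y) y
  | pair {f g x a b : M} : S f x a → S g x b → Rule S (cP f g) x (pr a b)
  | comp {f g x y z : M} : S f x y → S g y z → Rule S (cC f g) x z
  | app {f x y : M} : S f x y → Rule S cA (pr f x) y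
  | lam (f x : M) : Rule S (cL f) x (cM f x)
  | clo {f x y z : M} : S f (pr x y) z → Rule S (cM f x) y z
  | cases0 {f g x z : M} : S f x z → Rule S (cD f g) (pr x 0) z
  | casesS {f g x n z : M} : S g (pr x n) z → Rule S (cD f g) (pr x (n + 1)) z
  | rec0 {f g x z : M} : S f x z → Rule S (cR f g) (pr x 0) z
  | recS {f g x n u z : M} : S (cR f g) (pr x n) u → S g (pr (pr x n) u) z →
      Rule S (cR f g) (pr x (n + 1)) z
  | succ (x : M) : Rule S cU x (x + 1)
  | add (x y : M) : Rule S cAdd (pr x y) (x + y)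
  | mul (x y : M) : Rule S cMul (pr x y) (x * y)

/-- `a, b` code (by `val a b i`, `i ≤ l`) an evaluation -/
def Der (a b l : M) : Prop := ∀ i, i < l + 1 → ∃ f x y, val a b i = tr f x y ∧
  Rule (fun f' x' y' => ∃ j, j < i ∧ val a b j = tr f' x' y') f x y

/-- the code `f` applied to `x` gives `y` -/
def E (f x y : M) : Prop := ∃ a b l, val a b l = tr f x y ∧ Der a b l

end pca

/-- part PC1: `E` is closed under the rules -/
def S_PC1 : Prop := ∀ (M : Type) [PAModel M] (f x y : M), Rule E f x y → E f x y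

/-- part PC2: `E` is functional -/
def S_PC2 : Prop := ∀ (M : Type) [PAModel M] (f x y y' : M), E f x y → E f x y' → y = y'

/-- part PC3 (uses `S_BALL`): `E` is existentially definable -/
def S_PC3 : Prop := Dio (fun _ _ v => E (v 0) (v 1) (v 2))

/-! ## Realizability -/

open Pool.Agent.H872R3.KH (cns) in
/-- `Q W φ k v r`: the element `r` of the node `k` realizes `φ` with truth -/
def Q (W : LW) : {n : ℕ} → Fm n → (k : W.W.K) → (Fin n → W.W.dom k) → W.W.dom k → Prop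
  | _, .bot, _, _, _ => False
  | _, .eq t s, k, v, _ => t.ev (W.W.str k) v = s.ev (W.W.str k) v
  | _, .and φ ψ, k, v, r => ∃ a b, r = pr a b ∧ Q W φ k v a ∧ Q W ψ k v b
  | _, .or φ ψ, k, v, r => ∃ a b, r = pr a b ∧ ((a = 0 ∧ Q W φ k v b) ∨
      ((∃ c, a = c + 1) ∧ Q W ψ k v b))
  | _, .imp φ ψ, k, v, r => W.F (.imp φ ψ) k v ∧ ∀ (l : W.W.K) (h : k ≤ l) (a : W.W.dom l),
      Q W φ l (fun i => W.inc h (v i)) a → ∃ y, E (W.inc h r) a y ∧
        Q W ψ l (fun i => W.inc h (v i)) y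
  | _, .all φ, k, v, r => ∀ (l : W.W.K) (h : k ≤ l) (a : W.W.dom l), ∃ y, E (W.inc h r) a y ∧
      Q W φ l (cns a (fun i => W.inc h (v i))) y
  | _, .ex φ, k, v, r => ∃ a b, r = pr a b ∧ Q W φ k (cns a v) b

/-- the pair of two terms -/
def prT {n : ℕ} (t s : Tm n) : Tm n := .add (.mul (.add t s) (.add t s)) t

/-- the formula `E(t, s, r)`, if `e` defines `E` -/
def eFm (e : EF) {n : ℕ} (t s r : Tm n) : Fm n :=
  e.toFm (fun i => match i with | 0 => t | 1 => s | 2 => r | _ => .zero)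

/-- the formula `x_0 realizes φ(x_1, …, x_n)` -/
def qF (e : EF) : {n : ℕ} → Fm n → Fm (n + 1)
  | _, .bot => .bot
  | _, .eq t s => (Fm.eq t s).sh
  | _, .and φ ψ => .ex (.ex (.and (.eq (.var 2) (prT (.var 1) (.var 0)))
      (.and ((qF e φ).subst (fun i => Fin.cases (.var 1) (fun j => .var j.succ.succ.succ) i))
        ((qF e ψ).subst (fun i => Fin.cases (.var 0) (fun j => .var j.succ.succ.succ) i)))))
  | _, .or φ ψ => .ex (.ex (.and (.eq (.var 2) (prT (.var 1) (.var 0)))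
      (.or (.and (.eq (.var 1) .zero)
          ((qF e φ).subst (fun i => Fin.cases (.var 0) (fun j => .var j.succ.succ.succ) i)))
        (.and (.ex (.eq (.var 2) (.succ (.var 0))))
          ((qF e ψ).subst (fun i => Fin.cases (.var 0) (fun j => .var j.succ.succ.succ) i))))))
  | _, .imp φ ψ => .and (Fm.imp φ ψ).sh (.all (.imp
      ((qF e φ).subst (fun i => Fin.cases (.var 0) (fun j => .var j.succ.succ) i))
      (.ex (.and (eFm e (.var 2) (.var 1) (.var 0))
        ((qF e ψ).subst (fun i => Fin.cases (.var 0) (fun j => .var j.succ.succ.succ) i))))))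
  | _, .all φ => .all (.ex (.and (eFm e (.var 2) (.var 1) (.var 0))
      ((qF e φ).subst (fun i => Fin.cases (.var 0) (fun j =>
        Fin.cases (.var 1) (fun l => .var l.succ.succ.succ) j) i))))
  | _, .ex φ => .ex (.ex (.and (.eq (.var 2) (prT (.var 1) (.var 0)))
      ((qF e φ).subst (fun i => Fin.cases (.var 0) (fun j =>
        Fin.cases (.var 1) (fun l => .var l.succ.succ.succ) j) i))))

open Pool.Agent.H872R3.KH (cns) in
/-- part QF -/
def S_QF : Prop := ∀ (e : EF), (∀ (M : Type) [PAModel M] (v : ℕ → M),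
    e.ev v ↔ E (v 0) (v 1) (v 2)) → ∀ (W : LW) (n : ℕ) (φ : Fm n) (k : W.W.K)
    (v : Fin n → W.W.dom k) (r : W.W.dom k), W.F (qF e φ) k (cns r v) ↔ Q W φ k v r

/-- part QM (uses `S_PC3`, `S_UP`, `S_INC`): realizability is persistent -/
def S_QM : Prop := ∀ (W : LW) (n : ℕ) (φ : Fm n) (k l : W.W.K) (h : k ≤ l)
    (v : Fin n → W.W.dom k) (r : W.W.dom k), Q W φ k v r → Q W φ l (fun i => W.inc h (v i)) (W.inc h r)

/-- part QT: realized formulas are forced -/
def S_QT : Prop := ∀ (W : LW) (n : ℕ) (φ : Fm n) (k : W.W.K) (v : Fin n → W.W.dom k)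
    (r : W.W.dom k), Q W φ k v r → W.F φ k v

/-- part QS: substitution -/
def S_QS : Prop := ∀ (W : LW) (n m : ℕ) (φ : Fm n) (σ : Fin n → Tm m) (k : W.W.K)
    (v : Fin m → W.W.dom k) (r : W.W.dom k),
    Q W (φ.subst σ) k v r ↔ Q W φ k (fun i => (σ i).ev (W.W.str k) v) r

/-- codes of assignments -/
def cv {M : Type} [PAModel M] : (n : ℕ) → (Fin n → M) → M
  | 0, _ => 0
  | n + 1, v => pr (v 0) (cv n (fun i => v i.succ))

/-- codes of lists -/
def cl {M : Type} [PAModel M] : List M → M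
  | [] => 0
  | a :: l => pr a (cl l)

/-- value of a closed term at a node -/
def LW.cev (W : LW) (k : W.W.K) (c : Tm 0) : W.W.dom k := c.ev (W.W.str k) (fun i => i.elim0)

/-- the closed term `c` is a code which computes realizers of `φ` from realizers of the members of
`Γ` -/
def Realizes (W : LW) {n : ℕ} (Γ : List (Fm n)) (φ : Fm n) (c : Tm 0) : Prop :=
  ∀ (k : W.W.K) (v : Fin n → W.W.dom k) (rs : List (W.W.dom k)),
    List.Forall₂ (fun r γ => Q W γ k v r) rs Γ →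
      ∃ y, E (W.cev k c) (pr (cv n v) (cl rs)) y ∧ Q W φ k v y

/-- `φ` is realizable from `Γ` -/
def Rble (W : LW) {n : ℕ} (Γ : List (Fm n)) (φ : Fm n) : Prop := ∃ c : Tm 0, Realizes W Γ φ c

/-- closed terms for the codes -/
def num0 : ℕ → Tm 0
  | 0 => .zero
  | n + 1 => .succ (num0 n)

def tI : Tm 0 := prT (num0 0) (num0 0)
def tK (a : Tm 0) : Tm 0 := prT (num0 1) a
def tF : Tm 0 := prT (num0 2) (num0 0)
def tS : Tm 0 := prT (num0 3) (num0 0)
def tP (f g : Tm 0) : Tm 0 := prT (num0 4) (prT f g)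
def tC (f g : Tm 0) : Tm 0 := prT (num0 5) (prT f g)
def tA : Tm 0 := prT (num0 6) (num0 0)
def tL (f : Tm 0) : Tm 0 := prT (num0 7) f
def tD (f g : Tm 0) : Tm 0 := prT (num0 9) (prT f g)
def tR (f g : Tm 0) : Tm 0 := prT (num0 10) (prT f g)
def tU : Tm 0 := prT (num0 11) (num0 0)
def tAdd : Tm 0 := prT (num0 12) (num0 0)
def tMul : Tm 0 := prT (num0 13) (num0 0)

/-- part COD: values of the codes -/
def S_COD : Prop := ∀ (W : LW) (k : W.W.K),
    (∀ t s : Tm 0, W.cev k (prT t s) = pr (W.cev k t) (W.cev k s)) ∧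
    (∀ n : ℕ, W.cev k (num0 n) = (n : W.W.dom k)) ∧
    W.cev k tI = cI ∧ (∀ a, W.cev k (tK a) = cK (W.cev k a)) ∧ W.cev k tF = cF ∧
    W.cev k tS = cS ∧ (∀ f g, W.cev k (tP f g) = cP (W.cev k f) (W.cev k g)) ∧
    (∀ f g, W.cev k (tC f g) = cC (W.cev k f) (W.cev k g)) ∧ W.cev k tA = cA ∧
    (∀ f, W.cev k (tL f) = cL (W.cev k f)) ∧
    (∀ f g, W.cev k (tD f g) = cD (W.cev k f) (W.cev k g)) ∧
    (∀ f g, W.cev k (tR f g) = cR (W.cev k f) (W.cev k g)) ∧ W.cev k tU = cU ∧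
    W.cev k tAdd = cAdd ∧ W.cev k tMul = cMul ∧
    (∀ (l : W.W.K) (h : k ≤ l) (c : Tm 0), W.inc h (W.cev k c) = W.cev l c) ∧
    (∀ (l : W.W.K) (h : k ≤ l) (a b : W.W.dom k), W.inc h (pr a b) = pr (W.inc h a) (W.inc h b)) ∧
    (∀ (l : W.W.K) (h : k ≤ l) (n : ℕ) (v : Fin n → W.W.dom k), W.inc h (cv n v) =
      cv n (fun i => W.inc h (v i))) ∧
    (∀ (l : W.W.K) (h : k ≤ l) (rs : List (W.W.dom k)), W.inc h (cl rs) = cl (rs.map (W.inc h)))

/-- part TEV (uses PC1, COD): terms can be evaluated -/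
def S_TEV : Prop := ∀ (W : LW) (n : ℕ) (t : Tm n), ∃ c : Tm 0, ∀ (k : W.W.K)
    (v : Fin n → W.W.dom k) (z : W.W.dom k), E (W.cev k c) (pr (cv n v) z) (t.ev (W.W.str k) v)

/-- part RHY (uses PC1, COD): hypotheses -/
def S_RHY : Prop := ∀ (W : LW) (n : ℕ) (Γ : List (Fm n)) (φ : Fm n), φ ∈ Γ → Rble W Γ φ

/-- part RAO (uses PC1, COD): rules for `∧`, `∨`, `⊥` -/
def S_RAO : Prop := ∀ (W : LW) (n : ℕ) (Γ : List (Fm n)) (φ ψ χ : Fm n),
    (Rble W Γ .bot → Rble W Γ φ) ∧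
    (Rble W Γ φ → Rble W Γ ψ → Rble W Γ (.and φ ψ)) ∧ (Rble W Γ (.and φ ψ) → Rble W Γ φ) ∧
    (Rble W Γ (.and φ ψ) → Rble W Γ ψ) ∧ (Rble W Γ φ → Rble W Γ (.or φ ψ)) ∧
    (Rble W Γ ψ → Rble W Γ (.or φ ψ)) ∧
    (Rble W Γ (.or φ ψ) → Rble W (φ :: Γ) χ → Rble W (ψ :: Γ) χ → Rble W Γ χ)

/-- part RIM (uses PC1, COD, QM, QT, UP for `E`): rules for `→`; the premise `hs` of the
introduction rule is the soundness of forcing -/
def S_RIM : Prop := ∀ (W : LW) (n : ℕ) (Γ : List (Fm n)) (φ ψ : Fm n),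
    ((∀ (k : W.W.K) (v : Fin n → W.W.dom k), (∀ γ ∈ Γ, W.F γ k v) → W.F (.imp φ ψ) k v) →
      Rble W (φ :: Γ) ψ → Rble W Γ (.imp φ ψ)) ∧
    (Rble W Γ (.imp φ ψ) → Rble W Γ φ → Rble W Γ ψ)

/-- part RAL (uses PC1, COD, QM, QS, TEV, UP for `E`): rules for `∀` -/
def S_RAL : Prop := ∀ (W : LW) (n : ℕ) (Γ : List (Fm n)) (φ : Fm (n + 1)),
    (Rble W (Γ.map Fm.sh) φ → Rble W Γ (.all φ)) ∧
    (∀ t : Tm n, Rble W Γ (.all φ) → Rble W Γ (φ.inst t)) ∧
    (Rble W ([] : List (Fm n)) (.all φ) → Rble W ([] : List (Fm (n + 1))) φ)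

/-- part REX (uses PC1, COD, QS, TEV): rules for `∃` -/
def S_REX : Prop := ∀ (W : LW) (n : ℕ) (Γ : List (Fm n)) (φ : Fm (n + 1)),
    (∀ t : Tm n, Rble W Γ (φ.inst t) → Rble W Γ (.ex φ)) ∧
    (∀ χ : Fm n, Rble W Γ (.ex φ) → Rble W (φ :: Γ.map Fm.sh) χ.sh → Rble W Γ χ)

/-- part REQ (uses PC1, COD, QS): rules for equality -/
def S_REQ : Prop := ∀ (W : LW) (n : ℕ) (Γ : List (Fm n)),
    (∀ t : Tm n, Rble W Γ (.eq t t)) ∧
    (∀ (m : ℕ) (φ : Fm m) (σ τ : Fin m → Tm n), (∀ i, Rble W Γ (.eq (σ i) (τ i))) →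
      Rble W Γ (φ.subst σ) → Rble W Γ (φ.subst τ))

/-- part RSO (uses RHY, RAO, RIM, RAL, REX, REQ; the library has `KModel.sound`): soundness -/
def S_RSO : Prop := ∀ (W : LW) (n : ℕ) (Γ : List (Fm n)) (φ : Fm n), Prv Γ φ → Rble W Γ φ

/-- part RAX (uses PC1, COD, QT): the first six axioms (use `Ax` except induction) -/
def S_RAX : Prop := ∀ (W : LW) (α : Fm 0), Ax α →
    (∃ (n : ℕ) (φ : Fm (n + 1)), α = closure n (.imp (.and (Pool.Agent.H872R3.KH.atZero φ)
      (.all (.imp φ (Pool.Agent.H872R3.KH.atSucc φ)))) (.all φ))) ∨ Rble W [] α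

/-- part RIN (uses PC1, PC2, PC3, COD, QF, QM, QT, QS, UP): induction -/
def S_RIN : Prop := ∀ (W : LW) (n : ℕ) (φ : Fm (n + 1)), Rble W ([] : List (Fm n))
    (.imp (.and (Pool.Agent.H872R3.KH.atZero φ)
      (.all (.imp φ (Pool.Agent.H872R3.KH.atSucc φ)))) (.all φ))

/-- part RHA (uses RSO, RAX, RIN, RAL): theorems of HA, opened, are realizable -/
def S_RHA : Prop := ∀ (W : LW) (n : ℕ) (φ : Fm n), HAProves (closure n φ) →
    Rble W ([] : List (Fm n)) φ

/-- part CHU (uses RHA, PC2, PC3, QT, UNI, NF, TOF): Church's rule in existential form -/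
def S_CHU : Prop := ∀ (m : ℕ) (ψ : Fm (m + 1)), HAProves (closure m (.ex ψ)) →
    ∃ (j : ℕ) (t s : Tm (m + 1 + j)),
      HAProves (closure (m + 1) (.imp (exs j (.eq t s)) ψ)) ∧
      HAProves (closure m (.ex (exs j (.eq t s))))

end Pool.Agent.H51.EP
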