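import Pool.Graph.R_seed8.Helper687.Arith.Proof
import Pool.Graph.R_seed8.H872R3.LK.Final

/-!
# Base file of the project EP (existence property of `HA + Diag(M)`)

* `PAModel M` (library `Helper687.Arith.Proof`): a model of Peano arithmetic as an ordered semiring
  with induction for definable sets (`Def`, `DefF`, `ind`, `strong_ind`, `least`, `the`, `val`,
  `exists_val`, `rc`, `rc_zero`, `rc_succ`, ...).
* the automation `dfn` proves goals `Def _`, `DefF _`; it is extended with rules for `dfn1`.
* `EF`: positive existential formulas; `Dio R`: the relation `R`, given in every model of PA, is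
  defined in all models of PA by one positive existential formula (without parameters);
  `DioF f`: the same for the graph of `f`. The automation `dio` proves such goals (extended by `dio1`).
-/

set_option autoImplicit false

namespace Pool.Agent.H51.EP

open Pool.Agent.Helper687.Arith

/-! ### The automation `dfn` -/



/-! ### Positive existential formulas -/

/-- polynomial terms in the variables `v 0, v 1, …` -/
inductive PT : Type
  | var (i : ℕ) : PT
  | zero : PT
  | succ (t : PT) : PT
  | add (t s : PT) : PT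
  | mul (t s : PT) : PT

/-- value of a term -/
def PT.ev {M : Type} [CommSemiring M] (v : ℕ → M) : PT → M
  | .var i => v i
  | .zero => 0
  | .succ t => t.ev v + 1
  | .add t s => t.ev v + s.ev v
  | .mul t s => t.ev v * s.ev v

/-- positive existential formulas; `ex` binds the variable `0` -/
inductive EF : Type
  | eq (t s : PT) : EF
  | and (φ ψ : EF) : EF
  | or (φ ψ : EF) : EF
  | ex (φ : EF) : EF

/-- truth of a positive existential formula -/
def EF.ev {M : Type} [CommSemiring M] : EF → (ℕ → M) → Prop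
  | .eq t s, v => t.ev v = s.ev v
  | .and φ ψ, v => φ.ev v ∧ ψ.ev v
  | .or φ ψ, v => φ.ev v ∨ ψ.ev v
  | .ex φ, v => ∃ a, φ.ev (cns a v)

/-- the relation `R` (one for every model of PA) is defined in all models of PA by one positive
existential formula -/
def Dio (R : ∀ (M : Type) [PAModel M], (ℕ → M) → Prop) : Prop :=
  ∃ φ : EF, ∀ (M : Type) [PAModel M] (v : ℕ → M), φ.ev v ↔ R M v

/-- functions with existentially definable graph -/
def DioF (f : ∀ (M : Type) [PAModel M], (ℕ → M) → M) : Prop :=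
  Dio (fun M _ v => v 0 = f M (fun n => v (n + 1)))

/-! ### Substitution of variables -/

/-- substitution of terms in a term -/
def PT.sub (σ : ℕ → PT) : PT → PT
  | .var i => σ i
  | .zero => .zero
  | .succ t => .succ (t.sub σ)
  | .add t s => .add (t.sub σ) (s.sub σ)
  | .mul t s => .mul (t.sub σ) (s.sub σ)

/-- renaming in the scope of a quantifier -/
def upr (ρ : ℕ → ℕ) : ℕ → ℕ
  | 0 => 0
  | n + 1 => ρ n + 1

/-- renaming of the variables -/
def EF.ren (ρ : ℕ → ℕ) : EF → EF
  | .eq t s => .eq (t.sub fun i => .var (ρ i)) (s.sub fun i => .var (ρ i))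
  | .and φ ψ => .and (φ.ren ρ) (ψ.ren ρ)
  | .or φ ψ => .or (φ.ren ρ) (ψ.ren ρ)
  | .ex φ => .ex (φ.ren (upr ρ))

theorem PT.ev_sub {M : Type} [CommSemiring M] (σ : ℕ → PT) (t : PT) (v : ℕ → M) :
    (t.sub σ).ev v = t.ev (fun i => (σ i).ev v) := by
  induction t with
  | var i => rfl
  | zero => rfl
  | succ t ih => simp only [PT.sub, PT.ev, ih]
  | add t s iht ihs => simp only [PT.sub, PT.ev, iht, ihs]
  | mul t s iht ihs => simp only [PT.sub, PT.ev, iht, ihs]

theorem EF.ev_ren {M : Type} [CommSemiring M] (φ : EF) : ∀ (ρ : ℕ → ℕ) (v : ℕ → M),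
    (φ.ren ρ).ev v ↔ φ.ev (fun n => v (ρ n)) := by
  induction φ with
  | eq t s =>
    intro ρ v
    simp only [EF.ren, EF.ev, PT.ev_sub, PT.ev]
  | and φ ψ ihφ ihψ => intro ρ v; simp only [EF.ren, EF.ev, ihφ, ihψ]
  | or φ ψ ihφ ihψ => intro ρ v; simp only [EF.ren, EF.ev, ihφ, ihψ]
  | ex φ ih =>
    intro ρ v
    simp only [EF.ren, EF.ev, ih]
    refine exists_congr fun a => ?_
    have : (fun n => cns a v (upr ρ n)) = cns a (fun n => v (ρ n)) := by
      funext n
      cases n <;> rfl
    rw [this]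

namespace Dio

theorem congr {R S : ∀ (M : Type) [PAModel M], (ℕ → M) → Prop} (h : Dio R)
    (e : ∀ (M : Type) [PAModel M] (v : ℕ → M), R M v ↔ S M v) : Dio S := by
  obtain ⟨φ, hφ⟩ := h
  exact ⟨φ, fun M _ v => (hφ M v).trans (e M v)⟩

theorem and {R S : ∀ (M : Type) [PAModel M], (ℕ → M) → Prop} (h : Dio R) (h' : Dio S) :
    Dio (fun M _ v => R M v ∧ S M v) := by
  obtain ⟨φ, hφ⟩ := h
  obtain ⟨ψ, hψ⟩ := h'
  exact ⟨.and φ ψ, fun M _ v => and_congr (hφ M v) (hψ M v)⟩

theorem or {R S : ∀ (M : Type) [PAModel M], (ℕ → M) → Prop} (h : Dio R) (h' : Dio S) :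
    Dio (fun M _ v => R M v ∨ S M v) := by
  obtain ⟨φ, hφ⟩ := h
  obtain ⟨ψ, hψ⟩ := h'
  exact ⟨.or φ ψ, fun M _ v => or_congr (hφ M v) (hψ M v)⟩

theorem ex {S : ∀ (M : Type) [PAModel M], (ℕ → M) → M → Prop}
    (h : Dio (fun M _ v => S M (fun n => v (n + 1)) (v 0))) :
    Dio (fun M _ v => ∃ a, S M v a) := by
  obtain ⟨φ, hφ⟩ := h
  exact ⟨.ex φ, fun M _ v => exists_congr fun a => hφ M (cns a v)⟩

theorem ren {R : ∀ (M : Type) [PAModel M], (ℕ → M) → Prop} (ρ : ℕ → ℕ) (h : Dio R) :
    Dio (fun M _ v => R M (fun n => v (ρ n))) := by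
  obtain ⟨φ, hφ⟩ := h
  exact ⟨φ.ren ρ, fun M _ v => (φ.ev_ren ρ v).trans (hφ M _)⟩

theorem eqT (t s : PT) : Dio (fun M _ v => t.ev v = s.ev v) := ⟨.eq t s, fun _ _ _ => Iff.rfl⟩

end Dio

namespace DioF

theorem ren {f : ∀ (M : Type) [PAModel M], (ℕ → M) → M} (ρ : ℕ → ℕ) (h : DioF f) :
    DioF (fun M _ v => f M (fun n => v (ρ n))) :=
  Dio.ren (fun n => match n with | 0 => 0 | n + 1 => ρ n + 1) h

theorem var (n : ℕ) : DioF (fun _ _ v => v n) :=
  Dio.eqT (.var 0) (.var (n + 1))

theorem zero : DioF (fun _ _ _ => 0) := Dio.eqT (.var 0) .zero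

theorem one : DioF (fun _ _ _ => 1) :=
  (Dio.eqT (.var 0) (.succ .zero)).congr fun M _ v => by
    simp only [PT.ev, zero_add]

end DioF

namespace Dio

theorem sub1 {R : ∀ (M : Type) [PAModel M], M → Prop} (h : Dio (fun M _ v => R M (v 0)))
    {f : ∀ (M : Type) [PAModel M], (ℕ → M) → M} (hf : DioF f) : Dio (fun M _ v => R M (f M v)) :=
  congr (ex (S := fun M _ v a => a = f M v ∧ R M a) (and hf h)) (fun M _ v => by simp)

theorem sub2 {R : ∀ (M : Type) [PAModel M], M → M → Prop}
    (h : Dio (fun M _ v => R M (v 0) (v 1))) {f g : ∀ (M : Type) [PAModel M], (ℕ → M) → M}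
    (hf : DioF f) (hg : DioF g) : Dio (fun M _ v => R M (f M v) (g M v)) := by
  have h1 : Dio (fun M _ v => v 0 = f M (fun n => v (n + 2))) :=
    Dio.ren (fun n => match n with | 0 => 0 | n + 1 => n + 2) hf
  have h2 : Dio (fun M _ v => v 1 = g M (fun n => v (n + 2))) :=
    Dio.ren (fun n => match n with | 0 => 1 | n + 1 => n + 2) hg
  refine congr (ex (S := fun M _ v b => ∃ a, a = f M v ∧ b = g M v ∧ R M a b)
    (ex (S := fun M _ v a =>
    a = f M (fun n => v (n + 1)) ∧ v 0 = g M (fun n => v (n + 1)) ∧ R M a (v 0))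
    (and h1 (and h2 h)))) (fun M _ v => by simp)

theorem sub3 {R : ∀ (M : Type) [PAModel M], M → M → M → Prop}
    (h : Dio (fun M _ v => R M (v 0) (v 1) (v 2)))
    {f g k : ∀ (M : Type) [PAModel M], (ℕ → M) → M} (hf : DioF f) (hg : DioF g) (hk : DioF k) :
    Dio (fun M _ v => R M (f M v) (g M v) (k M v)) := by
  have h1 : Dio (fun M _ v => v 0 = f M (fun n => v (n + 3))) :=
    Dio.ren (fun n => match n with | 0 => 0 | n + 1 => n + 3) hf
  have h2 : Dio (fun M _ v => v 1 = g M (fun n => v (n + 3))) :=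
    Dio.ren (fun n => match n with | 0 => 1 | n + 1 => n + 3) hg
  have h3 : Dio (fun M _ v => v 2 = k M (fun n => v (n + 3))) :=
    Dio.ren (fun n => match n with | 0 => 2 | n + 1 => n + 3) hk
  refine congr (ex (S := fun M _ v c => ∃ b, ∃ a, a = f M v ∧ b = g M v ∧ c = k M v ∧ R M a b c)
    (ex (S := fun M _ v b => ∃ a, a = f M (fun n => v (n + 1)) ∧ b = g M (fun n => v (n + 1)) ∧
      v 0 = k M (fun n => v (n + 1)) ∧ R M a b (v 0)) (ex (S := fun M _ v a =>
    a = f M (fun n => v (n + 2)) ∧ v 0 = g M (fun n => v (n + 2)) ∧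
      v 1 = k M (fun n => v (n + 2)) ∧ R M a (v 0) (v 1)) (and h1 (and h2 (and h3 h))))))
    (fun M _ v => by simp)

theorem sub4 {R : ∀ (M : Type) [PAModel M], M → M → M → M → Prop}
    (h : Dio (fun M _ v => R M (v 0) (v 1) (v 2) (v 3)))
    {f g k l : ∀ (M : Type) [PAModel M], (ℕ → M) → M} (hf : DioF f) (hg : DioF g) (hk : DioF k)
    (hl : DioF l) : Dio (fun M _ v => R M (f M v) (g M v) (k M v) (l M v)) := by
  have h1 : Dio (fun M _ v => v 0 = f M (fun n => v (n + 4))) :=
    Dio.ren (fun n => match n with | 0 => 0 | n + 1 => n + 4) hf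
  have h2 : Dio (fun M _ v => v 1 = g M (fun n => v (n + 4))) :=
    Dio.ren (fun n => match n with | 0 => 1 | n + 1 => n + 4) hg
  have h3 : Dio (fun M _ v => v 2 = k M (fun n => v (n + 4))) :=
    Dio.ren (fun n => match n with | 0 => 2 | n + 1 => n + 4) hk
  have h4 : Dio (fun M _ v => v 3 = l M (fun n => v (n + 4))) :=
    Dio.ren (fun n => match n with | 0 => 3 | n + 1 => n + 4) hl
  refine congr (ex (S := fun M _ v d => ∃ c, ∃ b, ∃ a, a = f M v ∧ b = g M v ∧ c = k M v ∧
      d = l M v ∧ R M a b c d)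
    (ex (S := fun M _ v c => ∃ b, ∃ a, a = f M (fun n => v (n + 1)) ∧
      b = g M (fun n => v (n + 1)) ∧ c = k M (fun n => v (n + 1)) ∧
      v 0 = l M (fun n => v (n + 1)) ∧ R M a b c (v 0))
    (ex (S := fun M _ v b => ∃ a, a = f M (fun n => v (n + 2)) ∧ b = g M (fun n => v (n + 2)) ∧
      v 0 = k M (fun n => v (n + 2)) ∧ v 1 = l M (fun n => v (n + 2)) ∧ R M a b (v 0) (v 1))
    (ex (S := fun M _ v a =>
    a = f M (fun n => v (n + 3)) ∧ v 0 = g M (fun n => v (n + 3)) ∧
      v 1 = k M (fun n => v (n + 3)) ∧ v 2 = l M (fun n => v (n + 3)) ∧ R M a (v 0) (v 1) (v 2))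
      (and h1 (and h2 (and h3 (and h4 h))))))))
    (fun M _ v => by simp)

theorem eq {f g : ∀ (M : Type) [PAModel M], (ℕ → M) → M} (hf : DioF f) (hg : DioF g) :
    Dio (fun M _ v => f M v = g M v) :=
  sub2 (R := fun M _ a b => a = b) (eqT (.var 0) (.var 1)) hf hg

end Dio

namespace DioF

theorem app1 {F : ∀ (M : Type) [PAModel M], M → M} (h : Dio (fun M _ v => v 0 = F M (v 1)))
    {f : ∀ (M : Type) [PAModel M], (ℕ → M) → M} (hf : DioF f) : DioF (fun M _ v => F M (f M v)) :=
  Dio.sub2 (R := fun M _ a b => a = F M b) h (var 0) (hf.ren (fun n => n + 1))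

theorem app2 {F : ∀ (M : Type) [PAModel M], M → M → M}
    (h : Dio (fun M _ v => v 0 = F M (v 1) (v 2)))
    {f g : ∀ (M : Type) [PAModel M], (ℕ → M) → M} (hf : DioF f) (hg : DioF g) :
    DioF (fun M _ v => F M (f M v) (g M v)) :=
  Dio.sub3 (R := fun M _ a b c => a = F M b c) h (var 0) (hf.ren (fun n => n + 1))
    (hg.ren (fun n => n + 1))

theorem app3 {F : ∀ (M : Type) [PAModel M], M → M → M → M}
    (h : Dio (fun M _ v => v 0 = F M (v 1) (v 2) (v 3)))
    {f g k : ∀ (M : Type) [PAModel M], (ℕ → M) → M} (hf : DioF f) (hg : DioF g) (hk : DioF k) :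
    DioF (fun M _ v => F M (f M v) (g M v) (k M v)) :=
  Dio.sub4 (R := fun M _ a b c d => a = F M b c d) h (var 0) (hf.ren (fun n => n + 1))
    (hg.ren (fun n => n + 1)) (hk.ren (fun n => n + 1))

theorem add {f g : ∀ (M : Type) [PAModel M], (ℕ → M) → M} (hf : DioF f) (hg : DioF g) :
    DioF (fun M _ v => f M v + g M v) :=
  app2 (F := fun M _ a b => a + b) (Dio.eqT (.var 0) (.add (.var 1) (.var 2))) hf hg

theorem mul {f g : ∀ (M : Type) [PAModel M], (ℕ → M) → M} (hf : DioF f) (hg : DioF g) :
    DioF (fun M _ v => f M v * g M v) :=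
  app2 (F := fun M _ a b => a * b) (Dio.eqT (.var 0) (.mul (.var 1) (.var 2))) hf hg

/-- numerals -/
theorem num (n : ℕ) : DioF (fun M _ _ => (n : M)) := by
  induction n with
  | zero => exact (Dio.congr DioF.zero fun M _ v => by simp)
  | succ n ih =>
    refine (Dio.congr (DioF.add ih DioF.one) fun M _ v => ?_)
    simp

end DioF

theorem Dio.lt {f g : ∀ (M : Type) [PAModel M], (ℕ → M) → M} (hf : DioF f) (hg : DioF g) :
    Dio (fun M _ v => f M v < g M v) := by
  have h : Dio (fun M _ v => v 0 < v 1) := by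
    refine Dio.congr (R := fun M _ v => ∃ z, v 0 + (z + 1) = v 1) ?_
      (fun M _ v => (lt_iff_exists _ _).symm)
    apply Dio.ex
    apply Dio.eq
    · exact (DioF.var 1).add ((DioF.var 0).add DioF.one)
    · exact DioF.var 2
  exact Dio.sub2 (R := fun M _ a b => a < b) h hf hg

theorem Dio.le {f g : ∀ (M : Type) [PAModel M], (ℕ → M) → M} (hf : DioF f) (hg : DioF g) :
    Dio (fun M _ v => f M v ≤ g M v) :=
  (Dio.lt hf (hg.add DioF.one)).congr (fun M _ v => lt_succ_iff)

theorem Dio.ne {f g : ∀ (M : Type) [PAModel M], (ℕ → M) → M} (hf : DioF f) (hg : DioF g) :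
    Dio (fun M _ v => f M v ≠ g M v) :=
  ((Dio.lt hf hg).or (Dio.lt hg hf)).congr (fun M _ v => lt_or_lt_iff_ne)

theorem Dio.dvd {f g : ∀ (M : Type) [PAModel M], (ℕ → M) → M} (hf : DioF f) (hg : DioF g) :
    Dio (fun M _ v => f M v ∣ g M v) := by
  have h : Dio (fun M _ v => v 0 ∣ v 1) := by
    refine Dio.congr (R := fun M _ v => ∃ z, v 1 = v 0 * z) ?_ (fun M _ v => Iff.rfl)
    apply Dio.ex
    apply Dio.eq
    · exact DioF.var 2
    · exact (DioF.var 1).mul (DioF.var 0)
  exact Dio.sub2 (R := fun M _ a b => a ∣ b) h hf hg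

theorem Dio.true : Dio (fun _ _ _ => True) := (Dio.eqT .zero .zero).congr fun M _ v => by simp

theorem Dio.false : Dio (fun _ _ _ => False) :=
  (Dio.eqT (.succ .zero) .zero).congr fun M _ v => by simp [PT.ev]

theorem Def.dvd {M : Type} [PAModel M] {f g : (ℕ → M) → M} (hf : DefF f) (hg : DefF g) :
    Def (fun v => f v ∣ g v) := by
  have h : Def (M := M) (fun v => v 0 ∣ v 1) := by
    refine Def.congr (R := fun v => ∃ z, v 1 = v 0 * z) ?_ (fun v => Iff.rfl)
    (repeat' first | assumption | with_reducible exact Pool.Agent.Helper687.Arith.DefF.var _ | with_reducible exact Pool.Agent.Helper687.Arith.DefF.const _ | with_reducible exact Pool.Agent.Helper687.Arith.Def.const _ | with_reducible apply Pool.Agent.Helper687.Arith.DefF.val | with_reducible apply Pool.Agent.Helper687.Arith.DefF.pow2 | with_reducible apply Pool.Agent.Helper687.Arith.Def.and | with_reducible apply Pool.Agent.Helper687.Arith.Def.or | with_reducible apply Pool.Agent.Helper687.Arith.Def.iff | with_reducible apply Pool.Agent.Helper687.Arith.Def.not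 | with_reducible apply Pool.Agent.Helper687.Arith.Def.ex | with_reducible apply Pool.Agent.Helper687.Arith.Def.all | with_reducible apply Pool.Agent.Helper687.Arith.Def.imp | with_reducible apply Pool.Agent.Helper687.Arith.Def.eq | with_reducible apply Pool.Agent.Helper687.Arith.Def.lt | with_reducible apply Pool.Agent.Helper687.Arith.Def.le | with_reducible apply Pool.Agent.Helper687.Arith.DefF.add | with_reducible apply Pool.Agent.Helper687.Arith.DefF.mul | with_reducible apply Pool.Agent.Helper687.Arith.DefF.the)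
  exact Def.sub2 (R := fun a b => a ∣ b) h hf hg


/-! ### The automation `dio` -/



/-- existentially definable relations are definable -/
theorem Dio.toDef {R : ∀ (M : Type) [PAModel M], (ℕ → M) → Prop} (h : Dio R) (M : Type)
    [PAModel M] : Def (R M) := by
  have ht : ∀ t : PT, DefF (M := M) (fun v => t.ev v) := by
    intro t
    induction t with
    | var i => exact DefF.var i
    | zero => exact DefF.const 0
    | succ t ih => exact ih.add (DefF.const 1)
    | add t s iht ihs => exact iht.add ihs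
    | mul t s iht ihs => exact iht.mul ihs
  have hφ : ∀ φ : EF, Def (M := M) (fun v => φ.ev v) := by
    intro φ
    induction φ with
    | eq t s => exact Def.eq (ht t) (ht s)
    | and φ ψ ihφ ihψ => exact ihφ.and ihψ
    | or φ ψ ihφ ihψ => exact ihφ.or ihψ
    | ex φ ih =>
      refine Def.ex (S := fun v a => φ.ev (cns a v)) (ih.congr fun v => ?_)
      have : cns (v 0) (fun n => v (n + 1)) = v := by
        funext n
        cases n <;> rfl
      rw [this]
  obtain ⟨φ, hφ'⟩ := h
  exact (hφ φ).congr (hφ' M)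

section tests

example : Dio (fun _ _ v => ∃ x y, v 0 + x * x < y ∧ (v 1 = x ∨ x ∣ y + 1)) := by (repeat' first | assumption | with_reducible exact Pool.Agent.H51.EP.DioF.var _ | with_reducible exact Pool.Agent.H51.EP.DioF.one | with_reducible exact Pool.Agent.H51.EP.DioF.zero | with_reducible exact Pool.Agent.H51.EP.DioF.num _ | with_reducible apply Pool.Agent.H51.EP.Dio.and | with_reducible apply Pool.Agent.H51.EP.Dio.or | with_reducible apply Pool.Agent.H51.EP.Dio.ex | with_reducible apply Pool.Agent.H51.EP.Dio.eq | with_reducible apply Pool.Agent.H51.EP.Dio.lt | with_reducible apply Pool.Agent.H51.EP.Dio.le | with_reducible apply Pool.Agent.H51.EP.Dio.ne | with_reducible apply Pool.Agent.H51.EP.Dio.dvd | with_reducible apply Pool.Agent.H51.EP.DioF.add | with_reducible apply Pool.Agent.H51.EP.DioF.mul)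

example {M : Type} [PAModel M] (a : M) : Def (fun v => ∃ x y, v 0 + x * x < y ∧
    (v 1 = x ∨ ∀ z < x, z + a ∣ y + 1)) := by (repeat' first | with_reducible apply Pool.Agent.H51.EP.Def.dvd | assumption | with_reducible exact Pool.Agent.Helper687.Arith.DefF.var _ | with_reducible exact Pool.Agent.Helper687.Arith.DefF.const _ | with_reducible exact Pool.Agent.Helper687.Arith.Def.const _ | with_reducible apply Pool.Agent.Helper687.Arith.DefF.val | with_reducible apply Pool.Agent.Helper687.Arith.DefF.pow2 | with_reducible apply Pool.Agent.Helper687.Arith.Def.and | with_reducible apply Pool.Agent.Helper687.Arith.Def.or | with_reducible apply Pool.Agent.Helper687.Arith.Def.iff | with_reducible apply Pool.Agent.Helper687.Arith.Def.not | with_reducible apply Pool.Agent.Helper687.Arith.Def.ex | with_reducible apply Pool.Agent.Helper687.Arith.Def.all | with_reducible apply Pool.Agent.Helper687.Arith.Def.imp | with_reducible apply Pool.Agent.Helper687.Arith.Def.eq | with_reducible apply Pool.Agent.Helper687.Arith.Def.lt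 | with_reducible apply Pool.Agent.Helper687.Arith.Def.le | with_reducible apply Pool.Agent.Helper687.Arith.DefF.add | with_reducible apply Pool.Agent.Helper687.Arith.DefF.mul | with_reducible apply Pool.Agent.Helper687.Arith.DefF.the)

end tests

end Pool.Agent.H51.EP
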