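import Pool.Agent.H51.EP.RAX

/-! Part CHU: Church's rule in existential form. -/

set_option autoImplicit false

namespace Pool.Agent.H51.EP

open Pool.Agent.Helper687.Arith (PAModel)
open Pool.Agent.H872R3.KH (Tm Fm KModel Sat Prv Ax closure HAProves cns)

theorem dioF_tm (c : Tm 0) : DioF (fun M _ _ => c.ev (strOf M) (fun i => i.elim0)) := by
  induction c with
  | var i => exact i.elim0
  | zero => exact DioF.zero
  | succ t ih => exact ih.add DioF.one
  | add t s iht ihs => exact iht.add ihs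
  | mul t s iht ihs => exact iht.mul ihs

theorem dioF_cv (m : ℕ) : ∀ off : ℕ,
    DioF (fun M _ v => cv m (fun i : Fin m => v (i.1 + off))) := by
  induction m with
  | zero => intro off; exact DioF.zero
  | succ m ih =>
    intro off
    refine Dio.congr (DioF.pr (DioF.var off) (ih (off + 1))) fun M _ v => ?_
    simp only [cv, Fin.val_zero, Fin.val_succ, zero_add]
    have : (fun i : Fin m => v (i.1 + (off + 1) + 1)) = fun i : Fin m => v (i.1 + 1 + off + 1) := by
      funext i
      congr 1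
      omega
    rw [this]

theorem forces_closure (W : LW) : ∀ (n : ℕ) (χ : Fm n), (∀ k v, W.F χ k v) →
    ∀ k, W.F (closure n χ) k (fun i => i.elim0) := by
  intro n
  induction n with
  | zero => intro χ h k; exact h k _
  | succ n ih => intro χ h k; exact ih (.all χ) (fun k v l hl a => h l _) k

theorem CHU (h2 : S_PC2) (h3 : S_PC3) (hR : S_RHA) (hU : S_UNI) (hN : S_NF) :
    S_CHU := by
  intro m ψ h
  obtain ⟨W, hW⟩ := hU
  obtain ⟨c, hc⟩ := hR W m (.ex ψ) h
  have hD : Dio (fun M _ u => ∃ b, E (c.ev (strOf M) (fun i => i.elim0))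
      (pr (cv m (fun i : Fin m => u (i.1 + 1))) 0) (pr (u 0) b)) := by
    refine Dio.ex (S := fun M _ u b => E (c.ev (strOf M) (fun i => i.elim0))
      (pr (cv m (fun i : Fin m => u (i.1 + 1))) 0) (pr (u 0) b)) ?_
    exact Dio.sub3 (R := fun _ _ a b c => E a b c) h3 (dioF_tm c)
      (DioF.pr (dioF_cv m 2) DioF.zero) (DioF.pr (DioF.var 1) (DioF.var 0))
  obtain ⟨j, t, s, hts⟩ := hN _ hD (m + 1)
  have hcev : ∀ l : W.W.K, c.ev (strOf (W.W.dom l)) (fun i => i.elim0) = W.cev l c := by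
    intro l
    rw [W.str_eq l]
    rfl
  have hext : ∀ (M : Type) [PAModel M] (u : Fin (m + 1) → M), ext0 u 0 = u 0 ∧
      (fun i : Fin m => ext0 u (i.1 + 1)) = fun i => u i.succ := by
    intro M _ u
    refine ⟨by simp [ext0], ?_⟩
    funext i
    have : i.1 + 1 < m + 1 := Nat.succ_lt_succ i.2
    simp only [ext0, dif_pos this]
    rfl
  have hreal : ∀ (k : W.W.K) (v : Fin m → W.W.dom k), ∃ a b,
      E (W.cev k c) (pr (cv m v) 0) (pr a b) ∧ Q W ψ k (cns a v) b := by
    intro k v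
    obtain ⟨y, hy, a, b, rfl, hq⟩ := hc k v [] .nil
    exact ⟨a, b, hy, hq⟩
  refine ⟨j, t, s, ?_, ?_⟩
  · refine (hW _).1 (forces_closure W _ _ fun k u l hl hθ => ?_)
    have hθ' := (TOF.2.2 (m + 1) j t s W l (fun i => W.inc hl (u i))).1 hθ
    obtain ⟨b, hb⟩ := (hts (W.W.dom l) _).1 hθ'
    rw [hcev, (hext _ _).1, (hext _ _).2] at hb
    obtain ⟨a, b', hab, hq⟩ := hreal l (fun i => W.inc hl (u i.succ))
    obtain ⟨e1, -⟩ := pr_inj (h2 _ _ _ _ _ hb hab)
    have hf := QT W _ _ _ _ _ hq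
    rw [← e1] at hf
    have e : cns (W.inc hl (u 0)) (fun i => W.inc hl (u i.succ)) =
        fun i => W.inc hl (u i) := by
      funext i
      refine Fin.cases rfl (fun j => rfl) i
    rw [e] at hf
    exact hf
  · refine (hW _).1 (forces_closure W _ _ fun k v => ?_)
    obtain ⟨a, b, hab, -⟩ := hreal k v
    refine ⟨a, (TOF.2.2 (m + 1) j t s W k (cns a v)).2 ((hts (W.W.dom k) _).2 ⟨b, ?_⟩)⟩
    rw [hcev, (hext _ _).1, (hext _ _).2]
    exact hab

end Pool.Agent.H51.EP
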