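import Pool.Agent.H51.EP.Logic
import Pool.Agent.H44.EP.SY1
import Pool.Agent.H44.EP.SY2
import Pool.Agent.H44.EP.SYD
import Pool.Agent.H87.EP.POW
import Pool.Agent.H4.EPB.BallFin

/-! The existence property of `HA + Diag(M)` for the models `M` of the `Π₂` theorems of `PA`. -/

set_option autoImplicit false

universe u

namespace Pool.Agent.H51.EP

/-- the elimination of bounded quantifiers -/
theorem BALL' : S_BALL := Pool.Agent.H4.EPB.BALL Pool.Agent.H87.EP.POW

/-- the final theorem -/
theorem FIN' : S_FIN.{u} := fin_of BALL' (SYD SY1 SY2 Pool.Agent.H97.EP.UNI' INC)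

/-- For every model `M` of the `Π₂` theorems of `PA` the theory `HA + Diag(M)` has the existence
property. -/
theorem existence (M : Type u) (A : Syn.Str M) (h : Syn.ModelsPi₂PA A) :
    Syn.ExistenceProperty (Syn.HADiag A) := FIN' M A h

end Pool.Agent.H51.EP
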