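import Pool.Agent.H51.EP.Stm

/-! Part PC3: `E` is existentially definable. -/

set_option autoImplicit false

namespace Pool.Agent.H51.EP

open Pool.Agent.Helper687.Arith

theorem rule_iff {M : Type} [PAModel M] (S : M → M → M → Prop) (F x y : M) :
    Rule S F x y ↔
      (F = cI ∧ y = x) ∨ (∃ a, F = cK a ∧ y = a) ∨ (∃ b, F = cF ∧ x = pr y b) ∨
      (∃ a, F = cS ∧ x = pr a y) ∨
      (∃ f g a b, F = cP f g ∧ y = pr a b ∧ S f x a ∧ S g x b) ∨
      (∃ f g z, F = cC f g ∧ S f x z ∧ S g z y) ∨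
      (∃ f z, F = cA ∧ x = pr f z ∧ S f z y) ∨
      (∃ f, F = cL f ∧ y = cM f x) ∨
      (∃ f z, F = cM f z ∧ S f (pr z x) y) ∨
      (∃ f g z, F = cD f g ∧ x = pr z 0 ∧ S f z y) ∨
      (∃ f g z n, F = cD f g ∧ x = pr z (n + 1) ∧ S g (pr z n) y) ∨
      (∃ f g z, F = cR f g ∧ x = pr z 0 ∧ S f z y) ∨
      (∃ f g z n u, F = cR f g ∧ x = pr z (n + 1) ∧ S F (pr z n) u ∧ S g (pr (pr z n) u) y) ∨
      (F = cU ∧ y = x + 1) ∨ (∃ a b, F = cAdd ∧ x = pr a b ∧ y = a + b) ∨
      (∃ a b, F = cMul ∧ x = pr a b ∧ y = a * b) := by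
  constructor
  · intro h
    cases h with
    | id => exact Or.inl ⟨rfl, rfl⟩
    | const a x => exact Or.inr (Or.inl ⟨_, rfl, rfl⟩)
    | fst => exact Or.inr (Or.inr (Or.inl ⟨_, rfl, rfl⟩))
    | snd => exact Or.inr (Or.inr (Or.inr (Or.inl ⟨_, rfl, rfl⟩)))
    | pair h1 h2 =>
      exact Or.inr (Or.inr (Or.inr (Or.inr (Or.inl ⟨_, _, _, _, rfl, rfl, h1, h2⟩))))
    | comp h1 h2 =>
      exact Or.inr (Or.inr (Or.inr (Or.inr (Or.inr (Or.inl ⟨_, _, _, rfl, h1, h2⟩)))))
    | app h1 =>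
      exact Or.inr (Or.inr (Or.inr (Or.inr (Or.inr (Or.inr (Or.inl ⟨_, _, rfl, rfl, h1⟩))))))
    | lam f x =>
      exact Or.inr (Or.inr (Or.inr (Or.inr (Or.inr (Or.inr (Or.inr (Or.inl ⟨_, rfl, rfl⟩)))))))
    | clo h1 =>
      exact Or.inr (Or.inr (Or.inr (Or.inr (Or.inr (Or.inr (Or.inr (Or.inr (Or.inl
        ⟨_, _, rfl, h1⟩))))))))
    | cases0 h1 =>
      exact Or.inr (Or.inr (Or.inr (Or.inr (Or.inr (Or.inr (Or.inr (Or.inr (Or.inr (Or.inl
        ⟨_, _, _, rfl, rfl, h1⟩)))))))))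
    | casesS h1 =>
      exact Or.inr (Or.inr (Or.inr (Or.inr (Or.inr (Or.inr (Or.inr (Or.inr (Or.inr (Or.inr (Or.inl
        ⟨_, _, _, _, rfl, rfl, h1⟩))))))))))
    | rec0 h1 =>
      exact Or.inr (Or.inr (Or.inr (Or.inr (Or.inr (Or.inr (Or.inr (Or.inr (Or.inr (Or.inr (Or.inr
        (Or.inl ⟨_, _, _, rfl, rfl, h1⟩)))))))))))
    | recS h1 h2 =>
      exact Or.inr (Or.inr (Or.inr (Or.inr (Or.inr (Or.inr (Or.inr (Or.inr (Or.inr (Or.inr (Or.inr
        (Or.inr (Or.inl ⟨_, _, _, _, _, rfl, rfl, h1, h2⟩))))))))))))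
    | succ =>
      exact Or.inr (Or.inr (Or.inr (Or.inr (Or.inr (Or.inr (Or.inr (Or.inr (Or.inr (Or.inr (Or.inr
        (Or.inr (Or.inr (Or.inl ⟨rfl, rfl⟩)))))))))))))
    | add a b =>
      exact Or.inr (Or.inr (Or.inr (Or.inr (Or.inr (Or.inr (Or.inr (Or.inr (Or.inr (Or.inr (Or.inr
        (Or.inr (Or.inr (Or.inr (Or.inl ⟨_, _, rfl, rfl, rfl⟩))))))))))))))
    | mul a b =>
      exact Or.inr (Or.inr (Or.inr (Or.inr (Or.inr (Or.inr (Or.inr (Or.inr (Or.inr (Or.inr (Or.inr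
        (Or.inr (Or.inr (Or.inr (Or.inr ⟨_, _, rfl, rfl, rfl⟩))))))))))))))
  · rintro (⟨rfl, rfl⟩ | ⟨a, rfl, rfl⟩ | ⟨b, rfl, rfl⟩ | ⟨a, rfl, rfl⟩ | ⟨f, g, a, b, rfl, rfl, h1, h2⟩ |
      ⟨f, g, z, rfl, h1, h2⟩ | ⟨f, z, rfl, rfl, h1⟩ | ⟨f, rfl, rfl⟩ | ⟨f, z, rfl, h1⟩ |
      ⟨f, g, z, rfl, rfl, h1⟩ | ⟨f, g, z, n, rfl, rfl, h1⟩ | ⟨f, g, z, rfl, rfl, h1⟩ |
      ⟨f, g, z, n, u, rfl, rfl, h1, h2⟩ | ⟨rfl, rfl⟩ | ⟨a, b, rfl, rfl, rfl⟩ | ⟨a, b, rfl, rfl, rfl⟩)
    · exact .id _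
    · exact .const _ _
    · exact .fst _ _
    · exact .snd _ _
    · exact .pair h1 h2
    · exact .comp h1 h2
    · exact .app h1
    · exact .lam _ _
    · exact .clo h1
    · exact .cases0 h1
    · exact .casesS h1
    · exact .rec0 h1
    · exact .recS h1 h2
    · exact .succ _
    · exact .add _ _
    · exact .mul _ _

theorem Dio.val_eq : Dio (fun _ _ v => v 0 = val (v 1) (v 2) (v 3)) := by
  refine Dio.congr (R := fun _ _ v => (∃ q, v 1 = q * ((v 3 + 1) * v 2 + 1) + v 0) ∧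
    v 0 < (v 3 + 1) * v 2 + 1) ?_ (fun _ _ v => by rw [eq_comm (a := v 0), val_eq_iff])
  (repeat' first | with_reducible apply Pool.Agent.H51.EP.DioF.sb | with_reducible apply Pool.Agent.H51.EP.Dio.cg | with_reducible apply Pool.Agent.H51.EP.DioF.pr | assumption | with_reducible exact Pool.Agent.H51.EP.DioF.var _ | with_reducible exact Pool.Agent.H51.EP.DioF.one | with_reducible exact Pool.Agent.H51.EP.DioF.zero | with_reducible exact Pool.Agent.H51.EP.DioF.num _ | with_reducible apply Pool.Agent.H51.EP.Dio.and | with_reducible apply Pool.Agent.H51.EP.Dio.or | with_reducible apply Pool.Agent.H51.EP.Dio.ex | with_reducible apply Pool.Agent.H51.EP.Dio.eq | with_reducible apply Pool.Agent.H51.EP.Dio.lt | with_reducible apply Pool.Agent.H51.EP.Dio.le | with_reducible apply Pool.Agent.H51.EP.Dio.ne | with_reducible apply Pool.Agent.H51.EP.Dio.dvd | with_reducible apply Pool.Agent.H51.EP.DioF.add | with_reducible apply Pool.Agent.H51.EP.DioF.mul)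

theorem DioF.val {f g k : ∀ (M : Type) [PAModel M], (ℕ → M) → M} (hf : DioF f) (hg : DioF g)
    (hk : DioF k) : DioF (fun M _ v => val (f M v) (g M v) (k M v)) :=
  DioF.app3 (F := fun _ _ a b c => Pool.Agent.Helper687.Arith.val a b c) Dio.val_eq hf hg hk


/-- the body of the definition of `Der` is existentially definable; the variables are
`0 = y, 1 = x, 2 = f, 3 = i, 4 = l, 5 = b, 6 = a` -/
theorem dio_rule : Dio (fun _ _ v => Rule (fun f' x' y' => ∃ j, j < v 3 ∧
    val (v 6) (v 5) j = tr f' x' y') (v 2) (v 1) (v 0)) := by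
  refine Dio.congr (h := ?_) (fun M _ v => (rule_iff _ _ _ _).symm)
  unfold tr cI cK cF cS cP cC cA cL cM cD cR cU cAdd cMul
  (repeat' first | with_reducible apply Pool.Agent.H51.EP.DioF.val | with_reducible apply Pool.Agent.H51.EP.DioF.sb | with_reducible apply Pool.Agent.H51.EP.Dio.cg | with_reducible apply Pool.Agent.H51.EP.DioF.pr | assumption | with_reducible exact Pool.Agent.H51.EP.DioF.var _ | with_reducible exact Pool.Agent.H51.EP.DioF.one | with_reducible exact Pool.Agent.H51.EP.DioF.zero | with_reducible exact Pool.Agent.H51.EP.DioF.num _ | with_reducible apply Pool.Agent.H51.EP.Dio.and | with_reducible apply Pool.Agent.H51.EP.Dio.or | with_reducible apply Pool.Agent.H51.EP.Dio.ex | with_reducible apply Pool.Agent.H51.EP.Dio.eq | with_reducible apply Pool.Agent.H51.EP.Dio.lt | with_reducible apply Pool.Agent.H51.EP.Dio.le | with_reducible apply Pool.Agent.H51.EP.Dio.ne | with_reducible apply Pool.Agent.H51.EP.Dio.dvd | with_reducible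 apply Pool.Agent.H51.EP.DioF.add | with_reducible apply Pool.Agent.H51.EP.DioF.mul)

theorem PC3 (hB : S_BALL) : S_PC3 := by
  unfold S_PC3 E Der
  apply Dio.ex (S := fun M _ v a => ∃ b l, val a b l = tr (v 0) (v 1) (v 2) ∧
    ∀ i, i < l + 1 → ∃ f x y, val a b i = tr f x y ∧
      Rule (fun f' x' y' => ∃ j, j < i ∧ val a b j = tr f' x' y') f x y)
  apply Dio.ex (S := fun M _ v b => ∃ l, val (v 0) b l = tr (v 1) (v 2) (v 3) ∧
    ∀ i, i < l + 1 → ∃ f x y, val (v 0) b i = tr f x y ∧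
      Rule (fun f' x' y' => ∃ j, j < i ∧ val (v 0) b j = tr f' x' y') f x y)
  apply Dio.ex (S := fun M _ v l => val (v 1) (v 0) l = tr (v 2) (v 3) (v 4) ∧
    ∀ i, i < l + 1 → ∃ f x y, val (v 1) (v 0) i = tr f x y ∧
      Rule (fun f' x' y' => ∃ j, j < i ∧ val (v 1) (v 0) j = tr f' x' y') f x y)
  refine Dio.and ?_ ?_
  · unfold tr
    (repeat' first | with_reducible apply Pool.Agent.H51.EP.DioF.val | with_reducible apply Pool.Agent.H51.EP.DioF.sb | with_reducible apply Pool.Agent.H51.EP.Dio.cg | with_reducible apply Pool.Agent.H51.EP.DioF.pr | assumption | with_reducible exact Pool.Agent.H51.EP.DioF.var _ | with_reducible exact Pool.Agent.H51.EP.DioF.one | with_reducible exact Pool.Agent.H51.EP.DioF.zero | with_reducible exact Pool.Agent.H51.EP.DioF.num _ | with_reducible apply Pool.Agent.H51.EP.Dio.and | with_reducible apply Pool.Agent.H51.EP.Dio.or | with_reducible apply Pool.Agent.H51.EP.Dio.ex | with_reducible apply Pool.Agent.H51.EP.Dio.eq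 | with_reducible apply Pool.Agent.H51.EP.Dio.lt | with_reducible apply Pool.Agent.H51.EP.Dio.le | with_reducible apply Pool.Agent.H51.EP.Dio.ne | with_reducible apply Pool.Agent.H51.EP.Dio.dvd | with_reducible apply Pool.Agent.H51.EP.DioF.add | with_reducible apply Pool.Agent.H51.EP.DioF.mul)
  · refine hB (fun M _ v i => ∃ f x y, val (v 2) (v 1) i = tr f x y ∧
      Rule (fun f' x' y' => ∃ j, j < i ∧ val (v 2) (v 1) j = tr f' x' y') f x y)
      (fun M _ v => v 0 + 1) ?_ (by (repeat' first | with_reducible apply Pool.Agent.H51.EP.DioF.val | with_reducible apply Pool.Agent.H51.EP.DioF.sb | with_reducible apply Pool.Agent.H51.EP.Dio.cg | with_reducible apply Pool.Agent.H51.EP.DioF.pr | assumption | with_reducible exact Pool.Agent.H51.EP.DioF.var _ | with_reducible exact Pool.Agent.H51.EP.DioF.one | with_reducible exact Pool.Agent.H51.EP.DioF.zero | with_reducible exact Pool.Agent.H51.EP.DioF.num _ | with_reducible apply Pool.Agent.H51.EP.Dio.and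 | with_reducible apply Pool.Agent.H51.EP.Dio.or | with_reducible apply Pool.Agent.H51.EP.Dio.ex | with_reducible apply Pool.Agent.H51.EP.Dio.eq | with_reducible apply Pool.Agent.H51.EP.Dio.lt | with_reducible apply Pool.Agent.H51.EP.Dio.le | with_reducible apply Pool.Agent.H51.EP.Dio.ne | with_reducible apply Pool.Agent.H51.EP.Dio.dvd | with_reducible apply Pool.Agent.H51.EP.DioF.add | with_reducible apply Pool.Agent.H51.EP.DioF.mul))
    apply Dio.ex (S := fun M _ v f => ∃ x y, val (v 3) (v 2) (v 0) = tr f x y ∧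
      Rule (fun f' x' y' => ∃ j, j < v 0 ∧ val (v 3) (v 2) j = tr f' x' y') f x y)
    apply Dio.ex (S := fun M _ v x => ∃ y, val (v 4) (v 3) (v 1) = tr (v 0) x y ∧
      Rule (fun f' x' y' => ∃ j, j < v 1 ∧ val (v 4) (v 3) j = tr f' x' y') (v 0) x y)
    apply Dio.ex (S := fun M _ v y => val (v 5) (v 4) (v 2) = tr (v 1) (v 0) y ∧
      Rule (fun f' x' y' => ∃ j, j < v 2 ∧ val (v 5) (v 4) j = tr f' x' y') (v 1) (v 0) y)
    refine Dio.and ?_ dio_rule
    unfold tr
    (repeat' first | with_reducible apply Pool.Agent.H51.EP.DioF.val | with_reducible apply Pool.Agent.H51.EP.DioF.sb | with_reducible apply Pool.Agent.H51.EP.Dio.cg | with_reducible apply Pool.Agent.H51.EP.DioF.pr | assumption | with_reducible exact Pool.Agent.H51.EP.DioF.var _ | with_reducible exact Pool.Agent.H51.EP.DioF.one | with_reducible exact Pool.Agent.H51.EP.DioF.zero | with_reducible exact Pool.Agent.H51.EP.DioF.num _ | with_reducible apply Pool.Agent.H51.EP.Dio.and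 | with_reducible apply Pool.Agent.H51.EP.Dio.or | with_reducible apply Pool.Agent.H51.EP.Dio.ex | with_reducible apply Pool.Agent.H51.EP.Dio.eq | with_reducible apply Pool.Agent.H51.EP.Dio.lt | with_reducible apply Pool.Agent.H51.EP.Dio.le | with_reducible apply Pool.Agent.H51.EP.Dio.ne | with_reducible apply Pool.Agent.H51.EP.Dio.dvd | with_reducible apply Pool.Agent.H51.EP.DioF.add | with_reducible apply Pool.Agent.H51.EP.DioF.mul)

end Pool.Agent.H51.EP
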