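import Pool.Agent.H51.EP.RC

/-! Part QF: the formula expressing realizability. -/

set_option autoImplicit false

namespace Pool.Agent.H51.EP

open Pool.Agent.Helper687.Arith (PAModel)
open Pool.Agent.H872R3.KH (Tm Fm KModel Sat Prv cns)

theorem prT_ev (W : LW) {n : ℕ} (t s : Tm n) (k : W.W.K) (v : Fin n → W.W.dom k) :
    (prT t s).ev (W.W.str k) v = pr (t.ev (W.W.str k) v) (s.ev (W.W.str k) v) := by
  have ha : ∀ (k : W.W.K) (a b : W.W.dom k), (W.W.str k).add a b = a + b := fun k a b => by
    rw [← W.str_eq k]; rfl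
  have hm : ∀ (k : W.W.K) (a b : W.W.dom k), (W.W.str k).mul a b = a * b := fun k a b => by
    rw [← W.str_eq k]; rfl
  simp only [prT, Tm.ev, ha, hm, pr]

theorem eFm_iff (e : EF) (he : ∀ (M : Type) [PAModel M] (v : ℕ → M),
    e.ev v ↔ E (v 0) (v 1) (v 2)) (W : LW) {n : ℕ} (t s r : Tm n) (k : W.W.K)
    (v : Fin n → W.W.dom k) : W.W.Forces (eFm e t s r) k v ↔
      E (t.ev (W.W.str k) v) (s.ev (W.W.str k) v) (r.ev (W.W.str k) v) := by
  unfold eFm
  exact (TOF.2.1 e n _ W k v).trans (he _ _)

theorem QF : S_QF := by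
  intro e he W n φ
  have hs : ∀ (k : W.W.K) (a : W.W.dom k), (W.W.str k).succ a = a + 1 := fun k a => by
    rw [← W.str_eq k]; rfl
  have hz : ∀ k : W.W.K, (W.W.str k).zero = 0 := fun k => by rw [← W.str_eq k]; rfl
  have hsub : ∀ {n m : ℕ} (χ : Fm n) (σ : Fin n → Tm m) (k : W.W.K) (u : Fin m → W.W.dom k)
      (w : Fin n → W.W.dom k), (∀ i, (σ i).ev (W.W.str k) u = w i) →
      (W.W.Forces (χ.subst σ) k u ↔ W.W.Forces χ k w) := by
    intro n m χ σ k u w h
    rw [W.W.forces_subst]
    have : (fun i => (σ i).ev (W.W.str k) u) = w := funext h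
    rw [this]
  induction φ with
  | bot => intro k v r; exact Iff.rfl
  | eq t s => intro k v r; exact W.W.forces_sh (.eq t s) k r v
  | and φ ψ ihφ ihψ =>
    intro k v r
    refine exists_congr fun a => exists_congr fun b => and_congr ?_ (and_congr ?_ ?_)
    · show (Tm.var 2).ev (W.W.str k) _ = (prT (.var 1) (.var 0)).ev (W.W.str k) _ ↔ _
      rw [prT_ev]
      exact Iff.rfl
    · refine (hsub _ _ k _ (cns a v) fun i => ?_).trans (ihφ k v a)
      refine Fin.cases rfl (fun j => rfl) i
    · refine (hsub _ _ k _ (cns b v) fun i => ?_).trans (ihψ k v b)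
      refine Fin.cases rfl (fun j => rfl) i
  | or φ ψ ihφ ihψ =>
    intro k v r
    refine exists_congr fun a => exists_congr fun b => and_congr ?_
      (or_congr (and_congr ?_ ?_) (and_congr ?_ ?_))
    · show (Tm.var 2).ev (W.W.str k) _ = (prT (.var 1) (.var 0)).ev (W.W.str k) _ ↔ _
      rw [prT_ev]
      exact Iff.rfl
    · show (Tm.var 1).ev (W.W.str k) _ = (Tm.zero).ev (W.W.str k) _ ↔ _
      simp only [Tm.ev, hz]
      exact Iff.rfl
    · refine (hsub _ _ k _ (cns b v) fun i => ?_).trans (ihφ k v b)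
      refine Fin.cases rfl (fun j => rfl) i
    · refine exists_congr fun c => ?_
      show (Tm.var 2).ev (W.W.str k) _ = (Tm.succ (.var 0)).ev (W.W.str k) _ ↔ _
      simp only [Tm.ev, hs]
      exact Iff.rfl
    · refine (hsub _ _ k _ (cns b v) fun i => ?_).trans (ihψ k v b)
      refine Fin.cases rfl (fun j => rfl) i
  | imp φ ψ ihφ ihψ =>
    intro k v r
    refine and_congr ?_ ?_
    · exact W.W.forces_sh (.imp φ ψ) k r v
    · constructor
      · intro h l hl a ha
        obtain ⟨y, hy1, hy2⟩ := h l hl a l le_rfl (((hsub _ _ l _ (cns a (fun i =>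
          W.inc hl (v i))) (fun i => by refine Fin.cases rfl (fun j => rfl) i)).trans
          (ihφ l _ a)).2 ha)
        refine ⟨y, (eFm_iff e he W _ _ _ l _).1 hy1, ((hsub _ _ l _ (cns y (fun i =>
          W.inc hl (v i))) (fun i => by refine Fin.cases rfl (fun j => rfl) i)).trans
          (ihψ l _ y)).1 hy2⟩
      · intro h l hl a l' hl' ha
        have ha' := ((hsub _ _ l' _ (cns (W.inc hl' a) (fun i => W.inc (hl.trans hl') (v i)))
          (fun i => by refine Fin.cases rfl (fun j => rfl) i)).trans (ihφ l' _ _)).1 ha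
        obtain ⟨y, hy1, hy2⟩ := h l' (hl.trans hl') (W.inc hl' a) ha'
        refine ⟨y, (eFm_iff e he W _ _ _ l' _).2 hy1, ((hsub _ _ l' _ (cns y (fun i =>
          W.inc (hl.trans hl') (v i))) (fun i => by refine Fin.cases rfl (fun j => rfl) i)).trans
          (ihψ l' _ y)).2 hy2⟩
  | all φ ih =>
    intro k v r
    refine forall_congr' fun l => forall_congr' fun hl => forall_congr' fun a =>
      exists_congr fun y => and_congr ?_ ?_
    · exact eFm_iff e he W _ _ _ l _
    · refine (hsub _ _ l _ (cns y (cns a (fun i => W.inc hl (v i)))) fun i => ?_).trans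
        (ih l (cns a (fun i => W.inc hl (v i))) y)
      refine Fin.cases rfl (fun j => ?_) i
      refine Fin.cases rfl (fun j => rfl) j
  | ex φ ih =>
    intro k v r
    refine exists_congr fun a => exists_congr fun b => and_congr ?_ ?_
    · show (Tm.var 2).ev (W.W.str k) _ = (prT (.var 1) (.var 0)).ev (W.W.str k) _ ↔ _
      rw [prT_ev]
      exact Iff.rfl
    · refine (hsub _ _ k _ (cns b (cns a v)) fun i => ?_).trans (ih k (cns a v) b)
      refine Fin.cases rfl (fun j => ?_) i
      refine Fin.cases rfl (fun j => rfl) j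

end Pool.Agent.H51.EP
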