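import Pool.Agent.H51.EP.SY3

/-! Part SY4. -/

set_option autoImplicit false

universe u v w

namespace Pool.Agent.H51.EP

theorem emF_exs (C : Type u) {n : ℕ} : ∀ (j : ℕ) (χ : K.Fm (n + j)),
    emF C (exs j χ) = Syn.exs j (emF C χ) := by
  intro j
  induction j with
  | zero => intro χ; rfl
  | succ j ih => intro χ; exact ih (.ex χ)

/-- transport of formulas -/
def castF {C : Type u} {a b : ℕ} (h : a = b) (χ : Syn.Fm C a) : Syn.Fm C b := h ▸ χ

theorem castF_ex {C : Type u} {a b : ℕ} (h : a = b) (χ : Syn.Fm C (a + 1)) :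
    castF h (.ex χ) = .ex (castF (congrArg (· + 1) h) χ) := by
  subst h
  rfl

theorem castF_bounded {a b : ℕ} (h : a = b) (χ : Syn.Fm Empty a) (hχ : Syn.Bounded χ) :
    Syn.Bounded (castF h χ) := by
  subst h
  exact hχ

theorem exs_succ {C : Type u} (m : ℕ) : ∀ (j : ℕ) (χ : Syn.Fm C (m + 1 + j)),
    Syn.exs (n := m) (j + 1) (castF (by omega) χ) = .ex (Syn.exs j χ) := by
  intro j
  induction j with
  | zero => intro χ; rfl
  | succ j ih =>
    intro χ
    have h1 := ih (.ex χ)
    rw [castF_ex] at h1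
    exact h1

theorem sat_closure {M : Type u} {C : Type v} (A : Syn.Str M) (ρ : C → M) : ∀ (n : ℕ)
    (φ : Syn.Fm C n), Syn.Sat A ρ (Syn.closure n φ) nov → ∀ v : Fin n → M, Syn.Sat A ρ φ v := by
  intro n
  induction n with
  | zero =>
    intro φ h v
    have e : v = nov := funext fun i => i.elim0
    rw [e]
    exact h
  | succ n ih =>
    intro φ h v
    have h1 := ih (.all φ) h (fun i => v i.succ) (v 0)
    have e : (fun i => Fin.cases (motive := fun _ => M) (v 0) (fun i => v i.succ) i) = v := by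
      funext i
      refine Fin.cases rfl (fun j => rfl) i
    rwa [e] at h1

theorem ev_emT {M : Type u} {C : Type v} {C' : Type w} (A : Syn.Str M) (ρ : C → M) (ρ' : C' → M)
    {n : ℕ} (t : K.Tm n) (v : Fin n → M) : (emT C t).ev A ρ v = (emT C' t).ev A ρ' v := by
  induction t with
  | var i => rfl
  | zero => rfl
  | succ t ih => simp only [emT, Syn.Tm.ev, ih]
  | add t s iht ihs => simp only [emT, Syn.Tm.ev, iht, ihs]
  | mul t s iht ihs => simp only [emT, Syn.Tm.ev, iht, ihs]

theorem sat_emF {M : Type u} {C : Type v} {C' : Type w} (A : Syn.Str M) (ρ : C → M) (ρ' : C' → M)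
    {n : ℕ} (φ : K.Fm n) : ∀ v : Fin n → M,
      Syn.Sat A ρ (emF C φ) v ↔ Syn.Sat A ρ' (emF C' φ) v := by
  induction φ with
  | bot => intro v; exact Iff.rfl
  | eq t s => intro v; simp only [emF, Syn.Sat]; rw [ev_emT A ρ ρ' t, ev_emT A ρ ρ' s]
  | and φ ψ ihφ ihψ => intro v; exact and_congr (ihφ v) (ihψ v)
  | or φ ψ ihφ ihψ => intro v; exact or_congr (ihφ v) (ihψ v)
  | imp φ ψ ihφ ihψ => intro v; exact imp_congr (ihφ v) (ihψ v)
  | all φ ih => intro v; exact forall_congr' fun a => ih _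
  | ex φ ih => intro v; exact exists_congr fun a => ih _

theorem SY4 : S_SY4.{u} := by
  intro m j t s
  constructor
  · refine ⟨m, j + 1, castF (by omega) (emF Empty (.eq t s)), ?_, ?_⟩
    · exact castF_bounded _ _ (.eq _ _)
    · rw [emF_closure, exs_succ, ← emF_exs]
      rfl
  · intro M A h a
    rw [emF_closure] at h
    obtain ⟨b, hb⟩ := sat_closure A _ m _ h a
    exact ⟨b, (sat_emF A _ _ _ _).1 hb⟩

end Pool.Agent.H51.EP
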