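import Pool.Agent.H51.EP.CHU
import Pool.Agent.H51.EP.PC3
import Pool.Agent.H51.EP.QF
import Pool.Agent.H51.EP.SY4
import Pool.Agent.H29.EP.NF
import Pool.Agent.H29.EP.PC1
import Pool.Agent.H37.EP.PC2
import Pool.Agent.H97.EP.UNI
import Pool.Agent.H37.EP.RIN
import Pool.Agent.H29.EP.SY56
import Pool.Agent.H29.EP.SY7
import Pool.Agent.H37.EP.FIN

/-! Assembly of the logical part of the project EP. -/

set_option autoImplicit false

universe u

namespace Pool.Agent.H51.EP

/-- Church's rule in existential form, given the elimination of bounded quantifiers -/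
theorem church (hB : S_BALL) : S_CHU :=
  CHU Pool.Agent.H37.EP.PC2 (PC3 hB)
    (RHA Pool.Agent.H29.EP.PC1 (Pool.Agent.H37.EP.RIN Pool.Agent.H29.EP.PC1 (PC3 hB) (COD INC) QF
      (QM INC) QS TOF)) Pool.Agent.H97.EP.UNI' Pool.Agent.H29.EP.NF

theorem fin_of (hB : S_BALL) (hD : S_SYD.{u}) : S_FIN.{u} :=
  Pool.Agent.H37.EP.FIN (church hB) hD SY3 SY3 SY4 Pool.Agent.H29.EP.SY5 Pool.Agent.H29.EP.SY6
    Pool.Agent.H29.EP.SY7

end Pool.Agent.H51.EP
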