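import Pool.Agent.H51.EP.Base

/-! Functions in models of PA: truncated subtraction, powers, factorials, binomial coefficients,
the polynomial pairing function; definability of these functions. -/

set_option autoImplicit false

namespace Pool.Agent.H51.EP

open Pool.Agent.Helper687.Arith FirstOrder FirstOrder.Language

section

variable {M : Type} [PAModel M]

/-- fixing all variables except the first three -/
theorem Def.inst3 {R : (ℕ → M) → Prop} (h : Def R) (u : ℕ → M) :
    Def (fun w => R (fun n => match n with
      | 0 => w 0 | 1 => w 1 | 2 => w 2 | n + 3 => u n)) := by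
  obtain ⟨φ, hφ⟩ := h
  refine ⟨φ.relabel (Sum.elim Sum.inl (fun n => match n with
    | 0 => Sum.inr 0 | 1 => Sum.inr 1 | 2 => Sum.inr 2 | n + 3 => Sum.inl (u n))), fun v => ?_⟩
  rw [Formula.realize_relabel]
  refine Iff.trans (iff_of_eq (congrArg φ.Realize ?_)) (hφ _)
  funext s
  rcases s with p | n
  · rfl
  · match n with
    | 0 => rfl
    | 1 => rfl
    | 2 => rfl
    | n + 3 => rfl

theorem DefF.rc {c : (ℕ → M) → M} {g : (ℕ → M) → M → M → M} {n : (ℕ → M) → M} (hc : DefF c)
    (hg : Def (fun v => v 0 = g (fun n => v (n + 3)) (v 1) (v 2))) (hn : DefF n) :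
    DefF (fun v => rc (c v) (g v) (n v)) := by
  have hg' : ∀ u : ℕ → M, Def (fun v => v 0 = g u (v 1) (v 2)) := fun u => Def.inst3 hg u
  have h1 : Def (fun v : ℕ → M => v 3 = c (fun n => v (n + 5))) :=
    Def.ren (fun n => match n with | 0 => 3 | n + 1 => n + 5) hc
  have h2 : Def (fun v : ℕ → M => v 2 = n (fun n => v (n + 5))) :=
    Def.ren (fun n => match n with | 0 => 2 | n + 1 => n + 5) hn
  -- v 0 = b, v 1 = a, v 2 = N, v 3 = C, v 4 = y
  have h3 : Def (fun v : ℕ → M => v 0 = g (fun n => v (n + 8)) (v 2) (v 1)) :=
    Def.ren (fun n => match n with | 0 => 0 | 1 => 2 | 2 => 1 | n + 3 => n + 8) hg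
  have key : Def (fun v : ℕ → M => ∀ i, i < v 2 → ∃ z' z, z' = val (v 1) (v 0) i ∧
      z = val (v 1) (v 0) (i + 1) ∧ z = g (fun n => v (n + 5)) i z') := by
    apply Def.all
    apply Def.imp
    · (repeat' first | with_reducible apply Pool.Agent.H51.EP.Def.dvd | assumption | with_reducible exact Pool.Agent.Helper687.Arith.DefF.var _ | with_reducible exact Pool.Agent.Helper687.Arith.DefF.const _ | with_reducible exact Pool.Agent.Helper687.Arith.Def.const _ | with_reducible apply Pool.Agent.Helper687.Arith.DefF.val | with_reducible apply Pool.Agent.Helper687.Arith.DefF.pow2 | with_reducible apply Pool.Agent.Helper687.Arith.Def.and | with_reducible apply Pool.Agent.Helper687.Arith.Def.or | with_reducible apply Pool.Agent.Helper687.Arith.Def.iff | with_reducible apply Pool.Agent.Helper687.Arith.Def.not | with_reducible apply Pool.Agent.Helper687.Arith.Def.ex | with_reducible apply Pool.Agent.Helper687.Arith.Def.all | with_reducible apply Pool.Agent.Helper687.Arith.Def.imp | with_reducible apply Pool.Agent.Helper687.Arith.Def.eq | with_reducible apply Pool.Agent.Helper687.Arith.Def.lt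 | with_reducible apply Pool.Agent.Helper687.Arith.Def.le | with_reducible apply Pool.Agent.Helper687.Arith.DefF.add | with_reducible apply Pool.Agent.Helper687.Arith.DefF.mul | with_reducible apply Pool.Agent.Helper687.Arith.DefF.the)
    apply Def.ex (S := fun v z' => ∃ z, z' = val (v 2) (v 1) (v 0) ∧
      z = val (v 2) (v 1) (v 0 + 1) ∧ z = g (fun n => v (n + 6)) (v 0) z')
    apply Def.ex (S := fun v z => v 0 = val (v 3) (v 2) (v 1) ∧
      z = val (v 3) (v 2) (v 1 + 1) ∧ z = g (fun n => v (n + 7)) (v 1) (v 0))
    refine Def.and ?_ (Def.and ?_ h3)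
    · (repeat' first | with_reducible apply Pool.Agent.H51.EP.Def.dvd | assumption | with_reducible exact Pool.Agent.Helper687.Arith.DefF.var _ | with_reducible exact Pool.Agent.Helper687.Arith.DefF.const _ | with_reducible exact Pool.Agent.Helper687.Arith.Def.const _ | with_reducible apply Pool.Agent.Helper687.Arith.DefF.val | with_reducible apply Pool.Agent.Helper687.Arith.DefF.pow2 | with_reducible apply Pool.Agent.Helper687.Arith.Def.and | with_reducible apply Pool.Agent.Helper687.Arith.Def.or | with_reducible apply Pool.Agent.Helper687.Arith.Def.iff | with_reducible apply Pool.Agent.Helper687.Arith.Def.not | with_reducible apply Pool.Agent.Helper687.Arith.Def.ex | with_reducible apply Pool.Agent.Helper687.Arith.Def.all | with_reducible apply Pool.Agent.Helper687.Arith.Def.imp | with_reducible apply Pool.Agent.Helper687.Arith.Def.eq | with_reducible apply Pool.Agent.Helper687.Arith.Def.lt | with_reducible apply Pool.Agent.Helper687.Arith.Def.le | with_reducible apply Pool.Agent.Helper687.Arith.DefF.add | with_reducible apply Pool.Agent.Helper687.Arith.DefF.mul | with_reducible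 apply Pool.Agent.Helper687.Arith.DefF.the)
    · (repeat' first | with_reducible apply Pool.Agent.H51.EP.Def.dvd | assumption | with_reducible exact Pool.Agent.Helper687.Arith.DefF.var _ | with_reducible exact Pool.Agent.Helper687.Arith.DefF.const _ | with_reducible exact Pool.Agent.Helper687.Arith.Def.const _ | with_reducible apply Pool.Agent.Helper687.Arith.DefF.val | with_reducible apply Pool.Agent.Helper687.Arith.DefF.pow2 | with_reducible apply Pool.Agent.Helper687.Arith.Def.and | with_reducible apply Pool.Agent.Helper687.Arith.Def.or | with_reducible apply Pool.Agent.Helper687.Arith.Def.iff | with_reducible apply Pool.Agent.Helper687.Arith.Def.not | with_reducible apply Pool.Agent.Helper687.Arith.Def.ex | with_reducible apply Pool.Agent.Helper687.Arith.Def.all | with_reducible apply Pool.Agent.Helper687.Arith.Def.imp | with_reducible apply Pool.Agent.Helper687.Arith.Def.eq | with_reducible apply Pool.Agent.Helper687.Arith.Def.lt | with_reducible apply Pool.Agent.Helper687.Arith.Def.le | with_reducible apply Pool.Agent.Helper687.Arith.DefF.add | with_reducible apply Pool.Agent.Helper687.Arith.DefF.mul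 | with_reducible apply Pool.Agent.Helper687.Arith.DefF.the)
  refine Def.congr (R := fun v => ∃ C, ∃ N, ∃ a, ∃ b, C = c (fun n => v (n + 1)) ∧
    N = n (fun n => v (n + 1)) ∧ val a b 0 = C ∧ (∀ i, i < N → ∃ z' z, z' = val a b i ∧
      z = val a b (i + 1) ∧ z = g (fun n => v (n + 1)) i z') ∧ val a b N = v 0) ?_ ?_
  · apply Def.ex (S := fun v C => ∃ N, ∃ a, ∃ b, C = c (fun n => v (n + 1)) ∧
      N = n (fun n => v (n + 1)) ∧ val a b 0 = C ∧ (∀ i, i < N → ∃ z' z, z' = val a b i ∧
      z = val a b (i + 1) ∧ z = g (fun n => v (n + 1)) i z') ∧ val a b N = v 0)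
    apply Def.ex (S := fun v N => ∃ a, ∃ b, v 0 = c (fun n => v (n + 2)) ∧
      N = n (fun n => v (n + 2)) ∧ val a b 0 = v 0 ∧ (∀ i, i < N → ∃ z' z, z' = val a b i ∧
      z = val a b (i + 1) ∧ z = g (fun n => v (n + 2)) i z') ∧ val a b N = v 1)
    apply Def.ex (S := fun v a => ∃ b, v 1 = c (fun n => v (n + 3)) ∧
      v 0 = n (fun n => v (n + 3)) ∧ val a b 0 = v 1 ∧ (∀ i, i < v 0 → ∃ z' z, z' = val a b i ∧
      z = val a b (i + 1) ∧ z = g (fun n => v (n + 3)) i z') ∧ val a b (v 0) = v 2)
    apply Def.ex (S := fun v b => v 2 = c (fun n => v (n + 4)) ∧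
      v 1 = n (fun n => v (n + 4)) ∧ val (v 0) b 0 = v 2 ∧ (∀ i, i < v 1 → ∃ z' z,
      z' = val (v 0) b i ∧ z = val (v 0) b (i + 1) ∧ z = g (fun n => v (n + 4)) i z') ∧
      val (v 0) b (v 1) = v 3)
    refine Def.and h1 (Def.and h2 (Def.and ?_ (Def.and key ?_)))
    · (repeat' first | with_reducible apply Pool.Agent.H51.EP.Def.dvd | assumption | with_reducible exact Pool.Agent.Helper687.Arith.DefF.var _ | with_reducible exact Pool.Agent.Helper687.Arith.DefF.const _ | with_reducible exact Pool.Agent.Helper687.Arith.Def.const _ | with_reducible apply Pool.Agent.Helper687.Arith.DefF.val | with_reducible apply Pool.Agent.Helper687.Arith.DefF.pow2 | with_reducible apply Pool.Agent.Helper687.Arith.Def.and | with_reducible apply Pool.Agent.Helper687.Arith.Def.or | with_reducible apply Pool.Agent.Helper687.Arith.Def.iff | with_reducible apply Pool.Agent.Helper687.Arith.Def.not | with_reducible apply Pool.Agent.Helper687.Arith.Def.ex | with_reducible apply Pool.Agent.Helper687.Arith.Def.all | with_reducible apply Pool.Agent.Helper687.Arith.Def.imp | with_reducible apply Pool.Agent.Helper687.Arith.Def.eq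 | with_reducible apply Pool.Agent.Helper687.Arith.Def.lt | with_reducible apply Pool.Agent.Helper687.Arith.Def.le | with_reducible apply Pool.Agent.Helper687.Arith.DefF.add | with_reducible apply Pool.Agent.Helper687.Arith.DefF.mul | with_reducible apply Pool.Agent.Helper687.Arith.DefF.the)
    · (repeat' first | with_reducible apply Pool.Agent.H51.EP.Def.dvd | assumption | with_reducible exact Pool.Agent.Helper687.Arith.DefF.var _ | with_reducible exact Pool.Agent.Helper687.Arith.DefF.const _ | with_reducible exact Pool.Agent.Helper687.Arith.Def.const _ | with_reducible apply Pool.Agent.Helper687.Arith.DefF.val | with_reducible apply Pool.Agent.Helper687.Arith.DefF.pow2 | with_reducible apply Pool.Agent.Helper687.Arith.Def.and | with_reducible apply Pool.Agent.Helper687.Arith.Def.or | with_reducible apply Pool.Agent.Helper687.Arith.Def.iff | with_reducible apply Pool.Agent.Helper687.Arith.Def.not | with_reducible apply Pool.Agent.Helper687.Arith.Def.ex | with_reducible apply Pool.Agent.Helper687.Arith.Def.all | with_reducible apply Pool.Agent.Helper687.Arith.Def.imp | with_reducible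 apply Pool.Agent.Helper687.Arith.Def.eq | with_reducible apply Pool.Agent.Helper687.Arith.Def.lt | with_reducible apply Pool.Agent.Helper687.Arith.Def.le | with_reducible apply Pool.Agent.Helper687.Arith.DefF.add | with_reducible apply Pool.Agent.Helper687.Arith.DefF.mul | with_reducible apply Pool.Agent.Helper687.Arith.DefF.the)
  · intro v
    have e := rc_eq_iff (c := c (fun n => v (n + 1))) (hg' (fun n => v (n + 1)))
      (n (fun n => v (n + 1))) (v 0)
    rw [eq_comm (a := v 0), e]
    constructor
    · rintro ⟨C, N, a, b, rfl, rfl, h0, hs, h⟩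
      refine ⟨a, b, h0, fun i hi => ?_, h⟩
      obtain ⟨z', z, rfl, rfl, hz⟩ := hs i hi
      exact hz
    · rintro ⟨a, b, h0, hs, h⟩
      exact ⟨_, _, a, b, rfl, rfl, h0, fun i hi => ⟨_, _, rfl, rfl, hs i hi⟩, h⟩

/-- truncated subtraction -/
noncomputable def sb (a b : M) : M := the (fun z => (b ≤ a ∧ b + z = a) ∨ (a < b ∧ z = 0))

theorem DefF.sb {f g : (ℕ → M) → M} (hf : DefF f) (hg : DefF g) :
    DefF (fun v => sb (f v) (g v)) :=
  DefF.app2 (F := fun a b => EP.sb a b) (show Def _ by unfold EP.sb; exact (DefF.the (Q :=
    fun v z => (v 1 ≤ v 0 ∧ v 1 + z = v 0) ∨ (v 0 < v 1 ∧ z = 0)) (by (repeat' first | with_reducible apply Pool.Agent.H51.EP.Def.dvd | assumption | with_reducible exact Pool.Agent.Helper687.Arith.DefF.var _ | with_reducible exact Pool.Agent.Helper687.Arith.DefF.const _ | with_reducible exact Pool.Agent.Helper687.Arith.Def.const _ | with_reducible apply Pool.Agent.Helper687.Arith.DefF.val | with_reducible apply Pool.Agent.Helper687.Arith.DefF.pow2 | with_reducible apply Pool.Agent.Helper687.Arith.Def.and | with_reducible apply Pool.Agent.Helper687.Arith.Def.or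 | with_reducible apply Pool.Agent.Helper687.Arith.Def.iff | with_reducible apply Pool.Agent.Helper687.Arith.Def.not | with_reducible apply Pool.Agent.Helper687.Arith.Def.ex | with_reducible apply Pool.Agent.Helper687.Arith.Def.all | with_reducible apply Pool.Agent.Helper687.Arith.Def.imp | with_reducible apply Pool.Agent.Helper687.Arith.Def.eq | with_reducible apply Pool.Agent.Helper687.Arith.Def.lt | with_reducible apply Pool.Agent.Helper687.Arith.Def.le | with_reducible apply Pool.Agent.Helper687.Arith.DefF.add | with_reducible apply Pool.Agent.Helper687.Arith.DefF.mul | with_reducible apply Pool.Agent.Helper687.Arith.DefF.the)))) hf hg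

theorem sb_add {a b : M} (h : b ≤ a) : b + sb a b = a := by
  obtain ⟨z, hz⟩ := exists_add_of_le h
  have h1 : (b ≤ a ∧ b + sb a b = a) ∨ (a < b ∧ sb a b = 0) :=
    the_spec (P := fun z => (b ≤ a ∧ b + z = a) ∨ (a < b ∧ z = 0)) ⟨z, Or.inl ⟨h, hz.symm⟩, by
      rintro y (⟨_, hy⟩ | ⟨hy, _⟩)
      · exact add_left_cancel (hy.trans hz)
      · exact absurd h (not_le.mpr hy)⟩
  rcases h1 with h1 | h1
  · exact h1.2
  · exact absurd h (not_le.mpr h1.1)

theorem sb_zero {a b : M} (h : a ≤ b) : sb a b = 0 := by
  refine the_eq (P := fun z => (b ≤ a ∧ b + z = a) ∨ (a < b ∧ z = 0)) ?_ ?_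
  · rcases h.lt_or_eq with h | h
    · exact Or.inr ⟨h, rfl⟩
    · exact Or.inl ⟨h.symm.le, by rw [add_zero, h]⟩
  · rintro y (⟨hy, hy'⟩ | ⟨_, hy⟩)
    · have hab := le_antisymm h hy
      rw [hab] at hy'
      exact add_left_cancel (hy'.trans (add_zero b).symm)
    · exact hy

/-- powers -/
noncomputable def pw (a n : M) : M := rc 1 (fun _ y => y * a) n

theorem pw_zero (a : M) : pw a 0 = 1 := rc_zero (g := fun _ y => y * a) (by (repeat' first | with_reducible apply Pool.Agent.H51.EP.Def.dvd | assumption | with_reducible exact Pool.Agent.Helper687.Arith.DefF.var _ | with_reducible exact Pool.Agent.Helper687.Arith.DefF.const _ | with_reducible exact Pool.Agent.Helper687.Arith.Def.const _ | with_reducible apply Pool.Agent.Helper687.Arith.DefF.val | with_reducible apply Pool.Agent.Helper687.Arith.DefF.pow2 | with_reducible apply Pool.Agent.Helper687.Arith.Def.and | with_reducible apply Pool.Agent.Helper687.Arith.Def.or | with_reducible apply Pool.Agent.Helper687.Arith.Def.iff | with_reducible apply Pool.Agent.Helper687.Arith.Def.not | with_reducible apply Pool.Agent.Helper687.Arith.Def.ex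 | with_reducible apply Pool.Agent.Helper687.Arith.Def.all | with_reducible apply Pool.Agent.Helper687.Arith.Def.imp | with_reducible apply Pool.Agent.Helper687.Arith.Def.eq | with_reducible apply Pool.Agent.Helper687.Arith.Def.lt | with_reducible apply Pool.Agent.Helper687.Arith.Def.le | with_reducible apply Pool.Agent.Helper687.Arith.DefF.add | with_reducible apply Pool.Agent.Helper687.Arith.DefF.mul | with_reducible apply Pool.Agent.Helper687.Arith.DefF.the))

theorem pw_succ (a n : M) : pw a (n + 1) = pw a n * a := rc_succ (g := fun _ y => y * a) (by (repeat' first | with_reducible apply Pool.Agent.H51.EP.Def.dvd | assumption | with_reducible exact Pool.Agent.Helper687.Arith.DefF.var _ | with_reducible exact Pool.Agent.Helper687.Arith.DefF.const _ | with_reducible exact Pool.Agent.Helper687.Arith.Def.const _ | with_reducible apply Pool.Agent.Helper687.Arith.DefF.val | with_reducible apply Pool.Agent.Helper687.Arith.DefF.pow2 | with_reducible apply Pool.Agent.Helper687.Arith.Def.and | with_reducible apply Pool.Agent.Helper687.Arith.Def.or | with_reducible apply Pool.Agent.Helper687.Arith.Def.iff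 | with_reducible apply Pool.Agent.Helper687.Arith.Def.not | with_reducible apply Pool.Agent.Helper687.Arith.Def.ex | with_reducible apply Pool.Agent.Helper687.Arith.Def.all | with_reducible apply Pool.Agent.Helper687.Arith.Def.imp | with_reducible apply Pool.Agent.Helper687.Arith.Def.eq | with_reducible apply Pool.Agent.Helper687.Arith.Def.lt | with_reducible apply Pool.Agent.Helper687.Arith.Def.le | with_reducible apply Pool.Agent.Helper687.Arith.DefF.add | with_reducible apply Pool.Agent.Helper687.Arith.DefF.mul | with_reducible apply Pool.Agent.Helper687.Arith.DefF.the)) n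

theorem DefF.pw {f g : (ℕ → M) → M} (hf : DefF f) (hg : DefF g) :
    DefF (fun v => pw (f v) (g v)) :=
  DefF.app2 (F := fun a b => EP.pw a b) (show Def _ from DefF.rc (c := fun _ => 1)
    (g := fun v _ y => y * v 0) (n := fun v => v 1) (by (repeat' first | with_reducible apply Pool.Agent.H51.EP.Def.dvd | assumption | with_reducible exact Pool.Agent.Helper687.Arith.DefF.var _ | with_reducible exact Pool.Agent.Helper687.Arith.DefF.const _ | with_reducible exact Pool.Agent.Helper687.Arith.Def.const _ | with_reducible apply Pool.Agent.Helper687.Arith.DefF.val | with_reducible apply Pool.Agent.Helper687.Arith.DefF.pow2 | with_reducible apply Pool.Agent.Helper687.Arith.Def.and | with_reducible apply Pool.Agent.Helper687.Arith.Def.or | with_reducible apply Pool.Agent.Helper687.Arith.Def.iff | with_reducible apply Pool.Agent.Helper687.Arith.Def.not | with_reducible apply Pool.Agent.Helper687.Arith.Def.ex | with_reducible apply Pool.Agent.Helper687.Arith.Def.all | with_reducible apply Pool.Agent.Helper687.Arith.Def.imp | with_reducible apply Pool.Agent.Helper687.Arith.Def.eq | with_reducible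 apply Pool.Agent.Helper687.Arith.Def.lt | with_reducible apply Pool.Agent.Helper687.Arith.Def.le | with_reducible apply Pool.Agent.Helper687.Arith.DefF.add | with_reducible apply Pool.Agent.Helper687.Arith.DefF.mul | with_reducible apply Pool.Agent.Helper687.Arith.DefF.the)) (by (repeat' first | with_reducible apply Pool.Agent.H51.EP.Def.dvd | assumption | with_reducible exact Pool.Agent.Helper687.Arith.DefF.var _ | with_reducible exact Pool.Agent.Helper687.Arith.DefF.const _ | with_reducible exact Pool.Agent.Helper687.Arith.Def.const _ | with_reducible apply Pool.Agent.Helper687.Arith.DefF.val | with_reducible apply Pool.Agent.Helper687.Arith.DefF.pow2 | with_reducible apply Pool.Agent.Helper687.Arith.Def.and | with_reducible apply Pool.Agent.Helper687.Arith.Def.or | with_reducible apply Pool.Agent.Helper687.Arith.Def.iff | with_reducible apply Pool.Agent.Helper687.Arith.Def.not | with_reducible apply Pool.Agent.Helper687.Arith.Def.ex | with_reducible apply Pool.Agent.Helper687.Arith.Def.all | with_reducible apply Pool.Agent.Helper687.Arith.Def.imp | with_reducible apply Pool.Agent.Helper687.Arith.Def.eq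 | with_reducible apply Pool.Agent.Helper687.Arith.Def.lt | with_reducible apply Pool.Agent.Helper687.Arith.Def.le | with_reducible apply Pool.Agent.Helper687.Arith.DefF.add | with_reducible apply Pool.Agent.Helper687.Arith.DefF.mul | with_reducible apply Pool.Agent.Helper687.Arith.DefF.the)) (by (repeat' first | with_reducible apply Pool.Agent.H51.EP.Def.dvd | assumption | with_reducible exact Pool.Agent.Helper687.Arith.DefF.var _ | with_reducible exact Pool.Agent.Helper687.Arith.DefF.const _ | with_reducible exact Pool.Agent.Helper687.Arith.Def.const _ | with_reducible apply Pool.Agent.Helper687.Arith.DefF.val | with_reducible apply Pool.Agent.Helper687.Arith.DefF.pow2 | with_reducible apply Pool.Agent.Helper687.Arith.Def.and | with_reducible apply Pool.Agent.Helper687.Arith.Def.or | with_reducible apply Pool.Agent.Helper687.Arith.Def.iff | with_reducible apply Pool.Agent.Helper687.Arith.Def.not | with_reducible apply Pool.Agent.Helper687.Arith.Def.ex | with_reducible apply Pool.Agent.Helper687.Arith.Def.all | with_reducible apply Pool.Agent.Helper687.Arith.Def.imp | with_reducible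 apply Pool.Agent.Helper687.Arith.Def.eq | with_reducible apply Pool.Agent.Helper687.Arith.Def.lt | with_reducible apply Pool.Agent.Helper687.Arith.Def.le | with_reducible apply Pool.Agent.Helper687.Arith.DefF.add | with_reducible apply Pool.Agent.Helper687.Arith.DefF.mul | with_reducible apply Pool.Agent.Helper687.Arith.DefF.the))) hf hg

/-- factorials -/
noncomputable def fc (n : M) : M := rc 1 (fun i y => y * (i + 1)) n

theorem fc_zero : fc (0 : M) = 1 := rc_zero (g := fun i y : M => y * (i + 1)) (by (repeat' first | with_reducible apply Pool.Agent.H51.EP.Def.dvd | assumption | with_reducible exact Pool.Agent.Helper687.Arith.DefF.var _ | with_reducible exact Pool.Agent.Helper687.Arith.DefF.const _ | with_reducible exact Pool.Agent.Helper687.Arith.Def.const _ | with_reducible apply Pool.Agent.Helper687.Arith.DefF.val | with_reducible apply Pool.Agent.Helper687.Arith.DefF.pow2 | with_reducible apply Pool.Agent.Helper687.Arith.Def.and | with_reducible apply Pool.Agent.Helper687.Arith.Def.or | with_reducible apply Pool.Agent.Helper687.Arith.Def.iff | with_reducible apply Pool.Agent.Helper687.Arith.Def.not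 | with_reducible apply Pool.Agent.Helper687.Arith.Def.ex | with_reducible apply Pool.Agent.Helper687.Arith.Def.all | with_reducible apply Pool.Agent.Helper687.Arith.Def.imp | with_reducible apply Pool.Agent.Helper687.Arith.Def.eq | with_reducible apply Pool.Agent.Helper687.Arith.Def.lt | with_reducible apply Pool.Agent.Helper687.Arith.Def.le | with_reducible apply Pool.Agent.Helper687.Arith.DefF.add | with_reducible apply Pool.Agent.Helper687.Arith.DefF.mul | with_reducible apply Pool.Agent.Helper687.Arith.DefF.the))

theorem fc_succ (n : M) : fc (n + 1) = fc n * (n + 1) :=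
  rc_succ (g := fun i y : M => y * (i + 1)) (by (repeat' first | with_reducible apply Pool.Agent.H51.EP.Def.dvd | assumption | with_reducible exact Pool.Agent.Helper687.Arith.DefF.var _ | with_reducible exact Pool.Agent.Helper687.Arith.DefF.const _ | with_reducible exact Pool.Agent.Helper687.Arith.Def.const _ | with_reducible apply Pool.Agent.Helper687.Arith.DefF.val | with_reducible apply Pool.Agent.Helper687.Arith.DefF.pow2 | with_reducible apply Pool.Agent.Helper687.Arith.Def.and | with_reducible apply Pool.Agent.Helper687.Arith.Def.or | with_reducible apply Pool.Agent.Helper687.Arith.Def.iff | with_reducible apply Pool.Agent.Helper687.Arith.Def.not | with_reducible apply Pool.Agent.Helper687.Arith.Def.ex | with_reducible apply Pool.Agent.Helper687.Arith.Def.all | with_reducible apply Pool.Agent.Helper687.Arith.Def.imp | with_reducible apply Pool.Agent.Helper687.Arith.Def.eq | with_reducible apply Pool.Agent.Helper687.Arith.Def.lt | with_reducible apply Pool.Agent.Helper687.Arith.Def.le | with_reducible apply Pool.Agent.Helper687.Arith.DefF.add | with_reducible apply Pool.Agent.Helper687.Arith.DefF.mul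 | with_reducible apply Pool.Agent.Helper687.Arith.DefF.the)) n

theorem DefF.fc {f : (ℕ → M) → M} (hf : DefF f) : DefF (fun v => fc (f v)) :=
  DefF.app1 (F := fun a => EP.fc a) (show Def _ from DefF.rc (c := fun _ => 1)
    (g := fun _ i y => y * (i + 1)) (n := fun v => v 0) (by (repeat' first | with_reducible apply Pool.Agent.H51.EP.Def.dvd | assumption | with_reducible exact Pool.Agent.Helper687.Arith.DefF.var _ | with_reducible exact Pool.Agent.Helper687.Arith.DefF.const _ | with_reducible exact Pool.Agent.Helper687.Arith.Def.const _ | with_reducible apply Pool.Agent.Helper687.Arith.DefF.val | with_reducible apply Pool.Agent.Helper687.Arith.DefF.pow2 | with_reducible apply Pool.Agent.Helper687.Arith.Def.and | with_reducible apply Pool.Agent.Helper687.Arith.Def.or | with_reducible apply Pool.Agent.Helper687.Arith.Def.iff | with_reducible apply Pool.Agent.Helper687.Arith.Def.not | with_reducible apply Pool.Agent.Helper687.Arith.Def.ex | with_reducible apply Pool.Agent.Helper687.Arith.Def.all | with_reducible apply Pool.Agent.Helper687.Arith.Def.imp | with_reducible apply Pool.Agent.Helper687.Arith.Def.eq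 | with_reducible apply Pool.Agent.Helper687.Arith.Def.lt | with_reducible apply Pool.Agent.Helper687.Arith.Def.le | with_reducible apply Pool.Agent.Helper687.Arith.DefF.add | with_reducible apply Pool.Agent.Helper687.Arith.DefF.mul | with_reducible apply Pool.Agent.Helper687.Arith.DefF.the)) (by (repeat' first | with_reducible apply Pool.Agent.H51.EP.Def.dvd | assumption | with_reducible exact Pool.Agent.Helper687.Arith.DefF.var _ | with_reducible exact Pool.Agent.Helper687.Arith.DefF.const _ | with_reducible exact Pool.Agent.Helper687.Arith.Def.const _ | with_reducible apply Pool.Agent.Helper687.Arith.DefF.val | with_reducible apply Pool.Agent.Helper687.Arith.DefF.pow2 | with_reducible apply Pool.Agent.Helper687.Arith.Def.and | with_reducible apply Pool.Agent.Helper687.Arith.Def.or | with_reducible apply Pool.Agent.Helper687.Arith.Def.iff | with_reducible apply Pool.Agent.Helper687.Arith.Def.not | with_reducible apply Pool.Agent.Helper687.Arith.Def.ex | with_reducible apply Pool.Agent.Helper687.Arith.Def.all | with_reducible apply Pool.Agent.Helper687.Arith.Def.imp | with_reducible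 apply Pool.Agent.Helper687.Arith.Def.eq | with_reducible apply Pool.Agent.Helper687.Arith.Def.lt | with_reducible apply Pool.Agent.Helper687.Arith.Def.le | with_reducible apply Pool.Agent.Helper687.Arith.DefF.add | with_reducible apply Pool.Agent.Helper687.Arith.DefF.mul | with_reducible apply Pool.Agent.Helper687.Arith.DefF.the)) (by (repeat' first | with_reducible apply Pool.Agent.H51.EP.Def.dvd | assumption | with_reducible exact Pool.Agent.Helper687.Arith.DefF.var _ | with_reducible exact Pool.Agent.Helper687.Arith.DefF.const _ | with_reducible exact Pool.Agent.Helper687.Arith.Def.const _ | with_reducible apply Pool.Agent.Helper687.Arith.DefF.val | with_reducible apply Pool.Agent.Helper687.Arith.DefF.pow2 | with_reducible apply Pool.Agent.Helper687.Arith.Def.and | with_reducible apply Pool.Agent.Helper687.Arith.Def.or | with_reducible apply Pool.Agent.Helper687.Arith.Def.iff | with_reducible apply Pool.Agent.Helper687.Arith.Def.not | with_reducible apply Pool.Agent.Helper687.Arith.Def.ex | with_reducible apply Pool.Agent.Helper687.Arith.Def.all | with_reducible apply Pool.Agent.Helper687.Arith.Def.imp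 | with_reducible apply Pool.Agent.Helper687.Arith.Def.eq | with_reducible apply Pool.Agent.Helper687.Arith.Def.lt | with_reducible apply Pool.Agent.Helper687.Arith.Def.le | with_reducible apply Pool.Agent.Helper687.Arith.DefF.add | with_reducible apply Pool.Agent.Helper687.Arith.DefF.mul | with_reducible apply Pool.Agent.Helper687.Arith.DefF.the))) hf

/-- falling factorials `a (a - 1) ⋯ (a - n + 1)` -/
noncomputable def ff (a n : M) : M := rc 1 (fun i y => y * sb a i) n

theorem DefF.def_ff (a : M) : Def (fun v => v 0 = (fun i y => y * EP.sb a i) (v 1) (v 2)) :=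
  (DefF.var 2 |>.mul (DefF.sb (DefF.const a) (DefF.var 1)) |> fun h => Def.eq (DefF.var 0) h)

theorem ff_zero (a : M) : ff a 0 = 1 := rc_zero (DefF.def_ff a)

theorem ff_succ (a n : M) : ff a (n + 1) = ff a n * sb a n := rc_succ (DefF.def_ff a) n

theorem DefF.ff {f g : (ℕ → M) → M} (hf : DefF f) (hg : DefF g) :
    DefF (fun v => ff (f v) (g v)) :=
  DefF.app2 (F := fun a b => EP.ff a b) (show Def _ from DefF.rc (c := fun _ => 1)
    (g := fun v i y => y * EP.sb (v 0) i) (n := fun v => v 1) (by (repeat' first | with_reducible apply Pool.Agent.H51.EP.Def.dvd | assumption | with_reducible exact Pool.Agent.Helper687.Arith.DefF.var _ | with_reducible exact Pool.Agent.Helper687.Arith.DefF.const _ | with_reducible exact Pool.Agent.Helper687.Arith.Def.const _ | with_reducible apply Pool.Agent.Helper687.Arith.DefF.val | with_reducible apply Pool.Agent.Helper687.Arith.DefF.pow2 | with_reducible apply Pool.Agent.Helper687.Arith.Def.and | with_reducible apply Pool.Agent.Helper687.Arith.Def.or | with_reducible apply Pool.Agent.Helper687.Arith.Def.iff | with_reducible apply Pool.Agent.Helper687.Arith.Def.not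 | with_reducible apply Pool.Agent.Helper687.Arith.Def.ex | with_reducible apply Pool.Agent.Helper687.Arith.Def.all | with_reducible apply Pool.Agent.Helper687.Arith.Def.imp | with_reducible apply Pool.Agent.Helper687.Arith.Def.eq | with_reducible apply Pool.Agent.Helper687.Arith.Def.lt | with_reducible apply Pool.Agent.Helper687.Arith.Def.le | with_reducible apply Pool.Agent.Helper687.Arith.DefF.add | with_reducible apply Pool.Agent.Helper687.Arith.DefF.mul | with_reducible apply Pool.Agent.Helper687.Arith.DefF.the))
    (Def.eq (DefF.var 0) ((DefF.var 2).mul (DefF.sb (DefF.var 3) (DefF.var 1)))) (by (repeat' first | with_reducible apply Pool.Agent.H51.EP.Def.dvd | assumption | with_reducible exact Pool.Agent.Helper687.Arith.DefF.var _ | with_reducible exact Pool.Agent.Helper687.Arith.DefF.const _ | with_reducible exact Pool.Agent.Helper687.Arith.Def.const _ | with_reducible apply Pool.Agent.Helper687.Arith.DefF.val | with_reducible apply Pool.Agent.Helper687.Arith.DefF.pow2 | with_reducible apply Pool.Agent.Helper687.Arith.Def.and | with_reducible apply Pool.Agent.Helper687.Arith.Def.or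 | with_reducible apply Pool.Agent.Helper687.Arith.Def.iff | with_reducible apply Pool.Agent.Helper687.Arith.Def.not | with_reducible apply Pool.Agent.Helper687.Arith.Def.ex | with_reducible apply Pool.Agent.Helper687.Arith.Def.all | with_reducible apply Pool.Agent.Helper687.Arith.Def.imp | with_reducible apply Pool.Agent.Helper687.Arith.Def.eq | with_reducible apply Pool.Agent.Helper687.Arith.Def.lt | with_reducible apply Pool.Agent.Helper687.Arith.Def.le | with_reducible apply Pool.Agent.Helper687.Arith.DefF.add | with_reducible apply Pool.Agent.Helper687.Arith.DefF.mul | with_reducible apply Pool.Agent.Helper687.Arith.DefF.the))) hf hg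

/-- binomial coefficients: the number `c` with `n! c = a (a - 1) ⋯ (a - n + 1)` -/
noncomputable def bn (a n : M) : M := the (fun c => fc n * c = ff a n)

theorem DefF.bn {f g : (ℕ → M) → M} (hf : DefF f) (hg : DefF g) :
    DefF (fun v => bn (f v) (g v)) :=
  DefF.app2 (F := fun a b => EP.bn a b) (show Def _ by unfold EP.bn; exact (DefF.the (Q :=
    fun v z => EP.fc (v 1) * z = EP.ff (v 0) (v 1)) (Def.eq ((DefF.fc (DefF.var 2)).mul
      (DefF.var 0)) (DefF.ff (DefF.var 1) (DefF.var 2))))) hf hg

/-- the pairing function, a polynomial -/
def pr (a b : M) : M := (a + b) * (a + b) + a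

theorem DefF.pr {f g : (ℕ → M) → M} (hf : DefF f) (hg : DefF g) :
    DefF (fun v => pr (f v) (g v)) :=
  DefF.app2 (F := fun a b => EP.pr a b) (show Def _ by unfold EP.pr; (repeat' first | with_reducible apply Pool.Agent.H51.EP.Def.dvd | assumption | with_reducible exact Pool.Agent.Helper687.Arith.DefF.var _ | with_reducible exact Pool.Agent.Helper687.Arith.DefF.const _ | with_reducible exact Pool.Agent.Helper687.Arith.Def.const _ | with_reducible apply Pool.Agent.Helper687.Arith.DefF.val | with_reducible apply Pool.Agent.Helper687.Arith.DefF.pow2 | with_reducible apply Pool.Agent.Helper687.Arith.Def.and | with_reducible apply Pool.Agent.Helper687.Arith.Def.or | with_reducible apply Pool.Agent.Helper687.Arith.Def.iff | with_reducible apply Pool.Agent.Helper687.Arith.Def.not | with_reducible apply Pool.Agent.Helper687.Arith.Def.ex | with_reducible apply Pool.Agent.Helper687.Arith.Def.all | with_reducible apply Pool.Agent.Helper687.Arith.Def.imp | with_reducible apply Pool.Agent.Helper687.Arith.Def.eq | with_reducible apply Pool.Agent.Helper687.Arith.Def.lt | with_reducible apply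 Pool.Agent.Helper687.Arith.Def.le | with_reducible apply Pool.Agent.Helper687.Arith.DefF.add | with_reducible apply Pool.Agent.Helper687.Arith.DefF.mul | with_reducible apply Pool.Agent.Helper687.Arith.DefF.the)) hf hg

theorem pr_inj {a b a' b' : M} (h : pr a b = pr a' b') : a = a' ∧ b = b' := pair_inj h

/-- congruence modulo `m`, without subtraction -/
def Cg (m a b : M) : Prop := ∃ x y, a + m * x = b + m * y

theorem Def.cg {f g h : (ℕ → M) → M} (hf : DefF f) (hg : DefF g) (hh : DefF h) :
    Def (fun v => Cg (f v) (g v) (h v)) :=
  Def.sub3 (R := fun a b c => Cg a b c) (show Def _ by unfold Cg; (repeat' first | with_reducible apply Pool.Agent.H51.EP.Def.dvd | assumption | with_reducible exact Pool.Agent.Helper687.Arith.DefF.var _ | with_reducible exact Pool.Agent.Helper687.Arith.DefF.const _ | with_reducible exact Pool.Agent.Helper687.Arith.Def.const _ | with_reducible apply Pool.Agent.Helper687.Arith.DefF.val | with_reducible apply Pool.Agent.Helper687.Arith.DefF.pow2 | with_reducible apply Pool.Agent.Helper687.Arith.Def.and | with_reducible apply Pool.Agent.Helper687.Arith.Def.or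 | with_reducible apply Pool.Agent.Helper687.Arith.Def.iff | with_reducible apply Pool.Agent.Helper687.Arith.Def.not | with_reducible apply Pool.Agent.Helper687.Arith.Def.ex | with_reducible apply Pool.Agent.Helper687.Arith.Def.all | with_reducible apply Pool.Agent.Helper687.Arith.Def.imp | with_reducible apply Pool.Agent.Helper687.Arith.Def.eq | with_reducible apply Pool.Agent.Helper687.Arith.Def.lt | with_reducible apply Pool.Agent.Helper687.Arith.Def.le | with_reducible apply Pool.Agent.Helper687.Arith.DefF.add | with_reducible apply Pool.Agent.Helper687.Arith.DefF.mul | with_reducible apply Pool.Agent.Helper687.Arith.DefF.the)) hf hg hh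

end


theorem DioF.pr {f g : ∀ (M : Type) [PAModel M], (ℕ → M) → M} (hf : DioF f) (hg : DioF g) :
    DioF (fun M _ v => pr (f M v) (g M v)) :=
  DioF.app2 (F := fun _ _ a b => EP.pr a b) (show Dio _ by unfold EP.pr; (repeat' first | assumption | with_reducible exact Pool.Agent.H51.EP.DioF.var _ | with_reducible exact Pool.Agent.H51.EP.DioF.one | with_reducible exact Pool.Agent.H51.EP.DioF.zero | with_reducible exact Pool.Agent.H51.EP.DioF.num _ | with_reducible apply Pool.Agent.H51.EP.Dio.and | with_reducible apply Pool.Agent.H51.EP.Dio.or | with_reducible apply Pool.Agent.H51.EP.Dio.ex | with_reducible apply Pool.Agent.H51.EP.Dio.eq | with_reducible apply Pool.Agent.H51.EP.Dio.lt | with_reducible apply Pool.Agent.H51.EP.Dio.le | with_reducible apply Pool.Agent.H51.EP.Dio.ne | with_reducible apply Pool.Agent.H51.EP.Dio.dvd | with_reducible apply Pool.Agent.H51.EP.DioF.add | with_reducible apply Pool.Agent.H51.EP.DioF.mul)) hf hg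

theorem Dio.cg {f g h : ∀ (M : Type) [PAModel M], (ℕ → M) → M} (hf : DioF f) (hg : DioF g)
    (hh : DioF h) : Dio (fun M _ v => Cg (f M v) (g M v) (h M v)) :=
  Dio.sub3 (R := fun _ _ a b c => Cg a b c) (show Dio _ by unfold Cg; (repeat' first | assumption | with_reducible exact Pool.Agent.H51.EP.DioF.var _ | with_reducible exact Pool.Agent.H51.EP.DioF.one | with_reducible exact Pool.Agent.H51.EP.DioF.zero | with_reducible exact Pool.Agent.H51.EP.DioF.num _ | with_reducible apply Pool.Agent.H51.EP.Dio.and | with_reducible apply Pool.Agent.H51.EP.Dio.or | with_reducible apply Pool.Agent.H51.EP.Dio.ex | with_reducible apply Pool.Agent.H51.EP.Dio.eq | with_reducible apply Pool.Agent.H51.EP.Dio.lt | with_reducible apply Pool.Agent.H51.EP.Dio.le | with_reducible apply Pool.Agent.H51.EP.Dio.ne | with_reducible apply Pool.Agent.H51.EP.Dio.dvd | with_reducible apply Pool.Agent.H51.EP.DioF.add | with_reducible apply Pool.Agent.H51.EP.DioF.mul)) hf hg hh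

theorem Dio.sb_eq : Dio (fun _ _ v => v 0 = sb (v 1) (v 2)) := by
  refine Dio.congr (R := fun _ _ v => (v 2 ≤ v 1 ∧ v 2 + v 0 = v 1) ∨ (v 1 < v 2 ∧ v 0 = 0)) ?_ ?_
  · (repeat' first | assumption | with_reducible exact Pool.Agent.H51.EP.DioF.var _ | with_reducible exact Pool.Agent.H51.EP.DioF.one | with_reducible exact Pool.Agent.H51.EP.DioF.zero | with_reducible exact Pool.Agent.H51.EP.DioF.num _ | with_reducible apply Pool.Agent.H51.EP.Dio.and | with_reducible apply Pool.Agent.H51.EP.Dio.or | with_reducible apply Pool.Agent.H51.EP.Dio.ex | with_reducible apply Pool.Agent.H51.EP.Dio.eq | with_reducible apply Pool.Agent.H51.EP.Dio.lt | with_reducible apply Pool.Agent.H51.EP.Dio.le | with_reducible apply Pool.Agent.H51.EP.Dio.ne | with_reducible apply Pool.Agent.H51.EP.Dio.dvd | with_reducible apply Pool.Agent.H51.EP.DioF.add | with_reducible apply Pool.Agent.H51.EP.DioF.mul)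
  · intro M _ v
    constructor
    · rintro (⟨h1, h2⟩ | ⟨h1, h2⟩)
      · exact add_left_cancel (h2.trans (sb_add h1).symm)
      · rw [h2, sb_zero h1.le]
    · intro h
      rcases le_or_gt (v 2) (v 1) with h1 | h1
      · exact Or.inl ⟨h1, by rw [h, sb_add h1]⟩
      · exact Or.inr ⟨h1, by rw [h, sb_zero h1.le]⟩

theorem DioF.sb {f g : ∀ (M : Type) [PAModel M], (ℕ → M) → M} (hf : DioF f) (hg : DioF g) :
    DioF (fun M _ v => sb (f M v) (g M v)) :=
  DioF.app2 (F := fun _ _ a b => EP.sb a b) Dio.sb_eq hf hg


end Pool.Agent.H51.EP
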