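import Pool.Agent.H51.EP.Stm

/-! Parts QT, QM: realizability implies forcing and is persistent. -/

set_option autoImplicit false

namespace Pool.Agent.H51.EP

open Pool.Agent.H872R3.KH (Tm Fm KModel)

theorem QT : S_QT := by
  intro W n φ
  induction φ with
  | bot => intro k v r h; exact h
  | eq t s => intro k v r h; exact h
  | and φ ψ ihφ ihψ =>
    rintro k v r ⟨a, b, -, h1, h2⟩
    exact ⟨ihφ k v a h1, ihψ k v b h2⟩
  | or φ ψ ihφ ihψ =>
    rintro k v r ⟨a, b, -, h | h⟩
    · exact Or.inl (ihφ k v b h.2)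
    · exact Or.inr (ihψ k v b h.2)
  | imp φ ψ ihφ ihψ => intro k v r h; exact h.1
  | all φ ih =>
    intro k v r h l hl a
    obtain ⟨y, -, hy⟩ := h l hl a
    exact ih l _ y hy
  | ex φ ih =>
    rintro k v r ⟨a, b, -, h⟩
    exact ⟨a, ih k _ b h⟩

theorem QM (hI : S_INC) : S_QM := by
  intro W n φ
  induction φ with
  | bot => intro k l h v r hq; exact hq
  | eq t s =>
    intro k l h v r hq
    exact W.W.atomic h t s v hq
  | and φ ψ ihφ ihψ =>
    rintro k l h v r ⟨a, b, rfl, h1, h2⟩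
    obtain ⟨-, h0, hs, ha, hm⟩ := hI W k l h
    refine ⟨W.inc h a, W.inc h b, ?_, ihφ k l h v a h1, ihψ k l h v b h2⟩
    unfold pr
    rw [ha, hm, ha]
  | or φ ψ ihφ ihψ =>
    rintro k l h v r ⟨a, b, rfl, hq⟩
    obtain ⟨-, h0, hs, ha, hm⟩ := hI W k l h
    refine ⟨W.inc h a, W.inc h b, ?_, ?_⟩
    · unfold pr
      rw [ha, hm, ha]
    · rcases hq with ⟨rfl, h1⟩ | ⟨⟨c, rfl⟩, h1⟩
      · exact Or.inl ⟨h0, ihφ k l h v b h1⟩
      · exact Or.inr ⟨⟨W.inc h c, hs c⟩, ihψ k l h v b h1⟩
  | imp φ ψ ihφ ihψ =>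
    intro k l h v r hq
    refine ⟨W.W.forces_mono _ h v hq.1, fun l' h' a ha => ?_⟩
    exact hq.2 l' (h.trans h') a ha
  | all φ ih =>
    intro k l h v r hq l' h' a
    exact hq l' (h.trans h') a
  | ex φ ih =>
    rintro k l h v r ⟨a, b, rfl, hq⟩
    obtain ⟨-, h0, hs, ha, hm⟩ := hI W k l h
    refine ⟨W.inc h a, W.inc h b, ?_, ?_⟩
    · unfold pr
      rw [ha, hm, ha]
    · have h1 := ih k l h _ b hq
      have e : (fun i => W.inc h ((Pool.Agent.H872R3.KH.cns a v : Fin _ → W.W.dom k) i)) =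
          Pool.Agent.H872R3.KH.cns (W.inc h a) (fun i => W.inc h (v i)) := by
        funext i
        refine Fin.cases rfl (fun j => rfl) i
      rw [e] at h1
      exact h1

/-- decidability of equality, forced in all Kripke models of HA -/
theorem INC : S_INC := by
  intro W k l h
  have hev : ∀ {n : ℕ} (t : Tm n) (v : Fin n → W.W.dom k),
      t.ev (W.W.str l) (fun i => W.inc h (v i)) = W.inc h (t.ev (W.W.str k) v) :=
    fun t v => W.W.ev_mv h t v
  have e0 : ∀ k : W.W.K, (W.W.str k).zero = 0 := fun k => by rw [← W.str_eq k]; rfl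
  have es : ∀ (k : W.W.K) (a : W.W.dom k), (W.W.str k).succ a = a + 1 := fun k a => by
    rw [← W.str_eq k]; rfl
  have ea : ∀ (k : W.W.K) (a b : W.W.dom k), (W.W.str k).add a b = a + b := fun k a b => by
    rw [← W.str_eq k]; rfl
  have em : ∀ (k : W.W.K) (a b : W.W.dom k), (W.W.str k).mul a b = a * b := fun k a b => by
    rw [← W.str_eq k]; rfl
  have h0 : W.inc h 0 = 0 := by
    have := hev (.zero : Tm 0) (fun i => i.elim0)
    simp only [Tm.ev, e0] at this
    exact this.symm
  have hs : ∀ a, W.inc h (a + 1) = W.inc h a + 1 := by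
    intro a
    have := hev (.succ (.var 0) : Tm 1) (fun _ => a)
    simp only [Tm.ev, es] at this
    exact this.symm
  have ha : ∀ a b, W.inc h (a + b) = W.inc h a + W.inc h b := by
    intro a b
    have := hev (.add (.var 0) (.var 1) : Tm 2) (Pool.Agent.H872R3.KH.cns a fun _ => b)
    simp only [Tm.ev, ea] at this
    exact this.symm
  have hm : ∀ a b, W.inc h (a * b) = W.inc h a * W.inc h b := by
    intro a b
    have := hev (.mul (.var 0) (.var 1) : Tm 2) (Pool.Agent.H872R3.KH.cns a fun _ => b)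
    simp only [Tm.ev, em] at this
    exact this.symm
  refine ⟨?_, h0, hs, ha, hm⟩
  exact Set.inclusion_injective (W.W.dom_mono h)

end Pool.Agent.H51.EP
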