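import Pool.Agent.H51.EP.RC

/-! Parts RAX, RHA. -/

set_option autoImplicit false

namespace Pool.Agent.H51.EP

open Pool.Agent.Helper687.Arith (PAModel)
open Pool.Agent.H872R3.KH (Tm Fm KModel Sat Prv Ax closure HAProves)

/-- the fragment without `∨`, `∃` -/
inductive Neg : {n : ℕ} → Fm n → Prop
  | bot {n : ℕ} : Neg (.bot : Fm n)
  | eq {n : ℕ} (t s : Tm n) : Neg (.eq t s)
  | imp {n : ℕ} {φ ψ : Fm n} : Neg φ → Neg ψ → Neg (.imp φ ψ)
  | all {n : ℕ} {φ : Fm (n + 1)} : Neg φ → Neg (.all φ)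

theorem neg_real (h1 : S_PC1) (W : LW) {n : ℕ} {φ : Fm n} (h : Neg φ) :
    ∃ c : Tm 0, ∀ (k : W.W.K) (v : Fin n → W.W.dom k), W.F φ k v → Q W φ k v (W.cev k c) := by
  induction h with
  | bot => exact ⟨.zero, fun k v h => h⟩
  | eq t s => exact ⟨.zero, fun k v h => h⟩
  | imp _ _ ih1 ih2 =>
    obtain ⟨c, hc⟩ := ih2
    refine ⟨tK c, fun k v hf => ⟨hf, fun l hl a ha => ⟨W.cev l c, ?_, ?_⟩⟩⟩
    · rw [inc_cev]
      exact e_K h1 W l c a
    · exact hc l _ (hf l hl (QT W _ _ _ _ _ ha))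
  | all _ ih =>
    obtain ⟨c, hc⟩ := ih
    refine ⟨tK c, fun k v hf l hl a => ⟨W.cev l c, ?_, ?_⟩⟩
    · rw [inc_cev]
      exact e_K h1 W l c a
    · exact hc l _ (hf l hl a)

theorem neg_rble (h1 : S_PC1) (W : LW) {φ : Fm 0} (h : Neg φ) (hφ : Ax φ) : Rble W [] φ := by
  obtain ⟨c, hc⟩ := neg_real h1 W h
  refine ⟨tK c, fun k v rs _ => ⟨W.cev k c, e_K h1 W k c _, hc k v ?_⟩⟩
  have e : v = fun i => i.elim0 := funext fun i => i.elim0
  rw [e]
  exact W.ha k φ hφ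

theorem RAX (h1 : S_PC1) : S_RAX := by
  intro W α hα
  cases hα with
  | succ_ne => exact Or.inr (neg_rble h1 W (.all (.imp (.eq _ _) .bot)) .succ_ne)
  | succ_inj => exact Or.inr (neg_rble h1 W (.all (.all (.imp (.eq _ _) (.eq _ _)))) .succ_inj)
  | add_zero => exact Or.inr (neg_rble h1 W (.all (.eq _ _)) .add_zero)
  | add_succ => exact Or.inr (neg_rble h1 W (.all (.all (.eq _ _))) .add_succ)
  | mul_zero => exact Or.inr (neg_rble h1 W (.all (.eq _ _)) .mul_zero)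
  | mul_succ => exact Or.inr (neg_rble h1 W (.all (.all (.eq _ _))) .mul_succ)
  | ind n φ => exact Or.inl ⟨n, φ, rfl⟩

theorem rble_closure (h1 : S_PC1) (W : LW) : ∀ (n : ℕ) (φ : Fm n),
    Rble W ([] : List (Fm n)) φ → Rble W [] (closure n φ) := by
  intro n
  induction n with
  | zero => intro φ h; exact h
  | succ n ih => intro φ h; exact ih (.all φ) ((RAL h1 W n [] φ).1 h)

theorem rble_open (h1 : S_PC1) (W : LW) : ∀ (n : ℕ) (φ : Fm n),
    Rble W [] (closure n φ) → Rble W ([] : List (Fm n)) φ := by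
  intro n
  induction n with
  | zero => intro φ h; exact h
  | succ n ih => intro φ h; exact (RAL h1 W n [] φ).2.2 (ih (.all φ) h)

theorem RHA (h1 : S_PC1) (hi : S_RIN) : S_RHA := by
  intro W n φ h
  obtain ⟨L, hL, hd⟩ := h
  refine rble_open h1 W n φ ?_
  have hax : ∀ α, Ax α → Rble W [] α := by
    intro α hα
    rcases RAX h1 W α hα with ⟨n, φ, rfl⟩ | h
    · exact rble_closure h1 W n _ (hi W n φ)
    · exact h
  have key : ∀ (L : List (Fm 0)) (ψ : Fm 0), (∀ α ∈ L, Ax α) → Prv L ψ → Rble W [] ψ := by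
    intro L
    induction L with
    | nil => intro ψ _ h; exact RSO h1 W 0 [] ψ h
    | cons α L ih =>
      intro ψ hL h
      exact (RIM h1 W 0 [] α ψ).2 (ih _ (fun β hβ => hL β (List.mem_cons_of_mem _ hβ)) (.impI h))
        (hax α (hL α List.mem_cons_self))
  exact key L _ hL hd

end Pool.Agent.H51.EP
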