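import Pool.Agent.H51.EP.TOF

/-! Evaluation of codes at the nodes; parts TEV, RHY, RAO, RIM. -/

set_option autoImplicit false

namespace Pool.Agent.H51.EP

open Pool.Agent.Helper687.Arith (PAModel)
open Pool.Agent.H872R3.KH (Tm Fm KModel Sat)

section codes

variable (h1 : S_PC1) (W : LW) (k : W.W.K)
include h1

theorem e_I (x : W.W.dom k) : E (W.cev k tI) x x := by
  rw [(COD INC W k).2.2.1]; exact h1 _ _ _ _ (.id x)

theorem e_K (a : Tm 0) (x : W.W.dom k) : E (W.cev k (tK a)) x (W.cev k a) := by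
  rw [(COD INC W k).2.2.2.1]; exact h1 _ _ _ _ (.const _ x)

theorem e_F (x y : W.W.dom k) : E (W.cev k tF) (pr x y) x := by
  rw [(COD INC W k).2.2.2.2.1]; exact h1 _ _ _ _ (.fst x y)

theorem e_S (x y : W.W.dom k) : E (W.cev k tS) (pr x y) y := by
  rw [(COD INC W k).2.2.2.2.2.1]; exact h1 _ _ _ _ (.snd x y)

theorem e_P {f g : Tm 0} {x a b : W.W.dom k} (hf : E (W.cev k f) x a) (hg : E (W.cev k g) x b) :
    E (W.cev k (tP f g)) x (pr a b) := by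
  rw [(COD INC W k).2.2.2.2.2.2.1]; exact h1 _ _ _ _ (.pair hf hg)

theorem e_C {f g : Tm 0} {x y z : W.W.dom k} (hf : E (W.cev k f) x y) (hg : E (W.cev k g) y z) :
    E (W.cev k (tC f g)) x z := by
  rw [(COD INC W k).2.2.2.2.2.2.2.1]; exact h1 _ _ _ _ (.comp hf hg)

theorem e_A {f x y : W.W.dom k} (hf : E f x y) : E (W.cev k tA) (pr f x) y := by
  rw [(COD INC W k).2.2.2.2.2.2.2.2.1]; exact h1 _ _ _ _ (.app hf)

theorem e_L (f : Tm 0) (x : W.W.dom k) : E (W.cev k (tL f)) x (cM (W.cev k f) x) := by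
  rw [(COD INC W k).2.2.2.2.2.2.2.2.2.1]; exact h1 _ _ _ _ (.lam _ x)

theorem e_M {f x y z : W.W.dom k} (hf : E f (pr x y) z) : E (cM f x) y z :=
  h1 _ _ _ _ (.clo hf)

theorem e_D0 {f g : Tm 0} {x z : W.W.dom k} (hf : E (W.cev k f) x z) :
    E (W.cev k (tD f g)) (pr x 0) z := by
  rw [(COD INC W k).2.2.2.2.2.2.2.2.2.2.1]; exact h1 _ _ _ _ (.cases0 hf)

theorem e_DS {f g : Tm 0} {x n z : W.W.dom k} (hf : E (W.cev k g) (pr x n) z) :
    E (W.cev k (tD f g)) (pr x (n + 1)) z := by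
  rw [(COD INC W k).2.2.2.2.2.2.2.2.2.2.1]; exact h1 _ _ _ _ (.casesS hf)

theorem e_R0 {f g : Tm 0} {x z : W.W.dom k} (hf : E (W.cev k f) x z) :
    E (W.cev k (tR f g)) (pr x 0) z := by
  rw [(COD INC W k).2.2.2.2.2.2.2.2.2.2.2.1]; exact h1 _ _ _ _ (.rec0 hf)

theorem e_RS {f g : Tm 0} {x n u z : W.W.dom k} (hu : E (W.cev k (tR f g)) (pr x n) u)
    (hg : E (W.cev k g) (pr (pr x n) u) z) : E (W.cev k (tR f g)) (pr x (n + 1)) z := by
  rw [(COD INC W k).2.2.2.2.2.2.2.2.2.2.2.1] at hu ⊢; exact h1 _ _ _ _ (.recS hu hg)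

theorem e_U (x : W.W.dom k) : E (W.cev k tU) x (x + 1) := by
  rw [(COD INC W k).2.2.2.2.2.2.2.2.2.2.2.2.1]; exact h1 _ _ _ _ (.succ x)

theorem e_Add (x y : W.W.dom k) : E (W.cev k tAdd) (pr x y) (x + y) := by
  rw [(COD INC W k).2.2.2.2.2.2.2.2.2.2.2.2.2.1]; exact h1 _ _ _ _ (.add x y)

theorem e_Mul (x y : W.W.dom k) : E (W.cev k tMul) (pr x y) (x * y) := by
  rw [(COD INC W k).2.2.2.2.2.2.2.2.2.2.2.2.2.2.1]; exact h1 _ _ _ _ (.mul x y)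

end codes

/-- the inclusion commutes with codes -/
theorem inc_cev (W : LW) {k l : W.W.K} (h : k ≤ l) (c : Tm 0) : W.inc h (W.cev k c) = W.cev l c :=
  (COD INC W k).2.2.2.2.2.2.2.2.2.2.2.2.2.2.2.1 l h c

theorem inc_pr (W : LW) {k l : W.W.K} (h : k ≤ l) (a b : W.W.dom k) :
    W.inc h (pr a b) = pr (W.inc h a) (W.inc h b) :=
  (COD INC W k).2.2.2.2.2.2.2.2.2.2.2.2.2.2.2.2.1 l h a b

theorem inc_cv (W : LW) {k l : W.W.K} (h : k ≤ l) (n : ℕ) (v : Fin n → W.W.dom k) :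
    W.inc h (cv n v) = cv n (fun i => W.inc h (v i)) :=
  (COD INC W k).2.2.2.2.2.2.2.2.2.2.2.2.2.2.2.2.2.1 l h n v

theorem inc_cl (W : LW) {k l : W.W.K} (h : k ≤ l) (rs : List (W.W.dom k)) :
    W.inc h (cl rs) = cl (rs.map (W.inc h)) :=
  (COD INC W k).2.2.2.2.2.2.2.2.2.2.2.2.2.2.2.2.2.2 l h rs

theorem inc_zero (W : LW) {k l : W.W.K} (h : k ≤ l) : W.inc h 0 = 0 := (INC W k l h).2.1

theorem inc_one (W : LW) {k l : W.W.K} (h : k ≤ l) : W.inc h 1 = 1 := by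
  have := (INC W k l h).2.2.1 0
  rw [zero_add, inc_zero, zero_add] at this
  exact this

theorem inc_num (W : LW) {k l : W.W.K} (h : k ≤ l) (n : ℕ) : W.inc h (n : W.W.dom k) = n := by
  rw [← (COD INC W k).2.1 n, inc_cev, (COD INC W l).2.1 n]

theorem inc_cM (W : LW) {k l : W.W.K} (h : k ≤ l) (f x : W.W.dom k) :
    W.inc h (cM f x) = cM (W.inc h f) (W.inc h x) := by
  unfold cM
  rw [inc_pr, inc_pr, inc_num]

theorem inc_refl (W : LW) {k : W.W.K} (a : W.W.dom k) : W.inc (le_refl k) a = a := rfl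

/-! ### TEV -/

theorem tev_var (h1 : S_PC1) (W : LW) : ∀ (n : ℕ) (i : Fin n), ∃ c : Tm 0, ∀ (k : W.W.K)
    (v : Fin n → W.W.dom k), E (W.cev k c) (cv n v) (v i) := by
  intro n
  induction n with
  | zero => intro i; exact i.elim0
  | succ n ih =>
    intro i
    refine Fin.cases ?_ (fun j => ?_) i
    · exact ⟨tF, fun k v => e_F h1 W k _ _⟩
    · obtain ⟨c, hc⟩ := ih j
      exact ⟨tC tS c, fun k v => e_C h1 W k (e_S h1 W k _ _) (hc k _)⟩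

theorem TEV (h1 : S_PC1) : S_TEV := by
  intro W n t
  have hz : ∀ k : W.W.K, (W.W.str k).zero = 0 := fun k => by rw [← W.str_eq k]; rfl
  have hs : ∀ (k : W.W.K) (a : W.W.dom k), (W.W.str k).succ a = a + 1 := fun k a => by
    rw [← W.str_eq k]; rfl
  have ha : ∀ (k : W.W.K) (a b : W.W.dom k), (W.W.str k).add a b = a + b := fun k a b => by
    rw [← W.str_eq k]; rfl
  have hm : ∀ (k : W.W.K) (a b : W.W.dom k), (W.W.str k).mul a b = a * b := fun k a b => by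
    rw [← W.str_eq k]; rfl
  induction t with
  | var i =>
    obtain ⟨c, hc⟩ := tev_var h1 W n i
    exact ⟨tC tF c, fun k v z => e_C h1 W k (e_F h1 W k _ _) (hc k v)⟩
  | zero =>
    refine ⟨tK (num0 0), fun k v z => ?_⟩
    have := e_K h1 W k (num0 0) (pr (cv n v) z)
    rw [(COD INC W k).2.1 0, Nat.cast_zero] at this
    rw [Tm.ev, hz]
    exact this
  | succ t ih =>
    obtain ⟨c, hc⟩ := ih
    refine ⟨tC c tU, fun k v z => ?_⟩
    rw [Tm.ev, hs]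
    exact e_C h1 W k (hc k v z) (e_U h1 W k _)
  | add t s iht ihs =>
    obtain ⟨c, hc⟩ := iht
    obtain ⟨d, hd⟩ := ihs
    refine ⟨tC (tP c d) tAdd, fun k v z => ?_⟩
    rw [Tm.ev, ha]
    exact e_C h1 W k (e_P h1 W k (hc k v z) (hd k v z)) (e_Add h1 W k _ _)
  | mul t s iht ihs =>
    obtain ⟨c, hc⟩ := iht
    obtain ⟨d, hd⟩ := ihs
    refine ⟨tC (tP c d) tMul, fun k v z => ?_⟩
    rw [Tm.ev, hm]
    exact e_C h1 W k (e_P h1 W k (hc k v z) (hd k v z)) (e_Mul h1 W k _ _)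

/-! ### RHY -/

theorem RHY (h1 : S_PC1) : S_RHY := by
  intro W n Γ φ hφ
  have key : ∀ Γ : List (Fm n), φ ∈ Γ → ∃ c : Tm 0, ∀ (k : W.W.K) (v : Fin n → W.W.dom k)
      (rs : List (W.W.dom k)), List.Forall₂ (fun r γ => Q W γ k v r) rs Γ →
        ∃ y, E (W.cev k c) (cl rs) y ∧ Q W φ k v y := by
    intro Γ
    induction Γ with
    | nil => intro h; exact absurd h List.not_mem_nil
    | cons γ Γ ih =>
      intro h
      by_cases hg : φ = γ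
      · subst hg
        refine ⟨tF, fun k v rs hrs => ?_⟩
        obtain ⟨r, rs', hr, -, rfl⟩ := List.forall₂_cons_right_iff.1 hrs
        exact ⟨r, e_F h1 W k _ _, hr⟩
      · obtain ⟨c, hc⟩ := ih ((List.mem_cons.1 h).resolve_left hg)
        refine ⟨tC tS c, fun k v rs hrs => ?_⟩
        obtain ⟨r, rs', -, hrs', rfl⟩ := List.forall₂_cons_right_iff.1 hrs
        obtain ⟨y, hy, hy'⟩ := hc k v rs' hrs'
        exact ⟨y, e_C h1 W k (e_S h1 W k _ _) hy, hy'⟩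
  obtain ⟨c, hc⟩ := key Γ hφ
  refine ⟨tC tS c, fun k v rs hrs => ?_⟩
  obtain ⟨y, hy, hy'⟩ := hc k v rs hrs
  exact ⟨y, e_C h1 W k (e_S h1 W k _ _) hy, hy'⟩

/-! ### RAO -/

/-- `pr (pr V R) a ↦ pr V (pr a R)` -/
def tX : Tm 0 := tP (tC tF tF) (tP tS (tC tF tS))

theorem e_X (h1 : S_PC1) (W : LW) (k : W.W.K) (V R a : W.W.dom k) :
    E (W.cev k tX) (pr (pr V R) a) (pr V (pr a R)) :=
  e_P h1 W k (e_C h1 W k (e_F h1 W k _ _) (e_F h1 W k _ _))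
    (e_P h1 W k (e_S h1 W k _ _) (e_C h1 W k (e_F h1 W k _ _) (e_S h1 W k _ _)))

theorem RAO (h1 : S_PC1) : S_RAO := by
  intro W n Γ φ ψ χ
  have hz : ∀ k : W.W.K, W.cev k (num0 0) = 0 := fun k => by
    rw [(COD INC W k).2.1 0, Nat.cast_zero]
  have hone : ∀ k : W.W.K, W.cev k (num0 1) = 1 := fun k => by
    rw [(COD INC W k).2.1 1, Nat.cast_one]
  refine ⟨?_, ?_, ?_, ?_, ?_, ?_, ?_⟩
  · rintro ⟨c, hc⟩
    refine ⟨c, fun k v rs hrs => ?_⟩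
    obtain ⟨y, -, hy⟩ := hc k v rs hrs
    exact hy.elim
  · rintro ⟨c, hc⟩ ⟨d, hd⟩
    refine ⟨tP c d, fun k v rs hrs => ?_⟩
    obtain ⟨y, hy, hy'⟩ := hc k v rs hrs
    obtain ⟨z, hz, hz'⟩ := hd k v rs hrs
    exact ⟨pr y z, e_P h1 W k hy hz, y, z, rfl, hy', hz'⟩
  · rintro ⟨c, hc⟩
    refine ⟨tC c tF, fun k v rs hrs => ?_⟩
    obtain ⟨y, hy, a, b, rfl, ha, hb⟩ := hc k v rs hrs
    exact ⟨a, e_C h1 W k hy (e_F h1 W k _ _), ha⟩
  · rintro ⟨c, hc⟩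
    refine ⟨tC c tS, fun k v rs hrs => ?_⟩
    obtain ⟨y, hy, a, b, rfl, ha, hb⟩ := hc k v rs hrs
    exact ⟨b, e_C h1 W k hy (e_S h1 W k _ _), hb⟩
  · rintro ⟨c, hc⟩
    refine ⟨tP (tK (num0 0)) c, fun k v rs hrs => ?_⟩
    obtain ⟨y, hy, hy'⟩ := hc k v rs hrs
    refine ⟨pr 0 y, ?_, 0, y, rfl, Or.inl ⟨rfl, hy'⟩⟩
    have := e_K h1 W k (num0 0) (pr (cv n v) (cl rs))
    rw [hz] at this
    exact e_P h1 W k this hy
  · rintro ⟨c, hc⟩
    refine ⟨tP (tK (num0 1)) c, fun k v rs hrs => ?_⟩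
    obtain ⟨y, hy, hy'⟩ := hc k v rs hrs
    refine ⟨pr 1 y, ?_, 1, y, rfl, Or.inr ⟨⟨0, (zero_add 1).symm⟩, hy'⟩⟩
    have := e_K h1 W k (num0 1) (pr (cv n v) (cl rs))
    rw [hone] at this
    exact e_P h1 W k this hy
  · rintro ⟨c, hc⟩ ⟨d, hd⟩ ⟨e, he⟩
    -- env ↦ pr (pr env b) a, then cases on a
    refine ⟨tC (tP (tP tI (tC c tS)) (tC c tF)) (tD (tC tX d) (tC tF (tC tX e))),
      fun k v rs hrs => ?_⟩
    obtain ⟨y, hy, a, b, rfl, h⟩ := hc k v rs hrs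
    have h2 : E (W.cev k (tP (tP tI (tC c tS)) (tC c tF))) (pr (cv n v) (cl rs))
        (pr (pr (pr (cv n v) (cl rs)) b) a) :=
      e_P h1 W k (e_P h1 W k (e_I h1 W k _) (e_C h1 W k hy (e_S h1 W k _ _)))
        (e_C h1 W k hy (e_F h1 W k _ _))
    rcases h with ⟨rfl, hb⟩ | ⟨⟨m, rfl⟩, hb⟩
    · obtain ⟨z, hz, hz'⟩ := hd k v (b :: rs) (.cons hb hrs)
      exact ⟨z, e_C h1 W k h2 (e_D0 h1 W k (e_C h1 W k (e_X h1 W k _ _ _) hz)), hz'⟩
    · obtain ⟨z, hz, hz'⟩ := he k v (b :: rs) (.cons hb hrs)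
      exact ⟨z, e_C h1 W k h2 (e_DS h1 W k (e_C h1 W k (e_F h1 W k _ _)
        (e_C h1 W k (e_X h1 W k _ _ _) hz))), hz'⟩

/-! ### RIM -/

/-- realizers of hypotheses are persistent -/
theorem forall₂_mono (W : LW) {n : ℕ} (Γ : List (Fm n)) {k l : W.W.K} (h : k ≤ l)
    (v : Fin n → W.W.dom k) (rs : List (W.W.dom k))
    (hrs : List.Forall₂ (fun r γ => Q W γ k v r) rs Γ) :
    List.Forall₂ (fun r γ => Q W γ l (fun i => W.inc h (v i)) r) (rs.map (W.inc h)) Γ := by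
  induction hrs with
  | nil => exact .nil
  | cons h1 _ ih => exact .cons (QM INC W _ _ _ _ h _ _ h1) ih

theorem forall₂_forces (W : LW) {n : ℕ} (Γ : List (Fm n)) {k : W.W.K}
    (v : Fin n → W.W.dom k) (rs : List (W.W.dom k))
    (hrs : List.Forall₂ (fun r γ => Q W γ k v r) rs Γ) : ∀ γ ∈ Γ, W.F γ k v := by
  induction hrs with
  | nil => intro γ hγ; exact absurd hγ List.not_mem_nil
  | cons h1 _ ih =>
    intro γ hγ
    rcases List.mem_cons.1 hγ with rfl | hγ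
    · exact QT W _ _ _ _ _ h1
    · exact ih γ hγ

theorem RIM (h1 : S_PC1) : S_RIM := by
  intro W n Γ φ ψ
  constructor
  · rintro hs ⟨c, hc⟩
    refine ⟨tL (tC tX c), fun k v rs hrs => ⟨_, e_L h1 W k _ _, ?_, fun l h a ha => ?_⟩⟩
    · exact hs k v (forall₂_forces W Γ v rs hrs)
    · obtain ⟨y, hy, hy'⟩ := hc l (fun i => W.inc h (v i)) (a :: rs.map (W.inc h))
        (.cons ha (forall₂_mono W Γ h v rs hrs))
      refine ⟨y, ?_, hy'⟩
      rw [inc_cM, inc_cev, inc_pr, inc_cv, inc_cl]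
      exact e_M h1 W l (e_C h1 W l (e_X h1 W l _ _ _) hy)
  · rintro ⟨c, hc⟩ ⟨d, hd⟩
    refine ⟨tC (tP c d) tA, fun k v rs hrs => ?_⟩
    obtain ⟨y, hy, -, hy'⟩ := hc k v rs hrs
    obtain ⟨z, hz, hz'⟩ := hd k v rs hrs
    obtain ⟨w, hw, hw'⟩ := hy' k le_rfl z hz'
    exact ⟨w, e_C h1 W k (e_P h1 W k hy hz) (e_A h1 W k hw), hw'⟩

end Pool.Agent.H51.EP
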