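import Pool.Agent.H51.EP.RB

/-! Parts QS, RAL, REX, REQ, RSO. -/

set_option autoImplicit false

namespace Pool.Agent.H51.EP

open Pool.Agent.Helper687.Arith (PAModel)
open Pool.Agent.H872R3.KH (Tm Fm KModel Sat Prv)

theorem QS : S_QS := by
  intro W n m φ
  have hev : ∀ {n m : ℕ} (σ : Fin n → Tm m) {k l : W.W.K} (h : k ≤ l) (v : Fin m → W.W.dom k),
      (fun i => W.inc h ((σ i).ev (W.W.str k) v)) =
        fun i => (σ i).ev (W.W.str l) (fun j => W.inc h (v j)) := by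
    intro n m σ k l h v
    funext i
    exact (W.W.ev_mv h (σ i) v).symm
  induction φ generalizing m with
  | bot => intro σ k v r; rfl
  | eq t s =>
    intro σ k v r
    simp only [Fm.subst, Q, Pool.Agent.H872R3.KH.Tm.ev_subst]
  | and φ ψ ihφ ihψ =>
    intro σ k v r
    simp only [Fm.subst, Q, ihφ, ihψ]
  | or φ ψ ihφ ihψ =>
    intro σ k v r
    simp only [Fm.subst, Q, ihφ, ihψ]
  | imp φ ψ ihφ ihψ =>
    intro σ k v r
    refine and_congr ?_ ?_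
    · exact W.W.forces_subst (.imp φ ψ) σ k v
    · refine forall_congr' fun l => forall_congr' fun h => forall_congr' fun a => ?_
      rw [ihφ, hev σ h v]
      refine imp_congr Iff.rfl (exists_congr fun y => and_congr Iff.rfl ?_)
      rw [ihψ]
  | all φ ih =>
    intro σ k v r
    refine forall_congr' fun l => forall_congr' fun h => forall_congr' fun a =>
      exists_congr fun y => and_congr Iff.rfl ?_
    rw [ih, hev σ h v, Pool.Agent.H872R3.KH.up_ev]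
  | ex φ ih =>
    intro σ k v r
    refine exists_congr fun a => exists_congr fun b => and_congr Iff.rfl ?_
    rw [ih, Pool.Agent.H872R3.KH.up_ev]

theorem Q_sh (W : LW) {n : ℕ} (φ : Fm n) (k : W.W.K) (a : W.W.dom k) (v : Fin n → W.W.dom k)
    (r : W.W.dom k) : Q W φ.sh k (Pool.Agent.H872R3.KH.cns a v) r ↔ Q W φ k v r := by
  unfold Fm.sh
  rw [QS]
  rfl

theorem Q_inst (W : LW) {n : ℕ} (φ : Fm (n + 1)) (t : Tm n) (k : W.W.K) (v : Fin n → W.W.dom k)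
    (r : W.W.dom k) : Q W (φ.inst t) k v r ↔
      Q W φ k (Pool.Agent.H872R3.KH.cns (t.ev (W.W.str k) v) v) r := by
  unfold Fm.inst
  rw [QS, W.W.inst_fun]

theorem forall₂_sh (W : LW) {n : ℕ} (Γ : List (Fm n)) {k : W.W.K} (a : W.W.dom k)
    (v : Fin n → W.W.dom k) (rs : List (W.W.dom k))
    (hrs : List.Forall₂ (fun r γ => Q W γ k v r) rs Γ) :
    List.Forall₂ (fun r γ => Q W γ k (Pool.Agent.H872R3.KH.cns a v) r) rs (Γ.map Fm.sh) := by
  induction hrs with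
  | nil => exact .nil
  | cons h1 _ ih => exact .cons ((Q_sh W _ k a v _).2 h1) ih

/-- `pr (pr V R) a ↦ pr (pr a V) R` -/
def tY : Tm 0 := tP (tP tS (tC tF tF)) (tC tF tS)

theorem e_Y (h1 : S_PC1) (W : LW) (k : W.W.K) (V R a : W.W.dom k) :
    E (W.cev k tY) (pr (pr V R) a) (pr (pr a V) R) :=
  e_P h1 W k (e_P h1 W k (e_S h1 W k _ _) (e_C h1 W k (e_F h1 W k _ _) (e_F h1 W k _ _)))
    (e_C h1 W k (e_F h1 W k _ _) (e_S h1 W k _ _))

theorem cv_cns {M : Type} [PAModel M] {n : ℕ} (a : M) (v : Fin n → M) :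
    cv (n + 1) (Pool.Agent.H872R3.KH.cns a v) = pr a (cv n v) := rfl

theorem RAL (h1 : S_PC1) : S_RAL := by
  intro W n Γ φ
  have hz : ∀ k : W.W.K, W.cev k (num0 0) = 0 := fun k => by
    rw [(COD INC W k).2.1 0, Nat.cast_zero]
  refine ⟨?_, ?_, ?_⟩
  · rintro ⟨c, hc⟩
    refine ⟨tL (tC tY c), fun k v rs hrs => ⟨_, e_L h1 W k _ _, fun l h a => ?_⟩⟩
    obtain ⟨y, hy, hy'⟩ := hc l (Pool.Agent.H872R3.KH.cns a (fun i => W.inc h (v i)))
      (rs.map (W.inc h)) (forall₂_sh W Γ a _ _ (forall₂_mono W Γ h v rs hrs))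
    refine ⟨y, ?_, hy'⟩
    rw [inc_cM, inc_cev, inc_pr, inc_cv, inc_cl]
    exact e_M h1 W l (e_C h1 W l (e_Y h1 W l _ _ _) hy)
  · rintro t ⟨c, hc⟩
    obtain ⟨d, hd⟩ := TEV h1 W n t
    refine ⟨tC (tP c d) tA, fun k v rs hrs => ?_⟩
    obtain ⟨y, hy, hy'⟩ := hc k v rs hrs
    obtain ⟨z, hz, hz'⟩ := hy' k le_rfl (t.ev (W.W.str k) v)
    exact ⟨z, e_C h1 W k (e_P h1 W k hy (hd k v _)) (e_A h1 W k hz), (Q_inst W φ t k v z).2 hz'⟩
  · rintro ⟨c, hc⟩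
    refine ⟨tC (tP (tC (tP (tC tF tS) (tK (num0 0))) c) (tC tF tF)) tA, fun k v rs hrs => ?_⟩
    have hrs' : rs = [] := by
      cases hrs
      rfl
    subst hrs'
    obtain ⟨y, hy, hy'⟩ := hc k (fun i => v i.succ) [] .nil
    obtain ⟨z, hz1, hz'⟩ := hy' k le_rfl (v 0)
    have e : Pool.Agent.H872R3.KH.cns (v 0) (fun i => v i.succ) = v := by
      funext i
      refine Fin.cases rfl (fun j => rfl) i
    refine ⟨z, ?_, ?_⟩
    · have h2 := e_K h1 W k (num0 0) (pr (cv (n + 1) v) (cl []))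
      rw [hz] at h2
      exact e_C h1 W k (e_P h1 W k (e_C h1 W k (e_P h1 W k (e_C h1 W k (e_F h1 W k _ _)
        (e_S h1 W k _ _)) h2) hy) (e_C h1 W k (e_F h1 W k _ _) (e_F h1 W k _ _))) (e_A h1 W k hz1)
    · have h3 : Q W φ k (Pool.Agent.H872R3.KH.cns (v 0) (fun i => v i.succ)) z := hz'
      rwa [e] at h3

theorem REX (h1 : S_PC1) : S_REX := by
  intro W n Γ φ
  constructor
  · rintro t ⟨c, hc⟩
    obtain ⟨d, hd⟩ := TEV h1 W n t
    refine ⟨tP d c, fun k v rs hrs => ?_⟩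
    obtain ⟨y, hy, hy'⟩ := hc k v rs hrs
    exact ⟨_, e_P h1 W k (hd k v _) hy, _, _, rfl, (Q_inst W φ t k v y).1 hy'⟩
  · rintro χ ⟨c, hc⟩ ⟨d, hd⟩
    -- env ↦ pr (pr env b) a ↦ pr (pr V (pr b R)) a ↦ pr (pr a V) (pr b R)
    refine ⟨tC (tP (tC (tP tI (tC c tS)) tX) (tC c tF)) (tC tY d), fun k v rs hrs => ?_⟩
    obtain ⟨y, hy, a, b, rfl, hb⟩ := hc k v rs hrs
    obtain ⟨z, hz, hz'⟩ := hd k (Pool.Agent.H872R3.KH.cns a v) (b :: rs)
      (.cons hb (forall₂_sh W Γ a v rs hrs))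
    refine ⟨z, ?_, (Q_sh W χ k a v z).1 hz'⟩
    exact e_C h1 W k (e_P h1 W k (e_C h1 W k (e_P h1 W k (e_I h1 W k _)
      (e_C h1 W k hy (e_S h1 W k _ _))) (e_X h1 W k _ _ _)) (e_C h1 W k hy (e_F h1 W k _ _)))
      (e_C h1 W k (e_Y h1 W k _ _ _) hz)

theorem REQ (h1 : S_PC1) : S_REQ := by
  intro W n Γ
  constructor
  · intro t
    exact ⟨tK (num0 0), fun k v rs _ => ⟨_, e_K h1 W k _ _, rfl⟩⟩
  · rintro m φ σ τ he ⟨c, hc⟩
    refine ⟨c, fun k v rs hrs => ?_⟩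
    obtain ⟨y, hy, hy'⟩ := hc k v rs hrs
    refine ⟨y, hy, ?_⟩
    rw [QS] at hy' ⊢
    have e : (fun i => (σ i).ev (W.W.str k) v) = fun i => (τ i).ev (W.W.str k) v := by
      funext i
      obtain ⟨d, hd⟩ := he i
      obtain ⟨z, -, hz⟩ := hd k v rs hrs
      exact hz
    rwa [← e]

theorem RSO (h1 : S_PC1) : S_RSO := by
  intro W n Γ φ h
  induction h with
  | hyp h => exact RHY h1 W _ _ _ h
  | botE _ ih => exact (RAO h1 W _ _ _ .bot .bot).1 ih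
  | andI _ _ ih1 ih2 => exact (RAO h1 W _ _ _ _ .bot).2.1 ih1 ih2
  | andE₁ _ ih => exact (RAO h1 W _ _ _ _ .bot).2.2.1 ih
  | andE₂ _ ih => exact (RAO h1 W _ _ _ _ .bot).2.2.2.1 ih
  | orI₁ _ ih => exact (RAO h1 W _ _ _ _ .bot).2.2.2.2.1 ih
  | orI₂ _ ih => exact (RAO h1 W _ _ _ _ .bot).2.2.2.2.2.1 ih
  | orE _ _ _ ih1 ih2 ih3 => exact (RAO h1 W _ _ _ _ _).2.2.2.2.2.2 ih1 ih2 ih3
  | impI h ih =>
    refine (RIM h1 W _ _ _ _).1 (fun k v hΓ => ?_) ih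
    exact W.W.sound (.impI h) k v hΓ
  | impE _ _ ih1 ih2 => exact (RIM h1 W _ _ _ _).2 ih1 ih2
  | allI _ ih => exact (RAL h1 W _ _ _).1 ih
  | allE t _ ih => exact (RAL h1 W _ _ _).2.1 t ih
  | exI t _ ih => exact (REX h1 W _ _ _).1 t ih
  | exE _ _ ih1 ih2 => exact (REX h1 W _ _ _).2 _ ih1 ih2
  | refl t => exact (REQ h1 W _ _).1 t
  | repl φ σ τ _ _ ih1 ih2 => exact (REQ h1 W _ _).2 _ φ σ τ ih1 ih2

end Pool.Agent.H51.EP
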