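import Pool.Agent.H51.EP.SynStm

/-! Part SY3: the embedding preserves derivability. -/

set_option autoImplicit false

universe u

namespace Pool.Agent.H51.EP

theorem emT_subst (C : Type u) {n m : ℕ} (σ : Fin n → K.Tm m) (t : K.Tm n) :
    emT C (t.subst σ) = (emT C t).subst (fun i => emT C (σ i)) := by
  induction t with
  | var i => rfl
  | zero => rfl
  | succ t ih => simp only [Pool.Agent.H872R3.KH.Tm.subst, emT, Syn.Tm.subst, ih]
  | add t s iht ihs => simp only [Pool.Agent.H872R3.KH.Tm.subst, emT, Syn.Tm.subst, iht, ihs]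
  | mul t s iht ihs => simp only [Pool.Agent.H872R3.KH.Tm.subst, emT, Syn.Tm.subst, iht, ihs]

theorem emT_up (C : Type u) {n m : ℕ} (σ : Fin n → K.Tm m) :
    (fun i => emT C (K.up σ i)) = Syn.up (fun i => emT C (σ i)) := by
  funext i
  refine Fin.cases rfl (fun j => ?_) i
  exact emT_subst C _ _

theorem emF_subst (C : Type u) {n : ℕ} (φ : K.Fm n) : ∀ {m : ℕ} (σ : Fin n → K.Tm m),
    emF C (φ.subst σ) = (emF C φ).subst (fun i => emT C (σ i)) := by
  induction φ with
  | bot => intro m σ; rfl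
  | eq t s => intro m σ; simp only [Pool.Agent.H872R3.KH.Fm.subst, emF, Syn.Fm.subst, emT_subst]
  | and φ ψ ihφ ihψ =>
    intro m σ; simp only [Pool.Agent.H872R3.KH.Fm.subst, emF, Syn.Fm.subst, ihφ, ihψ]
  | or φ ψ ihφ ihψ =>
    intro m σ; simp only [Pool.Agent.H872R3.KH.Fm.subst, emF, Syn.Fm.subst, ihφ, ihψ]
  | imp φ ψ ihφ ihψ =>
    intro m σ; simp only [Pool.Agent.H872R3.KH.Fm.subst, emF, Syn.Fm.subst, ihφ, ihψ]
  | all φ ih =>
    intro m σ
    simp only [Pool.Agent.H872R3.KH.Fm.subst, emF, Syn.Fm.subst, ih]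
    exact congrArg _ (congrArg (fun σ => (emF C φ).subst σ) (emT_up C σ))
  | ex φ ih =>
    intro m σ
    simp only [Pool.Agent.H872R3.KH.Fm.subst, emF, Syn.Fm.subst, ih]
    exact congrArg _ (congrArg (fun σ => (emF C φ).subst σ) (emT_up C σ))

theorem emF_sh (C : Type u) {n : ℕ} (φ : K.Fm n) : emF C φ.sh = (emF C φ).sh :=
  emF_subst C φ _

theorem emF_inst (C : Type u) {n : ℕ} (φ : K.Fm (n + 1)) (t : K.Tm n) :
    emF C (φ.inst t) = (emF C φ).inst (emT C t) := by
  unfold Pool.Agent.H872R3.KH.Fm.inst Syn.Fm.inst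
  rw [emF_subst]
  congr 1
  funext i
  refine Fin.cases rfl (fun j => rfl) i

theorem emF_prv (C : Type u) {n : ℕ} {Γ : List (K.Fm n)} {φ : K.Fm n} (h : K.Prv Γ φ) :
    Syn.Prv (Γ.map (emF C)) (emF C φ) := by
  have hsh : ∀ {n : ℕ} (Γ : List (K.Fm n)),
      (Γ.map Pool.Agent.H872R3.KH.Fm.sh).map (emF C) = (Γ.map (emF C)).map Syn.Fm.sh := by
    intro n Γ
    rw [List.map_map, List.map_map]
    exact List.map_congr_left fun γ _ => emF_sh C γ
  induction h with
  | hyp h => exact .hyp (List.mem_map_of_mem h)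
  | botE _ ih => exact .botE ih
  | andI _ _ ih1 ih2 => exact .andI ih1 ih2
  | andE₁ _ ih => exact .andE₁ ih
  | andE₂ _ ih => exact .andE₂ ih
  | orI₁ _ ih => exact .orI₁ ih
  | orI₂ _ ih => exact .orI₂ ih
  | orE _ _ _ ih1 ih2 ih3 => exact .orE ih1 ih2 ih3
  | impI _ ih => exact .impI ih
  | impE _ _ ih1 ih2 => exact .impE ih1 ih2
  | allI _ ih =>
    refine .allI ?_
    rwa [hsh] at ih
  | allE t _ ih =>
    rw [emF_inst]
    exact .allE _ ih
  | exI t _ ih =>
    rw [emF_inst] at ih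
    exact .exI _ ih
  | exE _ _ ih1 ih2 =>
    rw [List.map_cons, hsh, emF_sh] at ih2
    exact .exE ih1 ih2
  | refl t => exact .refl _
  | repl φ σ τ _ _ ih1 ih2 =>
    rw [emF_subst] at ih2 ⊢
    exact .repl _ _ _ ih1 ih2

theorem emF_closure (C : Type u) : ∀ (n : ℕ) (φ : K.Fm n),
    emF C (K.closure n φ) = Syn.closure n (emF C φ) := by
  intro n
  induction n with
  | zero => intro φ; rfl
  | succ n ih => intro φ; exact ih (.all φ)

theorem emF_ax (C : Type u) (α : K.Fm 0) (h : K.Ax α) : Syn.HA C (emF C α) := by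
  cases h with
  | succ_ne => exact .succ_ne
  | succ_inj => exact .succ_inj
  | add_zero => exact .add_zero
  | add_succ => exact .add_succ
  | mul_zero => exact .mul_zero
  | mul_succ => exact .mul_succ
  | ind n φ =>
    rw [emF_closure]
    have h1 : emF C (Pool.Agent.H872R3.KH.atZero φ) = Syn.atZero (emF C φ) := by
      unfold Pool.Agent.H872R3.KH.atZero Syn.atZero Syn.Fm.inst
      rw [emF_subst]
      congr 1
      funext i
      refine Fin.cases rfl (fun j => rfl) i
    have h2 : emF C (Pool.Agent.H872R3.KH.atSucc φ) = Syn.atSucc (emF C φ) := by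
      unfold Pool.Agent.H872R3.KH.atSucc Syn.atSucc
      rw [emF_subst]
      congr 1
      funext i
      refine Fin.cases rfl (fun j => rfl) i
    simp only [emF, h1, h2]
    exact .ind n (emF C φ)

theorem SY3 : S_SY3.{u} := by
  constructor
  · rintro C φ ⟨L, hL, h⟩
    refine ⟨L.map (emF C), ?_, emF_prv C h⟩
    intro α hα
    obtain ⟨β, hβ, rfl⟩ := List.mem_map.1 hα
    exact emF_ax C β (hL β hβ)
  · rintro φ ⟨L, hL, h⟩
    refine ⟨L.map (emF Empty), ?_, emF_prv Empty h⟩
    intro α hα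
    obtain ⟨β, hβ, rfl⟩ := List.mem_map.1 hα
    exact .ha _ (emF_ax Empty β (hL β hβ))

end Pool.Agent.H51.EP
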