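import Mathlib

/-!
# Arithmetic with constants: the definitions of the final statement

First-order formulas of the language `0, S, +, ·, =` with additional constants `c ∈ C`,
intuitionistic natural deduction, Peano and Heyting arithmetic, the diagram of a structure, the
theory `HA + Diag(M)` and the existence property.
-/

set_option autoImplicit false

universe u v

namespace Pool.Agent.H51.EP.Syn

/-- Terms of the language `0, S, +, ·` with constants from `C` whose variables are among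
`x_0, …, x_{n-1}`. -/
inductive Tm (C : Type u) (n : ℕ) : Type u
  | var (i : Fin n) : Tm C n
  | cst (c : C) : Tm C n
  | zero : Tm C n
  | succ (t : Tm C n) : Tm C n
  | add (t s : Tm C n) : Tm C n
  | mul (t s : Tm C n) : Tm C n

/-- Formulas of the language `0, S, +, ·, =` with constants from `C` whose free variables are among
`x_0, …, x_{n-1}`. The quantifiers bind the variable `x_0` of their scope and the other variables of
the scope are numbered up by one. Negation is `φ → ⊥`. Sentences are the members of `Fm C 0`. -/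
inductive Fm (C : Type u) : ℕ → Type u
  | bot {n : ℕ} : Fm C n
  | eq {n : ℕ} (t s : Tm C n) : Fm C n
  | and {n : ℕ} (φ ψ : Fm C n) : Fm C n
  | or {n : ℕ} (φ ψ : Fm C n) : Fm C n
  | imp {n : ℕ} (φ ψ : Fm C n) : Fm C n
  | all {n : ℕ} (φ : Fm C (n + 1)) : Fm C n
  | ex {n : ℕ} (φ : Fm C (n + 1)) : Fm C n

section basic

variable {C : Type u}

/-- Substitution of terms for the variables of a term. -/
def Tm.subst {n m : ℕ} (σ : Fin n → Tm C m) : Tm C n → Tm C m
  | .var i => σ i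
  | .cst c => .cst c
  | .zero => .zero
  | .succ t => .succ (t.subst σ)
  | .add t s => .add (t.subst σ) (s.subst σ)
  | .mul t s => .mul (t.subst σ) (s.subst σ)

/-- The substitution `σ` in the scope of a quantifier. -/
def up {n m : ℕ} (σ : Fin n → Tm C m) : Fin (n + 1) → Tm C (m + 1) :=
  fun i => Fin.cases (.var 0) (fun j => (σ j).subst (fun l => .var l.succ)) i

/-- Substitution of terms for the free variables of a formula. -/
def Fm.subst : {n m : ℕ} → (Fin n → Tm C m) → Fm C n → Fm C m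
  | _, _, _, .bot => .bot
  | _, _, σ, .eq t s => .eq (t.subst σ) (s.subst σ)
  | _, _, σ, .and φ ψ => .and (φ.subst σ) (ψ.subst σ)
  | _, _, σ, .or φ ψ => .or (φ.subst σ) (ψ.subst σ)
  | _, _, σ, .imp φ ψ => .imp (φ.subst σ) (ψ.subst σ)
  | _, _, σ, .all φ => .all (φ.subst (up σ))
  | _, _, σ, .ex φ => .ex (φ.subst (up σ))

/-- `φ` in a context with one more variable `x_0`. -/
def Fm.sh {n : ℕ} (φ : Fm C n) : Fm C (n + 1) := φ.subst (fun l => .var l.succ)

/-- `φ(t, x_0, …, x_{n-1})`. -/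
def Fm.inst {n : ℕ} (φ : Fm C (n + 1)) (t : Tm C n) : Fm C n :=
  φ.subst (fun i => Fin.cases t (fun j => .var j) i)

/-- `φ(0, x_0, …, x_{n-1})`. -/
def atZero {n : ℕ} (φ : Fm C (n + 1)) : Fm C n := φ.inst .zero

/-- `φ(S x_0, x_1, …, x_n)`. -/
def atSucc {n : ℕ} (φ : Fm C (n + 1)) : Fm C (n + 1) :=
  φ.subst (fun i => Fin.cases (.succ (.var 0)) (fun j => .var j.succ) i)

/-- The universal closure of a formula. -/
def closure : (n : ℕ) → Fm C n → Fm C 0
  | 0, φ => φ
  | n + 1, φ => closure n (.all φ)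

/-- Natural deduction for intuitionistic predicate logic with equality: `Prv Γ φ` says that `φ` is
derivable from the hypotheses `Γ`; the free variables of `Γ` and `φ` are among `x_0, …, x_{n-1}`. -/
inductive Prv : {n : ℕ} → List (Fm C n) → Fm C n → Prop
  | hyp {n : ℕ} {Γ : List (Fm C n)} {φ : Fm C n} : φ ∈ Γ → Prv Γ φ
  | botE {n : ℕ} {Γ : List (Fm C n)} {φ : Fm C n} : Prv Γ .bot → Prv Γ φ
  | andI {n : ℕ} {Γ : List (Fm C n)} {φ ψ : Fm C n} : Prv Γ φ → Prv Γ ψ → Prv Γ (.and φ ψ)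
  | andE₁ {n : ℕ} {Γ : List (Fm C n)} {φ ψ : Fm C n} : Prv Γ (.and φ ψ) → Prv Γ φ
  | andE₂ {n : ℕ} {Γ : List (Fm C n)} {φ ψ : Fm C n} : Prv Γ (.and φ ψ) → Prv Γ ψ
  | orI₁ {n : ℕ} {Γ : List (Fm C n)} {φ ψ : Fm C n} : Prv Γ φ → Prv Γ (.or φ ψ)
  | orI₂ {n : ℕ} {Γ : List (Fm C n)} {φ ψ : Fm C n} : Prv Γ ψ → Prv Γ (.or φ ψ)
  | orE {n : ℕ} {Γ : List (Fm C n)} {φ ψ χ : Fm C n} : Prv Γ (.or φ ψ) → Prv (φ :: Γ) χ →
      Prv (ψ :: Γ) χ → Prv Γ χ
  | impI {n : ℕ} {Γ : List (Fm C n)} {φ ψ : Fm C n} : Prv (φ :: Γ) ψ → Prv Γ (.imp φ ψ)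
  | impE {n : ℕ} {Γ : List (Fm C n)} {φ ψ : Fm C n} : Prv Γ (.imp φ ψ) → Prv Γ φ → Prv Γ ψ
  | allI {n : ℕ} {Γ : List (Fm C n)} {φ : Fm C (n + 1)} : Prv (Γ.map Fm.sh) φ → Prv Γ (.all φ)
  | allE {n : ℕ} {Γ : List (Fm C n)} {φ : Fm C (n + 1)} (t : Tm C n) : Prv Γ (.all φ) →
      Prv Γ (φ.inst t)
  | exI {n : ℕ} {Γ : List (Fm C n)} {φ : Fm C (n + 1)} (t : Tm C n) : Prv Γ (φ.inst t) →
      Prv Γ (.ex φ)
  | exE {n : ℕ} {Γ : List (Fm C n)} {φ : Fm C (n + 1)} {χ : Fm C n} : Prv Γ (.ex φ) →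
      Prv (φ :: Γ.map Fm.sh) χ.sh → Prv Γ χ
  | refl {n : ℕ} {Γ : List (Fm C n)} (t : Tm C n) : Prv Γ (.eq t t)
  | repl {n m : ℕ} {Γ : List (Fm C n)} (φ : Fm C m) (σ τ : Fin m → Tm C n) :
      (∀ i, Prv Γ (.eq (σ i) (τ i))) → Prv Γ (φ.subst σ) → Prv Γ (φ.subst τ)

/-- `T ⊢ φ`: the sentence `φ` is derivable in intuitionistic logic from finitely many members of
the set `T` of sentences. -/
def Proves (T : Set (Fm C 0)) (φ : Fm C 0) : Prop :=
  ∃ L : List (Fm C 0), (∀ α ∈ L, α ∈ T) ∧ Prv L φ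

end basic

/-- The axioms of Heyting arithmetic in the language with constants from `C`:
`∀ x, ¬ S x = 0`, `∀ x y, S x = S y → x = y`, `∀ x, x + 0 = x`, `∀ x y, x + S y = S (x + y)`,
`∀ x, x · 0 = 0`, `∀ x y, x · S y = x · y + x` and, for every formula `φ` of the language with
constants, the universal closure of `φ(0) ∧ (∀ x, φ(x) → φ(S x)) → ∀ x, φ(x)`. In the second, fourth
and sixth axiom `x` is the variable `x_1` and `y` the variable `x_0` of the quantifier-free part. -/
inductive HA (C : Type u) : Fm C 0 → Prop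
  | succ_ne : HA C (.all (.imp (.eq (.succ (.var 0)) .zero) .bot))
  | succ_inj : HA C (.all (.all (.imp (.eq (.succ (.var 1)) (.succ (.var 0)))
      (.eq (.var 1) (.var 0)))))
  | add_zero : HA C (.all (.eq (.add (.var 0) .zero) (.var 0)))
  | add_succ : HA C (.all (.all (.eq (.add (.var 1) (.succ (.var 0)))
      (.succ (.add (.var 1) (.var 0))))))
  | mul_zero : HA C (.all (.eq (.mul (.var 0) .zero) .zero))
  | mul_succ : HA C (.all (.all (.eq (.mul (.var 1) (.succ (.var 0)))
      (.add (.mul (.var 1) (.var 0)) (.var 1)))))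
  | ind (n : ℕ) (φ : Fm C (n + 1)) : HA C (closure n
      (.imp (.and (atZero φ) (.all (.imp φ (atSucc φ)))) (.all φ)))

/-- The axioms of Peano arithmetic (in the language without constants): those of Heyting arithmetic
and the universal closures of `φ ∨ ¬ φ` for all formulas `φ`. -/
inductive PA : Fm Empty 0 → Prop
  | ha (α : Fm Empty 0) : HA Empty α → PA α
  | em (n : ℕ) (φ : Fm Empty n) : PA (closure n (.or φ (.imp φ .bot)))

/-- A classical structure for the language `0, S, +, ·` (equality is equality) with domain `M`. -/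
structure Str (M : Type u) where
  zero : M
  succ : M → M
  add : M → M → M
  mul : M → M → M

section semantics

variable {M : Type u} {C : Type v}

/-- The value of a term in a structure; `ρ` is the interpretation of the constants. -/
def Tm.ev (A : Str M) (ρ : C → M) {n : ℕ} (v : Fin n → M) : Tm C n → M
  | .var i => v i
  | .cst c => ρ c
  | .zero => A.zero
  | .succ t => A.succ (t.ev A ρ v)
  | .add t s => A.add (t.ev A ρ v) (s.ev A ρ v)
  | .mul t s => A.mul (t.ev A ρ v) (s.ev A ρ v)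

/-- Classical satisfaction of a formula in a structure. -/
def Sat (A : Str M) (ρ : C → M) : {n : ℕ} → Fm C n → (Fin n → M) → Prop
  | _, .bot, _ => False
  | _, .eq t s, v => t.ev A ρ v = s.ev A ρ v
  | _, .and φ ψ, v => Sat A ρ φ v ∧ Sat A ρ ψ v
  | _, .or φ ψ, v => Sat A ρ φ v ∨ Sat A ρ ψ v
  | _, .imp φ ψ, v => Sat A ρ φ v → Sat A ρ ψ v
  | _, .all φ, v => ∀ a, Sat A ρ φ (fun i => Fin.cases a v i)
  | _, .ex φ, v => ∃ a, Sat A ρ φ (fun i => Fin.cases a v i)

end semantics

/-- Bounded (`Δ₀`) formulas. The quantifiers `∀ x < t` and `∃ x < t` are written with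
`x < t` as `∃ z, x + S z = t`. -/
inductive Bounded : {n : ℕ} → Fm Empty n → Prop
  | bot {n : ℕ} : Bounded (.bot : Fm Empty n)
  | eq {n : ℕ} (t s : Tm Empty n) : Bounded (.eq t s)
  | and {n : ℕ} {φ ψ : Fm Empty n} : Bounded φ → Bounded ψ → Bounded (.and φ ψ)
  | or {n : ℕ} {φ ψ : Fm Empty n} : Bounded φ → Bounded ψ → Bounded (.or φ ψ)
  | imp {n : ℕ} {φ ψ : Fm Empty n} : Bounded φ → Bounded ψ → Bounded (.imp φ ψ)
  | ball {n : ℕ} (t : Tm Empty n) {φ : Fm Empty (n + 1)} : Bounded φ → Bounded (.all (.imp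
      (.ex (.eq (.add (.var 1) (.succ (.var 0))) (t.subst (fun i => .var i.succ.succ)))) φ))
  | bex {n : ℕ} (t : Tm Empty n) {φ : Fm Empty (n + 1)} : Bounded φ → Bounded (.ex (.and
      (.ex (.eq (.add (.var 1) (.succ (.var 0))) (t.subst (fun i => .var i.succ.succ)))) φ))

/-- `∃ x_{k-1} … x_0, φ`. -/
def exs {C : Type u} {n : ℕ} : (k : ℕ) → Fm C (n + k) → Fm C n
  | 0, φ => φ
  | k + 1, φ => exs k (.ex φ)

/-- `Π₂` sentences: a block of universal quantifiers, then a block of existential quantifiers, then a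
bounded formula. -/
def IsPi₂ (σ : Fm Empty 0) : Prop :=
  ∃ (n k : ℕ) (δ : Fm Empty (n + k)), Bounded δ ∧ σ = closure n (exs k δ)

/-- `M ⊨ Th_{Π₂}(PA)`. -/
def ModelsPi₂PA {M : Type u} (A : Str M) : Prop :=
  ∀ σ : Fm Empty 0, IsPi₂ σ → Proves {α | PA α} σ →
    Sat A (fun c : Empty => c.elim) (σ : Fm Empty 0) (fun i => i.elim0)

/-- The diagram of a structure `M`: the atomic sentences and the negations of atomic sentences of the
language with a constant for every element of `M` which are true in `M`. -/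
inductive Diag {M : Type u} (A : Str M) : Fm M 0 → Prop
  | eq (t s : Tm M 0) : t.ev A id (fun i => i.elim0) = s.ev A id (fun i => i.elim0) →
      Diag A (.eq t s)
  | ne (t s : Tm M 0) : t.ev A id (fun i => i.elim0) ≠ s.ev A id (fun i => i.elim0) →
      Diag A (.imp (.eq t s) .bot)

/-- The theory `HA + Diag(M)` (induction for all formulas of the language with constants). -/
def HADiag {M : Type u} (A : Str M) : Set (Fm M 0) := {α | HA M α ∨ Diag A α}

/-- The existence property: if `T ⊢ ∃ x, φ(x)` for a sentence `∃ x, φ(x)`, then `T ⊢ φ(t)` for a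
closed term `t`. -/
def ExistenceProperty {C : Type u} (T : Set (Fm C 0)) : Prop :=
  ∀ φ : Fm C 1, Proves T (.ex φ) → ∃ t : Tm C 0, Proves T (φ.inst t)

end Pool.Agent.H51.EP.Syn
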