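import Pool.Agent.H51.EP.Stm
import Pool.Agent.H51.EP.Syn

/-! Interface of the syntactical part (constants) of the project EP. -/

set_option autoImplicit false

universe u

namespace Pool.Agent.H51.EP

namespace K
export Pool.Agent.H872R3.KH (Tm Fm Prv Ax HAProves closure up KModel)
end K

open Pool.Agent.H872R3 (KH.Fm.sh)

/-- constants are replaced by terms `ρ`, variables by terms `σ` -/
def trT {C : Type u} {n k : ℕ} (ρ : C → K.Tm k) (σ : Fin n → K.Tm k) : Syn.Tm C n → K.Tm k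
  | .var i => σ i
  | .cst c => ρ c
  | .zero => .zero
  | .succ t => .succ (trT ρ σ t)
  | .add t s => .add (trT ρ σ t) (trT ρ σ s)
  | .mul t s => .mul (trT ρ σ t) (trT ρ σ s)

/-- `ρ` in the scope of a quantifier -/
def shρ {C : Type u} {k : ℕ} (ρ : C → K.Tm k) : C → K.Tm (k + 1) :=
  fun c => (ρ c).subst (fun l => .var l.succ)

/-- constants are replaced by terms `ρ`, variables by terms `σ` -/
def trF {C : Type u} : {n k : ℕ} → (C → K.Tm k) → (Fin n → K.Tm k) → Syn.Fm C n → K.Fm k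
  | _, _, _, _, .bot => .bot
  | _, _, ρ, σ, .eq t s => .eq (trT ρ σ t) (trT ρ σ s)
  | _, _, ρ, σ, .and φ ψ => .and (trF ρ σ φ) (trF ρ σ ψ)
  | _, _, ρ, σ, .or φ ψ => .or (trF ρ σ φ) (trF ρ σ ψ)
  | _, _, ρ, σ, .imp φ ψ => .imp (trF ρ σ φ) (trF ρ σ ψ)
  | _, _, ρ, σ, .all φ => .all (trF (shρ ρ) (K.up σ) φ)
  | _, _, ρ, σ, .ex φ => .ex (trF (shρ ρ) (K.up σ) φ)

/-- the embedding of the terms without constants -/
def emT (C : Type u) {n : ℕ} : K.Tm n → Syn.Tm C n
  | .var i => .var i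
  | .zero => .zero
  | .succ t => .succ (emT C t)
  | .add t s => .add (emT C t) (emT C s)
  | .mul t s => .mul (emT C t) (emT C s)

/-- the embedding of the formulas without constants -/
def emF (C : Type u) : {n : ℕ} → K.Fm n → Syn.Fm C n
  | _, .bot => .bot
  | _, .eq t s => .eq (emT C t) (emT C s)
  | _, .and φ ψ => .and (emF C φ) (emF C ψ)
  | _, .or φ ψ => .or (emF C φ) (emF C ψ)
  | _, .imp φ ψ => .imp (emF C φ) (emF C ψ)
  | _, .all φ => .all (emF C φ)
  | _, .ex φ => .ex (emF C φ)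

/-- no variables -/
def nov {X : Type u} : Fin 0 → X := fun i => i.elim0

/-- part SY1: derivations are translated -/
def S_SY1 : Prop := ∀ (C : Type u) (n : ℕ) (Γ : List (Syn.Fm C n)) (φ : Syn.Fm C n),
    Syn.Prv Γ φ → ∀ (k : ℕ) (ρ : C → K.Tm k) (σ : Fin n → K.Tm k),
      K.Prv (Γ.map (trF ρ σ)) (trF ρ σ φ)

/-- part SY2: the translated axioms of HA are forced -/
def S_SY2 : Prop := ∀ (C : Type u) (α : Syn.Fm C 0), Syn.HA C α → ∀ (W : K.KModel), W.ForcesHA →
    ∀ (m : ℕ) (ρ : C → K.Tm m) (k : W.K) (v : Fin m → W.dom k), W.Forces (trF ρ nov α) k v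

/-- part SY3: the embedding preserves derivability -/
def S_SY3 : Prop := (∀ (C : Type u) (φ : K.Fm 0), K.HAProves φ → Syn.Proves {α | Syn.HA C α} (emF C φ)) ∧
    (∀ (φ : K.Fm 0), K.HAProves φ → Syn.Proves {α | Syn.PA α} (emF Empty φ))

/-- part SY4: a `Π₂` sentence `∀ x̄ ∃ x ∃ w̄ (t = s)` in a structure -/
def S_SY4 : Prop := ∀ (m j : ℕ) (t s : K.Tm (m + 1 + j)),
    Syn.IsPi₂ (emF Empty (K.closure m (.ex (exs j (.eq t s))))) ∧
    ∀ (M : Type u) (A : Syn.Str M),
      Syn.Sat A (fun c : Empty => c.elim) (emF Empty (K.closure m (.ex (exs j (.eq t s))))) nov →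
      ∀ a : Fin m → M, ∃ b : M,
        Syn.Sat A (id : M → M) (emF M (exs j (.eq t s))) (fun i => Fin.cases b a i)

/-- part SY5: true existential statements are derivable from the diagram -/
def S_SY5 : Prop := ∀ (M : Type u) (A : Syn.Str M) (n j : ℕ) (t s : K.Tm (n + j)) (v : Fin n → M),
    Syn.Sat A (id : M → M) (emF M (exs j (.eq t s))) v →
      Syn.Proves (Syn.HADiag A) ((emF M (exs j (.eq t s))).subst (fun i => Syn.Tm.cst (n := 0) (v i)))

/-- part SY6: instances of universal closures; modus ponens and conjunction -/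
def S_SY6 : Prop := ∀ (C : Type u) (T : Set (Syn.Fm C 0)),
    (∀ (n : ℕ) (χ : K.Fm n) (v : Fin n → C), Syn.Proves T (emF C (K.closure n χ)) →
      Syn.Proves T ((emF C χ).subst (fun i => Syn.Tm.cst (n := 0) (v i)))) ∧
    (∀ φ ψ : Syn.Fm C 0, Syn.Proves T (.imp φ ψ) → Syn.Proves T φ → Syn.Proves T ψ) ∧
    (∀ φ ψ : Syn.Fm C 0, Syn.Proves T φ → Syn.Proves T ψ → Syn.Proves T (.and φ ψ)) ∧
    (∀ φ : Syn.Fm C 0, φ ∈ T → Syn.Proves T φ) ∧
    (∀ t : Syn.Tm C 0, Syn.Proves T (.eq t t)) ∧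
    (∀ (T' : Set (Syn.Fm C 0)) (φ : Syn.Fm C 0), T' ⊆ T → Syn.Proves T' φ → Syn.Proves T φ)

/-- part SY7: every formula is recovered from the formula in which its constants are replaced by
variables: there is a finite list of constants such that this holds for all `ρ`, `τ` which are
inverse on the list -/
def S_SY7 : Prop := ∀ (C : Type u) (n : ℕ) (φ : Syn.Fm C n), ∃ cs : List C,
    ∀ (k l : ℕ) (ρ : C → K.Tm k) (σ : Fin n → K.Tm k) (τ : Fin k → Syn.Tm C l),
      (∀ c ∈ cs, (emT C (ρ c)).subst τ = .cst c) →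
        (emF C (trF ρ σ φ)).subst τ = φ.subst (fun i => (emT C (σ i)).subst τ)

/-- literals -/
def IsLit {C : Type u} (α : Syn.Fm C 0) : Prop :=
  ∃ t s : Syn.Tm C 0, α = .eq t s ∨ α = .imp (.eq t s) .bot

/-- conjunctions -/
def conj {m : ℕ} : List (K.Fm m) → K.Fm m
  | [] => .eq .zero .zero
  | φ :: L => .and φ (conj L)

/-- part SYD (uses SY1, SY2, UNI, INC): the hypotheses from the diagram are moved into the matrix -/
def S_SYD : Prop := ∀ (C : Type u) (L : List (Syn.Fm C 0)), (∀ α ∈ L, Syn.HA C α ∨ IsLit α) →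
    ∀ φ : Syn.Fm C 1, Syn.Prv L (.ex φ) → ∃ D : List (Syn.Fm C 0), (∀ α ∈ D, α ∈ L ∧ IsLit α) ∧
      ∀ (m : ℕ) (ρ : C → K.Tm m), K.HAProves (K.closure m (.ex
        (.imp (conj (D.map (trF ρ nov))).sh (trF (shρ ρ) (K.up nov) φ))))

/-- part FIN (uses CHU, SYD, SY3, …, SY7): the final theorem -/
def S_FIN : Prop := ∀ (M : Type u) (A : Syn.Str M), Syn.ModelsPi₂PA A →
    Syn.ExistenceProperty (Syn.HADiag A)

end Pool.Agent.H51.EP
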