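import Pool.Agent.H51.EP.QT

/-! Parts UP, TOF, COD. -/

set_option autoImplicit false

namespace Pool.Agent.H51.EP

open Pool.Agent.Helper687.Arith (PAModel)
open Pool.Agent.H872R3.KH (Tm Fm KModel Sat)

theorem UP (hI : S_INC) : S_UP := by
  rintro R ⟨φ, hφ⟩ W k l h v hv
  obtain ⟨-, h0, hs, ha, hm⟩ := hI W k l h
  have ht : ∀ (t : PT) (v : ℕ → W.W.dom k), t.ev (fun n => W.inc h (v n)) = W.inc h (t.ev v) := by
    intro t v
    induction t with
    | var i => rfl
    | zero => exact h0.symm
    | succ t ih => simp only [PT.ev, ih, hs]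
    | add t s iht ihs => simp only [PT.ev, iht, ihs, ha]
    | mul t s iht ihs => simp only [PT.ev, iht, ihs, hm]
  have key : ∀ (φ : EF) (v : ℕ → W.W.dom k), φ.ev v → φ.ev (fun n => W.inc h (v n)) := by
    intro φ
    induction φ with
    | eq t s =>
      intro v hv
      simp only [EF.ev, ht] at hv ⊢
      rw [hv]
    | and φ ψ ihφ ihψ => intro v hv; exact ⟨ihφ v hv.1, ihψ v hv.2⟩
    | or φ ψ ihφ ihψ =>
      intro v hv
      rcases hv with hv | hv
      · exact Or.inl (ihφ v hv)
      · exact Or.inr (ihψ v hv)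
    | ex φ ih =>
      rintro v ⟨a, hv⟩
      refine ⟨W.inc h a, ?_⟩
      have := ih _ hv
      have e : (fun n => W.inc h (Pool.Agent.Helper687.Arith.cns a v n)) =
          Pool.Agent.Helper687.Arith.cns (W.inc h a) (fun n => W.inc h (v n)) := by
        funext n
        cases n <;> rfl
      rwa [e] at this
  exact (hφ _ _).1 (key φ v ((hφ _ _).2 hv))

theorem toTm_ev {n : ℕ} {M : Type} [PAModel M] (t : PT) (σ : ℕ → Tm n) (v : Fin n → M) :
    (t.toTm σ).ev (strOf M) v = t.ev (fun i => (σ i).ev (strOf M) v) := by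
  induction t with
  | var i => rfl
  | zero => rfl
  | succ t ih => simp only [PT.toTm, PT.ev, Tm.ev, ih]; rfl
  | add t s iht ihs => simp only [PT.toTm, PT.ev, Tm.ev, iht, ihs]; rfl
  | mul t s iht ihs => simp only [PT.toTm, PT.ev, Tm.ev, iht, ihs]; rfl

theorem upσ_ev {n : ℕ} {M : Type} [PAModel M] (σ : ℕ → Tm n) (a : M) (v : Fin n → M) :
    (fun i => (upσ σ i).ev (strOf M) (Pool.Agent.H872R3.KH.cns a v)) =
      Pool.Agent.Helper687.Arith.cns a (fun i => (σ i).ev (strOf M) v) := by
  funext i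
  cases i with
  | zero => rfl
  | succ i =>
    show ((σ i).subst (fun l => .var l.succ)).ev (strOf M) _ = _
    rw [Pool.Agent.H872R3.KH.Tm.ev_subst]
    rfl

theorem TOF : S_TOF := by
  have h1 : ∀ (φ : EF) (n : ℕ) (σ : ℕ → Tm n) (M : Type) [PAModel M] (v : Fin n → M),
      Sat (strOf M) (φ.toFm σ) v ↔ φ.ev (fun i => (σ i).ev (strOf M) v) := by
    intro φ
    induction φ with
    | eq t s =>
      intro n σ M _ v
      simp only [EF.toFm, Sat, EF.ev, toTm_ev]
    | and φ ψ ihφ ihψ => intro n σ M _ v; simp only [EF.toFm, Sat, EF.ev, ihφ, ihψ]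
    | or φ ψ ihφ ihψ => intro n σ M _ v; simp only [EF.toFm, Sat, EF.ev, ihφ, ihψ]
    | ex φ ih =>
      intro n σ M _ v
      simp only [EF.toFm, Sat, EF.ev, ih, upσ_ev]
  refine ⟨h1, ?_, ?_⟩
  · intro φ
    induction φ with
    | eq t s =>
      intro n σ W k v
      rw [← W.str_eq k]
      show (t.toTm σ).ev (W.W.str k) v = (s.toTm σ).ev (W.W.str k) v ↔ _
      rw [← W.str_eq k, toTm_ev, toTm_ev]
      rfl
    | and φ ψ ihφ ihψ =>
      intro n σ W k v
      exact and_congr (ihφ n σ W k v) (ihψ n σ W k v)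
    | or φ ψ ihφ ihψ =>
      intro n σ W k v
      exact or_congr (ihφ n σ W k v) (ihψ n σ W k v)
    | ex φ ih =>
      intro n σ W k v
      refine exists_congr fun a => ?_
      refine (ih (n + 1) (upσ σ) W k _).trans ?_
      rw [← W.str_eq k, upσ_ev]
  · intro n j
    -- general: positive existential prefix
    have gen : ∀ (j : ℕ) (W : LW) (k : W.W.K) (χ : Fm (n + j)),
        (∀ u, W.F χ k u ↔ Sat (strOf (W.W.dom k)) χ u) →
        ∀ v, W.F (exs j χ) k v ↔ Sat (strOf (W.W.dom k)) (exs j χ) v := by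
      intro j
      induction j with
      | zero => intro W k χ h v; exact h v
      | succ j ih =>
        intro W k χ h v
        exact ih W k (.ex χ) (fun u => exists_congr fun a => h _) v
    intro t s W k v
    refine gen j W k _ (fun u => ?_) v
    show t.ev (W.W.str k) u = s.ev (W.W.str k) u ↔ t.ev (strOf _) u = s.ev (strOf _) u
    rw [W.str_eq k]

theorem COD (hI : S_INC) : S_COD := by
  intro W k
  have es : ∀ a : W.W.dom k, (W.W.str k).succ a = a + 1 := fun a => by
    rw [← W.str_eq k]; rfl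
  have e0 : (W.W.str k).zero = 0 := by rw [← W.str_eq k]; rfl
  have ea : ∀ a b : W.W.dom k, (W.W.str k).add a b = a + b := fun a b => by
    rw [← W.str_eq k]; rfl
  have em : ∀ a b : W.W.dom k, (W.W.str k).mul a b = a * b := fun a b => by
    rw [← W.str_eq k]; rfl
  have hp : ∀ t s : Tm 0, W.cev k (prT t s) = pr (W.cev k t) (W.cev k s) := by
    intro t s
    simp only [LW.cev, prT, Tm.ev, ea, em, pr]
  have hn : ∀ n : ℕ, W.cev k (num0 n) = (n : W.W.dom k) := by
    intro n
    induction n with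
    | zero => simp only [num0, LW.cev, Tm.ev, e0, Nat.cast_zero]
    | succ n ih =>
      simp only [num0, LW.cev, Tm.ev, es] at ih ⊢
      rw [ih, Nat.cast_succ]
  have hc : ∀ (l : W.W.K) (h : k ≤ l) (c : Tm 0), W.inc h (W.cev k c) = W.cev l c := by
    intro l h c
    have := W.W.ev_mv h c (fun i => i.elim0)
    unfold LW.cev
    have e : W.W.mv h (fun i : Fin 0 => (i.elim0 : W.W.dom k)) = fun i => i.elim0 :=
      funext fun i => i.elim0
    rw [e] at this
    exact this.symm
  have hpr : ∀ (l : W.W.K) (h : k ≤ l) (a b : W.W.dom k),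
      W.inc h (pr a b) = pr (W.inc h a) (W.inc h b) := by
    intro l h a b
    obtain ⟨-, -, -, ha, hm⟩ := hI W k l h
    unfold pr
    rw [ha, hm, ha]
  have hz : ∀ (l : W.W.K) (h : k ≤ l), W.inc h 0 = 0 := fun l h => (hI W k l h).2.1
  refine ⟨hp, hn, ?_, ?_, ?_, ?_, ?_, ?_, ?_, ?_, ?_, ?_, ?_, ?_, ?_, hc, hpr, ?_, ?_⟩
  all_goals first
    | (intro f g
       simp only [tP, tC, tD, tR, cP, cC, cD, cR, hp, hn])
    | (intro f
       simp only [tK, tL, cK, cL, hp, hn, Nat.cast_one])
    | (simp only [tI, tF, tS, tA, tU, tAdd, tMul, cI, cF, cS, cA, cU, cAdd, cMul, hp, hn,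
         Nat.cast_zero]
       done)
    | skip
  · intro l h n
    induction n with
    | zero => intro v; exact hz l h
    | succ n ih =>
      intro v
      simp only [cv, hpr, ih]
  · intro l h rs
    induction rs with
    | nil => exact hz l h
    | cons a rs ih => simp only [cl, List.map, hpr, ih]

end Pool.Agent.H51.EP
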